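import Pool.Agent.H68.IW.Dg
import Pool.Agent.H10.Iso3

/-!
ROW A0 (about 120 lines).  PROOF.
(1) `sum_pow_zero`: `n := orderOf x`; `G` is the set of powers of `x`, so `n = Fintype.card G` (orderOf_eq_card_of_forall_mem_zpowers) and `∑ j ∈ range n, φ (x ^ j) = ∑ y, φ y` (bijection `range n → G`, `j ↦ x ^ j`, as in `H78D.norm_prod`, Pool/Agent/H78/TD/Kb.lean, with sum for product: pow_injOn_Iio_orderOf, pow_mod_orderOf) `= 0`. `n ∣ P` (orderOf_dvd_of_pow_eq_one), `P = n * m`; induction on `m`: `range (n * (m + 1))`: Finset.sum_range_add (or `Finset.range_add`-lemma `Finset.sum_range_add`?: `∑ i ∈ range (a + b), f i = ∑ i ∈ range a, f i + ∑ i ∈ range b, f (a + i)` is `Finset.sum_range_add_sum..`: `Finset.sum_range_add`), `x ^ (n * m + i) = x ^ i`.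
(2) `conj_cobZ`: unfold `conj`, `cj`: `conj h g (fun τ => act τ Q - Q) τ = act h g (act (cj g τ) Q - Q) = act τ (act h g Q) - act h g Q` (map_sub, act_cj; see the proof of `mw_up_l` in Pool/Agent/H78/TD/Xb.lean, e1). Then sum over `j` (Finset.sum_sub_distrib, map_sum).
(3) `conj_add`: unfold `conj`, map_add. 
(4) `actS_pow`: `actS hV (γ ^ j) x = conjS hV (g ^ j) x`: actS is conjS of `lf (γ ^ j)`; conjS_congr and lf_apply; `(g ^ j) (algebraMap L Ω x) = algebraMap L Ω ((γ ^ j) x)` by induction on `j`.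
-/

set_option autoImplicit false
open scoped Classical

open WeierstrassCurve IsDedekindDomain NumberField Pool.Agent.H10 Pool.Agent.H11 H78D

namespace H68IW

theorem sum_pow_zero {G A : Type*} [Group G] [Fintype G] [AddCommGroup A] {x : G}
    (hx : ∀ y : G, ∃ j : ℕ, y = x ^ j) {P : ℕ} (hP : x ^ P = 1) (φ : G → A)
    (h0 : ∑ y, φ y = 0) : ∑ j ∈ Finset.range P, φ (x ^ j) = 0 := by
  have h1 : ∑ j ∈ Finset.range (orderOf x), φ (x ^ j) = 0 := by
    rw [← h0]
    refine Finset.sum_nbij (fun j => x ^ j) (fun j _ => Finset.mem_univ _) ?_ ?_ (fun j _ => rfl)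
    · intro a ha b hb hab
      exact pow_injOn_Iio_orderOf (Set.mem_Iio.2 (Finset.mem_range.1 (Finset.mem_coe.1 ha)))
        (Set.mem_Iio.2 (Finset.mem_range.1 (Finset.mem_coe.1 hb))) hab
    · intro g _
      obtain ⟨j, hj⟩ := hx g
      refine ⟨j % orderOf x, ?_, ?_⟩
      · rw [Finset.mem_coe, Finset.mem_range]
        exact Nat.mod_lt _ (orderOf_pos x)
      · show x ^ (j % orderOf x) = g
        rw [pow_mod_orderOf, hj]
  obtain ⟨m, rfl⟩ := orderOf_dvd_of_pow_eq_one hP
  clear hP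
  induction m with
  | zero => simp
  | succ m ih =>
    rw [Nat.mul_succ, Finset.sum_range_add, ih, zero_add, ← h1]
    refine Finset.sum_congr rfl fun j _ => ?_
    rw [pow_add, pow_mul, pow_orderOf_eq_one, one_pow, one_mul]

variable {K L : Type} [Field K] [NumberField K] [Field L] [NumberField L] [Algebra K L]
  [Normal K L] {V : WeierstrassCurve K} {V' : WeierstrassCurve L}
  (hV : V.map (algebraMap K L) = V')

theorem conj_cobZ (g : AlgebraicClosure L ≃ₐ[K] AlgebraicClosure L) (P : ℕ)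
    (Q : (V'.baseChange (AlgebraicClosure L)).toAffine.Point)
    (τ : AlgebraicClosure L ≃ₐ[L] AlgebraicClosure L) :
    ∑ j ∈ Finset.range P, conj (inv_up hV) (g ^ j) (fun τ => act (inv_bc L V') τ Q - Q) τ =
      act (inv_bc L V') τ (∑ j ∈ Finset.range P, act (inv_up hV) (g ^ j) Q) -
        ∑ j ∈ Finset.range P, act (inv_up hV) (g ^ j) Q := by
  have e1 : ∀ h : AlgebraicClosure L ≃ₐ[K] AlgebraicClosure L,
      conj (inv_up hV) h (fun τ => act (inv_bc L V') τ Q - Q) τ =
        act (inv_bc L V') τ (act (inv_up hV) h Q) - act (inv_up hV) h Q := by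
    intro h
    change act (inv_up hV) h (act (inv_bc L V') (cj h τ) Q - Q) = _
    rw [map_sub]
    exact congrArg (fun Z => Z - act (inv_up hV) h Q) (act_cj (inv_up hV) h τ Q)
  rw [Finset.sum_congr rfl (fun j _ => e1 (g ^ j)), Finset.sum_sub_distrib, ← map_sum]

theorem conj_add (g : AlgebraicClosure L ≃ₐ[K] AlgebraicClosure L) (f f' : Coch L V')
    (τ : AlgebraicClosure L ≃ₐ[L] AlgebraicClosure L) :
    conj (inv_up hV) g (fun τ => f τ + f' τ) τ =
      conj (inv_up hV) g f τ + conj (inv_up hV) g f' τ := by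
  change act (inv_up hV) g (f (cj g τ) + f' (cj g τ)) = _
  rw [map_add]
  rfl

theorem actS_pow {g : AlgebraicClosure L ≃ₐ[K] AlgebraicClosure L} {γ : L ≃ₐ[K] L}
    (hγ : ∀ x : L, g (algebraMap L (AlgebraicClosure L) x) =
      algebraMap L (AlgebraicClosure L) (γ x)) (j : ℕ) (x : Sha L V') :
    actS hV (γ ^ j) x = conjS hV (g ^ j) x := by
  unfold actS
  apply conjS_congr
  intro y
  rw [lf_apply]
  induction j generalizing y with
  | zero => rfl
  | succ j ih =>
    rw [pow_succ, pow_succ, AlgEquiv.mul_apply, AlgEquiv.mul_apply, hγ]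
    exact ih (γ y)

end H68IW
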