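import Pool.Agent.H68.IW.A0
import Pool.Agent.H78.TD.Xb

/-!
ROW A1 (about 170 lines; uses only the STATEMENTS of A0 and of H11/ConjSha; MODEL for all manipulations: `l_up` and `mw_up_l` in Pool/Agent/H78/TD/Xb.lean: smul_surjective, pm_descent, mk_eq_of_cob, shaB_le, act_cj).  PROOF.
`Ω` the closure of `L`, `ρ` = act (inv_up hV) on `Ω ≃ₐ[K] Ω`, `d Q := fun τ => act (inv_bc L V') τ Q - Q`.
1. `hc : nrm (tA l (actH hV)) c = 0` (AddMonoidHom.mem_ker, nrm_apply; the value in Sha: coe of the sum, AddSubgroup.val_finsetSum / map_sum of the subtype): `∑ σ, actS hV σ (c : Sha L V') = 0`. By `sum_pow_zero` (φ σ := actS hV σ c, hgen, hγP) and `actS_pow`: `∑ j ∈ range P, conjS hV (g ^ j) c = 0`.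
2. `c = Sha.mk F`, `l • c = 0` (c.2): `l • F = d Q'`, `Q' = l • Y` (smul_surjective). `f₁ := F - d Y` (in ShaZ, `Sha.mk f₁ = c`, `l • f₁ τ = 0`): exactly as in `l_up`.
3. `∑ j, conjS hV (g ^ j) (Sha.mk f₁) = Sha.mk (∑ j, conjZ hV (g ^ j) f₁) = 0` (conjS_mk; mkHom and map_sum as in `res_cor`, Pool/Agent/H11/ConjSha.lean), so (Sha.mk_eq_zero, isCobound_iff) there is `R'` with `∑ j, conj (inv_up hV) (g ^ j) f₁ τ = act τ R' - R'` for all `τ`.
4. `l • (act τ R' - R') = 0` (all `l • conj .. = 0`: unfold conj, map_nsmul), so `l • R'` is fixed by all `τ`: `l • R' = pm (algebraMap L Ω) rfl Z` with `Z : V'.toAffine.Point` (pm_descent).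
5. Claim: `ρ g (l • R') - l • R' = l • pm .. Z'` for some `Z' : V'.toAffine.Point`. Proof: apply conjugation by `g` to 3: `∑ j, conj (g ^ (j + 1)) f₁ τ = act τ (ρ g R') - ρ g R'` (conj_conj, pow_succ'; conj of a coboundary as in `conj_cobZ` with P = 1 or act_cj). Subtract 3 (Finset.sum_range_succ and sum_range_succ'): `conj (g ^ P) f₁ τ - f₁ τ = act τ (ρ g R' - R') - (ρ g R' - R')`. `g ^ P` fixes `L` (hγ iterated, hγP), so it is `u.restrictScalars K` with `u : Ω ≃ₐ[L] Ω`, and conj_inner (as in conjS_inner): `conj (g ^ P) f₁ τ = f₁ τ + (act τ (f₁ u) - f₁ u)`. So `ρ g R' - R' - f₁ u` is fixed by all `τ`, it is `pm .. Z'`; multiply by `l` (`l • f₁ u = 0`).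
6. By induction on `j`: `ρ (g ^ j) (l • R') = l • R' + l • pm .. (Z_j)` for some `Z_j : V'.toAffine.Point` (ρ (g) maps `pm .. X` to `pm .. (gp hV γ X)`: pm_pm, pm_congr with hγ).
7. `u * P = 1 + v * l` (H78D.Xb_uv hl hP : ∃ u v, u * P = 1 + v * l). `Q₀ := -(u • R')`; `d Q₀` has the values `-(u • (act τ R' - R'))`, killed by `l` (4). `f := f₁ + d Q₀ ∈ ShaZ`, `Sha.mk f = c` (mk_eq_of_cob), `l • f τ = 0`.
 `∑ j, conj (g ^ j) f τ = (act τ R' - R') + (act τ X - X)` with `X := ∑ j ∈ range P, ρ (g ^ j) Q₀` (conj_add, conj_cobZ), so it is `act τ R'' - R''` with `R'' := R' + X`.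
 `l • R'' = l • R' - u • ∑ j, ρ (g ^ j) (l • R') = l • R' - (u * P) • (l • R') - l • (u • pm .. (∑ Z_j)) = l • pm .. Z₃` with `Z₃ := -(v • Z) - u • ∑ Z_j` (6, and `l • R' = pm .. Z`). `R := R'' - pm .. Z₃`: `l • R = 0`, and `act τ R - R = act τ R'' - R''` (`act τ (pm .. Z₃) = pm .. Z₃`: hPinv in `mw_up_l`).
-/

set_option autoImplicit false
open scoped Classical

open WeierstrassCurve IsDedekindDomain NumberField Pool.Agent.H10 Pool.Agent.H11 H78D

namespace H68IW

variable {K L : Type} [Field K] [NumberField K] [Field L] [NumberField L] [Algebra K L]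
  [Normal K L] {V : WeierstrassCurve K} {V' : WeierstrassCurve L}

omit [Normal K L] in
theorem A1_rep (hE : V'.IsElliptic) {l : ℕ} (hl : l.Prime) (c : Sha L V') (hc : l • c = 0) :
    ∃ f : ShaZ L V', Sha.mk f = c ∧ ∀ τ, l • f.1 τ = 0 := by
  obtain ⟨F, rfl⟩ := Sha.mk_surjective c
  have hc' : Sha.mk (l • F) = 0 := by rw [Sha.mk_nsmul]; exact hc
  rw [Sha.mk_eq_zero, Pool.Agent.H10.isCobound_iff] at hc'
  obtain ⟨Q', hQ'⟩ := hc'
  have hell : (V'.baseChange (AlgebraicClosure L)).IsElliptic :=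
    inferInstanceAs (V'.map (algebraMap L (AlgebraicClosure L))).IsElliptic
  obtain ⟨Q, hQ⟩ := smul_surjective (V'.baseChange (AlgebraicClosure L)) l hl.ne_zero Q'
  have hcob : (fun τ => act (inv_bc L V') τ Q - Q) ∈ ShaZ L V' := by
    apply shaB_le
    change IsCobound L V' _
    rw [Pool.Agent.H10.isCobound_iff]
    exact ⟨Q, fun σ => rfl⟩
  let G : ShaZ L V' := ⟨fun τ => act (inv_bc L V') τ Q - Q, hcob⟩
  let f : ShaZ L V' := F - G
  have hfτ : ∀ τ, f.1 τ = F.1 τ - (act (inv_bc L V') τ Q - Q) := fun τ => rfl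
  have hfl : ∀ τ, l • f.1 τ = 0 := by
    intro τ
    have h1 : (l • F : ShaZ L V').1 τ = l • F.1 τ := rfl
    have h2 := hQ' τ
    rw [h1] at h2
    rw [hfτ, nsmul_sub, nsmul_sub, h2, ← map_nsmul, hQ, sub_self]
  have hmk : Sha.mk F = Sha.mk f := mk_eq_of_cob Q fun τ => by
    rw [hfτ]
    abel
  exact ⟨f, hmk.symm, hfl⟩

theorem A1_sum (hE : V'.IsElliptic) {hV : V.map (algebraMap K L) = V'} {l P : ℕ}
    {g : AlgebraicClosure L ≃ₐ[K] AlgebraicClosure L} {γ : L ≃ₐ[K] L}
    (hγ : ∀ x : L, g (algebraMap L (AlgebraicClosure L) x) =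
      algebraMap L (AlgebraicClosure L) (γ x))
    (hgen : ∀ y : L ≃ₐ[K] L, ∃ j : ℕ, y = γ ^ j) (hγP : γ ^ P = 1) (c : Tl l (Sha L V'))
    (hc : c ∈ Hn l hV) : ∑ j ∈ Finset.range P, conjS hV (g ^ j) (c : Sha L V') = 0 := by
  have h0 : nrm (tA l (actH hV)) c = 0 := hc
  rw [nrm_apply] at h0
  have h1 : ∑ σ : L ≃ₐ[K] L, actS hV σ (c : Sha L V') = 0 := by
    have h2 := congrArg (Tl l (Sha L V')).subtype h0
    rw [map_sum, map_zero] at h2
    exact h2
  have h3 := sum_pow_zero hgen hγP (fun σ => actS hV σ (c : Sha L V')) h1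
  rw [← h3]
  apply Finset.sum_congr rfl
  intro j _
  exact (actS_pow hV hγ j _).symm

theorem A1_pow {P : ℕ} {g : AlgebraicClosure L ≃ₐ[K] AlgebraicClosure L} {γ : L ≃ₐ[K] L}
    (hγ : ∀ x : L, g (algebraMap L (AlgebraicClosure L) x) =
      algebraMap L (AlgebraicClosure L) (γ x)) (hγP : γ ^ P = 1) :
    ∃ u : AlgebraicClosure L ≃ₐ[L] AlgebraicClosure L, u.restrictScalars K = g ^ P := by
  have h1 : ∀ (j : ℕ) (x : L), (g ^ j) (algebraMap L (AlgebraicClosure L) x) =
      algebraMap L (AlgebraicClosure L) ((γ ^ j) x) := by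
    intro j
    induction j with
    | zero =>
      intro x
      rfl
    | succ j ih =>
      intro x
      rw [pow_succ, pow_succ, AlgEquiv.mul_apply, AlgEquiv.mul_apply, hγ, ih]
  refine ⟨{ (g ^ P : AlgebraicClosure L ≃ₐ[K] AlgebraicClosure L) with
      commutes' := fun y => ?_ }, ?_⟩
  · change (g ^ P) (algebraMap L (AlgebraicClosure L) y) = _
    rw [h1, hγP]
    rfl
  · ext y
    rfl

theorem rep_new (hE : V'.IsElliptic) {hV : V.map (algebraMap K L) = V'} {l P : ℕ} (hl : l.Prime)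
    (hP : ¬ l ∣ P) {g : AlgebraicClosure L ≃ₐ[K] AlgebraicClosure L} {γ : L ≃ₐ[K] L}
    (hγ : ∀ x : L, g (algebraMap L (AlgebraicClosure L) x) =
      algebraMap L (AlgebraicClosure L) (γ x))
    (hgen : ∀ y : L ≃ₐ[K] L, ∃ j : ℕ, y = γ ^ j) (hγP : γ ^ P = 1) (c : Tl l (Sha L V'))
    (hc : c ∈ Hn l hV) :
    ∃ f : ShaZ L V', Sha.mk f = (c : Sha L V') ∧ (∀ τ, l • f.1 τ = 0) ∧
      ∃ R, l • R = 0 ∧ ∀ τ, ∑ j ∈ Finset.range P, conj (inv_up hV) (g ^ j) f.1 τ =
        act (inv_bc L V') τ R - R := by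
  have hL : V'.map (algebraMap L (AlgebraicClosure L)) = V'.baseChange (AlgebraicClosure L) := rfl
  have hEE : (V'.baseChange (AlgebraicClosure L)).IsElliptic := by
    have := hE
    infer_instance
  set iL := inv_bc (Ω := AlgebraicClosure L) L V' with hiL
  set iK := inv_up hV with hiK
  have hcl : l • (c : Sha L V') = 0 := c.2
  have hsum0 := A1_sum hE hγ hgen hγP c hc
  obtain ⟨f₁, hf₁c, hf₁l⟩ := A1_rep hE hl (c : Sha L V') hcl
  -- step 3
  obtain ⟨R', hR'⟩ : ∃ R', ∀ τ, ∑ j ∈ Finset.range P, conj iK (g ^ j) f₁.1 τ =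
      act iL τ R' - R' := by
    rw [← hf₁c] at hsum0
    have h1 : ∀ s : Finset ℕ, ∑ j ∈ s, conjS hV (g ^ j) (Sha.mk f₁) =
        Sha.mk (∑ j ∈ s, conjZ hV (g ^ j) f₁) := by
      intro s
      exact (map_sum (mkHom L V') _ s).symm
    rw [h1, Sha.mk_eq_zero, Pool.Agent.H10.isCobound_iff] at hsum0
    obtain ⟨R', hR'⟩ := hsum0
    refine ⟨R', fun τ => ?_⟩
    rw [← hR' τ, AddSubgroup.val_finsetSum, Finset.sum_apply]
    rfl
  -- step 4
  have hcl0 : ∀ (s : AlgebraicClosure L ≃ₐ[K] AlgebraicClosure L) τ,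
      l • conj iK s f₁.1 τ = 0 := by
    intro s τ
    unfold conj
    rw [← map_nsmul, hf₁l, map_zero]
  have hR'l : ∀ τ, l • (act iL τ R' - R') = 0 := by
    intro τ
    rw [← hR' τ, Finset.smul_sum]
    exact Finset.sum_eq_zero fun j _ => hcl0 _ _
  have hPinv : ∀ (X : V'.toAffine.Point) τ,
      act iL τ (pm (algebraMap L (AlgebraicClosure L)) hL X) =
      pm (algebraMap L (AlgebraicClosure L)) hL X := by
    intro X τ
    unfold Pool.Agent.H10.act
    rw [pm_pm]
    exact pm_congr _ _ (fun x => τ.commutes x) _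
  obtain ⟨Z, hZ⟩ := pm_descent (V := V') hL iL (l • R') (by
    intro τ
    have h1 := hR'l τ
    rw [nsmul_sub, sub_eq_zero] at h1
    rw [map_nsmul, h1])
  -- step 5
  obtain ⟨u, hu⟩ := A1_pow hγ hγP
  obtain ⟨Z', hZ'⟩ : ∃ Z' : V'.toAffine.Point, act iK g (l • R') =
      l • R' + l • pm (algebraMap L (AlgebraicClosure L)) hL Z' := by
    have hfix : ∀ τ, act iL τ (act iK g R' - R' - f₁.1 u) = act iK g R' - R' - f₁.1 u := by
      intro τ
      have e1 : act iK g (act iL (cj g τ) R' - R') = act iL τ (act iK g R') - act iK g R' := by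
        rw [map_sub]
        exact congrArg (fun Z => Z - act iK g R') (act_cj iK g τ R')
      have e2 : act iK g (∑ j ∈ Finset.range P, conj iK (g ^ j) f₁.1 (cj g τ)) =
          ∑ j ∈ Finset.range P, conj iK (g ^ (j + 1)) f₁.1 τ := by
        rw [map_sum]
        apply Finset.sum_congr rfl
        intro j _
        rw [pow_succ', ← conj_conj]
        rfl
      have e3 : ∑ j ∈ Finset.range P, conj iK (g ^ (j + 1)) f₁.1 τ + conj iK (g ^ 0) f₁.1 τ =
          ∑ j ∈ Finset.range P, conj iK (g ^ j) f₁.1 τ + conj iK (g ^ P) f₁.1 τ := by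
        rw [← Finset.sum_range_succ, Finset.sum_range_succ']
      have e4 : conj iK (g ^ 0) f₁.1 τ = f₁.1 τ := by
        rw [pow_zero]
        unfold conj
        rw [Pool.Agent.H10.act_one]
        rfl
      have e5 : conj iK (g ^ P) f₁.1 τ = f₁.1 τ + (act iL τ (f₁.1 u) - f₁.1 u) := by
        rw [← hu]
        have hf := f₁.2.1
        rw [Pool.Agent.H10.isCocycle_iff] at hf
        exact conj_inner (h := iK) hf u τ
      rw [hR', e1] at e2
      rw [← e2, hR', e4, e5] at e3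
      rw [map_sub, map_sub]
      have e6 : act iL τ (act iK g R') = act iL τ R' - R' + (act iL τ (f₁.1 u) - f₁.1 u) +
          act iK g R' := by
        have e7 : act iL τ (act iK g R') = (act iL τ (act iK g R') - act iK g R' + f₁.1 τ) -
          f₁.1 τ + act iK g R' := by abel
        rw [e7, e3]
        abel
      rw [e6]
      abel
    obtain ⟨Z', hZ'⟩ := pm_descent (V := V') hL iL _ hfix
    refine ⟨Z', ?_⟩
    rw [hZ', smul_sub, smul_sub, hf₁l, map_nsmul]
    abel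
  -- step 6
  have hstep : ∀ j : ℕ, ∃ Zj : V'.toAffine.Point, act iK (g ^ j) (l • R') =
      l • R' + l • pm (algebraMap L (AlgebraicClosure L)) hL Zj := by
    intro j
    induction j with
    | zero =>
      refine ⟨0, ?_⟩
      rw [pow_zero, Pool.Agent.H10.act_one, map_zero, smul_zero, add_zero]
    | succ j ih =>
      obtain ⟨Zj, hZj⟩ := ih
      obtain ⟨X', hX'⟩ := pm_descent (V := V') hL iL
        (act iK g (pm (algebraMap L (AlgebraicClosure L)) hL Zj)) (by
          intro τ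
          have h1 := act_cj iK g τ (pm (algebraMap L (AlgebraicClosure L)) hL Zj)
          have h2 : act iL (cj g τ) (pm (algebraMap L (AlgebraicClosure L)) hL Zj) =
              pm (algebraMap L (AlgebraicClosure L)) hL Zj := hPinv _ _
          have h3 : act iK g (act iL (cj g τ) (pm (algebraMap L (AlgebraicClosure L)) hL Zj)) =
            act iL τ (act iK g (pm (algebraMap L (AlgebraicClosure L)) hL Zj)) := h1
          rw [← h3, h2])
      refine ⟨Z' + X', ?_⟩
      rw [pow_succ', Pool.Agent.H10.act_mul, hZj, map_add, hZ', map_nsmul, ← hX', map_add,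
        smul_add]
      abel
  choose Zf hZf using hstep
  -- step 7
  obtain ⟨a, b, hab⟩ := Xb_uv hl hP
  obtain ⟨Q₀, hQ₀⟩ : ∃ Q₀, Q₀ = -(a • R') := ⟨_, rfl⟩
  have hcob : (fun τ => act iL τ Q₀ - Q₀) ∈ ShaZ L V' := by
    apply shaB_le
    change IsCobound L V' _
    rw [Pool.Agent.H10.isCobound_iff]
    exact ⟨Q₀, fun σ => rfl⟩
  let G : ShaZ L V' := ⟨fun τ => act iL τ Q₀ - Q₀, hcob⟩
  let f : ShaZ L V' := f₁ + G
  have hfτ : ∀ τ, f.1 τ = f₁.1 τ + (act iL τ Q₀ - Q₀) := fun τ => rfl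
  have hmk : Sha.mk f = Sha.mk f₁ := mk_eq_of_cob Q₀ hfτ
  refine ⟨f, hmk.trans hf₁c, ?_, ?_⟩
  · intro τ
    have h1 : act iL τ Q₀ - Q₀ = -(a • (act iL τ R' - R')) := by
      rw [hQ₀, map_neg, map_nsmul, smul_sub]
      abel
    have h2 : l • (act iL τ Q₀ - Q₀) = 0 := by
      rw [h1, smul_neg, smul_comm, hR'l, smul_zero, neg_zero]
    have h3 : l • f.1 τ = l • f₁.1 τ + l • (act iL τ Q₀ - Q₀) := by
      rw [hfτ]
      exact nsmul_add _ _ _
    rw [h3, h2, hf₁l, add_zero]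
  · obtain ⟨X, hX⟩ : ∃ X, X = ∑ j ∈ Finset.range P, act iK (g ^ j) Q₀ := ⟨_, rfl⟩
    have hsum : ∀ τ, ∑ j ∈ Finset.range P, conj iK (g ^ j) f.1 τ =
        act iL τ (R' + X) - (R' + X) := by
      intro τ
      have h1 : ∀ j ∈ Finset.range P, conj iK (g ^ j) f.1 τ =
          conj iK (g ^ j) f₁.1 τ + conj iK (g ^ j) (fun τ => act iL τ Q₀ - Q₀) τ := fun j _ =>
        conj_add hV (g ^ j) f₁.1 (fun τ => act iL τ Q₀ - Q₀) τ
      rw [Finset.sum_congr rfl h1, Finset.sum_add_distrib, hR']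
      have h2 := conj_cobZ hV g P Q₀ τ
      rw [h2, ← hX, map_add]
      abel
    have hlR : l • (R' + X) = l • pm (algebraMap L (AlgebraicClosure L)) hL
        (-(b • Z) - a • ∑ j ∈ Finset.range P, Zf j) := by
      have h1 : l • X = -(a • ∑ j ∈ Finset.range P, (l • R' +
          l • pm (algebraMap L (AlgebraicClosure L)) hL (Zf j))) := by
        rw [hX, Finset.smul_sum, Finset.smul_sum, ← Finset.sum_neg_distrib]
        apply Finset.sum_congr rfl
        intro j _
        rw [← hZf j, hQ₀, map_neg, map_nsmul, map_nsmul, smul_neg, smul_comm]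
      have h2 : ∑ j ∈ Finset.range P, (l • R' +
          l • pm (algebraMap L (AlgebraicClosure L)) hL (Zf j)) =
          P • (l • R') + l • pm (algebraMap L (AlgebraicClosure L)) hL
            (∑ j ∈ Finset.range P, Zf j) := by
        rw [Finset.sum_add_distrib, Finset.sum_const, Finset.card_range, map_sum,
          Finset.smul_sum]
      have h3 : a • (P • (l • R')) = l • R' + l • (b • (l • R')) := by
        rw [smul_smul, hab, add_smul, one_smul, mul_comm b l, mul_smul]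
      rw [smul_add, h1, h2, smul_add, h3, ← hZ, map_sub, map_neg, map_nsmul, map_nsmul,
        smul_sub, smul_neg, smul_comm a l]
      abel
    refine ⟨R' + X - pm (algebraMap L (AlgebraicClosure L)) hL
        (-(b • Z) - a • ∑ j ∈ Finset.range P, Zf j), ?_, ?_⟩
    · rw [smul_sub, hlR, sub_self]
    · intro τ
      rw [hsum, map_sub, hPinv]
      abel

end H68IW
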