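import Pool.Agent.H68.IW.A0

/-!
ROW A2 (about 100 lines; uses only the STATEMENTS of A0; MODEL: `mw_up_l` in Pool/Agent/H78/TD/Xb.lean).  PROOF.
`m = QuotientAddGroup.mk X` (mk_surjective). `Q` with `l • Q = pm (algebraMap L Ω) rfl X` (smul_surjective, as in `mw_up_l`). The values `act τ Q - Q` are killed by `l` (`act τ (pm .. X) = pm .. X`).
`hm`: `∑ σ, qA l (pA hV) σ m = 0` (nrm_apply), `qA l (pA hV) σ (mk X) = mk (gp hV σ X)` (rfl). `sum_pow_zero` (φ σ := (mk (gp hV σ X) : Ql l _)): `∑ j ∈ range P, mk (gp hV (γ ^ j) X) = 0`, so `∑ j ∈ range P, gp hV (γ ^ j) X` is in the range of multiplication by `l` (QuotientAddGroup.eq_zero_iff, map_sum of QuotientAddGroup.mk' ): `= l • Z`.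
`conj_cobZ`: the sum of the conjugates is the coboundary of `R' := ∑ j, act (inv_up hV) (g ^ j) Q`. `l • R' = ∑ j, act (g ^ j) (pm .. X) = ∑ j, pm .. (gp hV (γ ^ j) X) = pm .. (l • Z) = l • pm .. Z` (`act (g ^ j) (pm .. X) = pm .. (gp hV (γ ^ j) X)`: pm_pm, pm_congr and `(g ^ j) (algebraMap L Ω x) = algebraMap L Ω ((γ ^ j) x)`, induction). `R := R' - pm .. Z`: `l • R = 0`, same coboundary (`act τ (pm .. Z) = pm .. Z`).
-/

set_option autoImplicit false
open scoped Classical

open WeierstrassCurve IsDedekindDomain NumberField Pool.Agent.H10 Pool.Agent.H11 H78D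

namespace H68IW

variable {K L : Type} [Field K] [NumberField K] [Field L] [NumberField L] [Algebra K L]
  [Normal K L] {V : WeierstrassCurve K} {V' : WeierstrassCurve L}

theorem A2_pow {g : AlgebraicClosure L ≃ₐ[K] AlgebraicClosure L} {γ : L ≃ₐ[K] L}
    (hγ : ∀ x : L, g (algebraMap L (AlgebraicClosure L) x) =
      algebraMap L (AlgebraicClosure L) (γ x)) (j : ℕ) (x : L) :
    (g ^ j) (algebraMap L (AlgebraicClosure L) x) =
      algebraMap L (AlgebraicClosure L) ((γ ^ j) x) := by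
  induction j generalizing x with
  | zero => rfl
  | succ j ih => rw [pow_succ, pow_succ, AlgEquiv.mul_apply, AlgEquiv.mul_apply, hγ, ih]

theorem kap_new (hE : V'.IsElliptic) {hV : V.map (algebraMap K L) = V'} {l P : ℕ} (hl : l.Prime)
    {g : AlgebraicClosure L ≃ₐ[K] AlgebraicClosure L} {γ : L ≃ₐ[K] L}
    (hγ : ∀ x : L, g (algebraMap L (AlgebraicClosure L) x) =
      algebraMap L (AlgebraicClosure L) (γ x))
    (hgen : ∀ y : L ≃ₐ[K] L, ∃ j : ℕ, y = γ ^ j) (hγP : γ ^ P = 1)
    (m : Ql l V'.toAffine.Point) (hm : m ∈ Mn l hV) :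
    ∃ (X : V'.toAffine.Point) (Q : (V'.baseChange (AlgebraicClosure L)).toAffine.Point),
      (QuotientAddGroup.mk X : Ql l V'.toAffine.Point) = m ∧
      l • Q = pm (algebraMap L (AlgebraicClosure L)) rfl X ∧
      (∀ τ, l • (act (inv_bc L V') τ Q - Q) = 0) ∧
      ∃ R, l • R = 0 ∧ ∀ τ, ∑ j ∈ Finset.range P,
        conj (inv_up hV) (g ^ j) (fun τ => act (inv_bc L V') τ Q - Q) τ =
          act (inv_bc L V') τ R - R := by
  have hL : V'.map (algebraMap L (AlgebraicClosure L)) = V'.baseChange (AlgebraicClosure L) := rfl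
  have hEE : (V'.baseChange (AlgebraicClosure L)).IsElliptic := by
    have := hE
    infer_instance
  set iL := inv_bc (Ω := AlgebraicClosure L) L V' with hiL
  set iK := inv_up hV with hiK
  obtain ⟨X, rfl⟩ := QuotientAddGroup.mk'_surjective _ m
  obtain ⟨Q, hQ⟩ := smul_surjective (V'.baseChange (AlgebraicClosure L)) l hl.ne_zero
    (pm (algebraMap L (AlgebraicClosure L)) hL X)
  have hPinv : ∀ (X : V'.toAffine.Point) τ,
      act iL τ (pm (algebraMap L (AlgebraicClosure L)) hL X) =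
      pm (algebraMap L (AlgebraicClosure L)) hL X := by
    intro X τ
    unfold Pool.Agent.H10.act
    rw [pm_pm]
    exact pm_congr _ _ (fun x => τ.commutes x) _
  refine ⟨X, Q, rfl, hQ, ?_, ?_⟩
  · intro τ
    rw [nsmul_sub, ← map_nsmul, hQ, hPinv, sub_self]
  · have h0 : nrm (qA l (pA hV)) (QuotientAddGroup.mk' _ X) = 0 := hm
    rw [nrm_apply] at h0
    have h1 := sum_pow_zero hgen hγP
      (fun σ => qA l (pA hV) σ (QuotientAddGroup.mk' _ X : Ql l V'.toAffine.Point)) h0
    have h2 : (QuotientAddGroup.mk' (nsmulAddMonoidHom (α := V'.toAffine.Point) l).range)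
        (∑ j ∈ Finset.range P, H86G.gp hV (γ ^ j) X) = 0 := by
      rw [map_sum]
      exact h1
    rw [QuotientAddGroup.mk'_apply, QuotientAddGroup.eq_zero_iff] at h2
    obtain ⟨Z, hZ⟩ := h2
    have hZ' : l • Z = ∑ j ∈ Finset.range P, H86G.gp hV (γ ^ j) X := hZ
    obtain ⟨R', hR'⟩ : ∃ R', R' = ∑ j ∈ Finset.range P, act iK (g ^ j) Q := ⟨_, rfl⟩
    have hlR : l • R' = l • pm (algebraMap L (AlgebraicClosure L)) hL Z := by
      rw [hR', Finset.smul_sum, ← map_nsmul, hZ', map_sum]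
      apply Finset.sum_congr rfl
      intro j _
      rw [← map_nsmul, hQ]
      unfold Pool.Agent.H10.act
      rw [pm_pm]
      refine (pm_congr _ _ (fun x => ?_) X).trans (pm_pm _ (H86G.map_gal hV (γ ^ j)) _ hL X).symm
      exact A2_pow hγ j x
    refine ⟨R' - pm (algebraMap L (AlgebraicClosure L)) hL Z, ?_, ?_⟩
    · rw [nsmul_sub, hlR, sub_self]
    · intro τ
      have h3 := conj_cobZ hV g P Q τ
      rw [h3, ← hR', map_sub, hPinv]
      abel

end H68IW
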