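import Pool.Agent.H68.IW.A1
import Pool.Agent.H68.IW.A2
import Pool.Agent.H86.IW.Ba

/-!
MP_78d38b IW: the order of the new part of the Selmer group (assembly, helper68).
-/

set_option autoImplicit false
open scoped Classical

open WeierstrassCurve IsDedekindDomain NumberField Pool.Agent.H10 Pool.Agent.H11 H78D

namespace H68IW

variable {K L : Type} [Field K] [NumberField K] [Field L] [NumberField L] [Algebra K L]
  [Normal K L] {V : WeierstrassCurve K} {V' : WeierstrassCurve L}

theorem new_le (hE : V'.Δ ≠ 0) {hV : V.map (algebraMap K L) = V'} {l P U : ℕ} (hl : l.Prime)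
    (hP : ¬ l ∣ P) {g : AlgebraicClosure L ≃ₐ[K] AlgebraicClosure L} {γ : L ≃ₐ[K] L}
    (hγ : ∀ x : L, g (algebraMap L (AlgebraicClosure L) x) =
      algebraMap L (AlgebraicClosure L) (γ x))
    (hgen : ∀ y : L ≃ₐ[K] L, ∃ j : ℕ, y = γ ^ j) (hγP : γ ^ P = 1)
    (H : FamL l hV g P U) : Nat.card (Mn l hV) * Nat.card (Hn l hV) ≤ U := by
  have hell : V'.IsElliptic := ⟨isUnit_iff_ne_zero.2 hE⟩
  have hfq : Finite (Ql l V'.toAffine.Point) := H86I.finite_q hE hl.ne_zero
  have hft : Finite (Tl l (Sha L V')) := H86I.finite_t hE hl.ne_zero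
  have : Fintype (Mn l hV) := Fintype.ofFinite _
  have : Fintype (Hn l hV) := Fintype.ofFinite _
  by_contra hcon
  push Not at hcon
  rw [← Nat.card_prod, Nat.card_eq_fintype_card] at hcon
  have h1 := fun c : Hn l hV => rep_new hell hl hP hγ hgen hγP c.1 c.2
  have h2 := fun m : Mn l hV => kap_new hell hl hγ hgen hγP m.1 m.2
  choose f hfc hfl Rf hRf hRf' using h1
  choose X Q hX hQX hQl RQ hRQ hRQ' using h2
  have hB : ∀ m, (fun τ => act (inv_bc L V') τ (Q m) - Q m) ∈ ShaZ L V' := by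
    intro m
    apply shaB_le
    change IsCobound L V' _
    rw [Pool.Agent.H10.isCobound_iff]
    exact ⟨Q m, fun σ => rfl⟩
  obtain ⟨F, hF⟩ : ∃ F : Mn l hV × Hn l hV → ShaZ L V', ∀ i,
      F i = f i.2 + ⟨fun τ => act (inv_bc L V') τ (Q i.1) - Q i.1, hB i.1⟩ := ⟨_, fun i => rfl⟩
  have hFτ : ∀ i τ, (F i).1 τ = (f i.2).1 τ + (act (inv_bc L V') τ (Q i.1) - Q i.1) := by
    intro i τ
    rw [hF]
    rfl
  have hFmk : ∀ i, Sha.mk (F i) = ((i.2 : Tl l (Sha L V')) : Sha L V') := by
    intro i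
    rw [← hfc i.2]
    exact mk_eq_of_cob (Q i.1) (fun τ => hFτ i τ)
  obtain ⟨i, j, hij, S, hS, hS'⟩ := H (Mn l hV × Hn l hV) hcon (fun i => (F i).1)
    (fun i => (F i).2.1) (fun i => (F i).2.2)
    (fun i τ => by
      show l • (F i).1 τ = 0
      rw [hFτ, nsmul_add, hfl, hQl, add_zero])
    (fun i => by
      refine ⟨Rf i.2 + RQ i.1, ?_, fun τ => ?_⟩
      · rw [nsmul_add, hRf, hRQ, add_zero]
      · have e1 : ∀ n : ℕ, conj (inv_up hV) (g ^ n) (F i).1 τ = conj (inv_up hV) (g ^ n) (f i.2).1 τ +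
            conj (inv_up hV) (g ^ n) (fun τ => act (inv_bc L V') τ (Q i.1) - Q i.1) τ := by
          intro n
          exact (congrArg (fun ff => conj (inv_up hV) (g ^ n) ff τ) (funext (hFτ i))).trans
            (conj_add hV _ _ _ _)
        rw [Finset.sum_congr rfl (fun n _ => e1 n), Finset.sum_add_distrib, hRf', hRQ', map_add]
        abel)
  apply hij
  have e2 : i.2 = j.2 := by
    apply Subtype.ext
    apply Subtype.ext
    rw [← hFmk i, ← hFmk j]
    exact mk_eq_of_cob S (fun τ => by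
      have h3 := hS' τ
      have h4 : (F i).1 τ = (F j).1 τ + ((F i).1 τ - (F j).1 τ) := by abel
      rw [h4]
      congr 1)
  have e3 : i.1 = j.1 := by
    apply Subtype.ext
    rw [← hX i.1, ← hX j.1]
    -- `Q i - Q j - S` is rational
    have hL : V'.map (algebraMap L (AlgebraicClosure L)) =
      V'.baseChange (AlgebraicClosure L) := rfl
    obtain ⟨Z, hZ⟩ := pm_descent (V := V') hL (inv_bc (Ω := AlgebraicClosure L) L V')
      (Q i.1 - Q j.1 - S) (by
      intro τ
      have h3 : (F i).1 τ - (F j).1 τ = act (inv_bc L V') τ S - S := hS' τ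
      rw [hFτ, hFτ, e2] at h3
      rw [map_sub, map_sub]
      have h4 : act (inv_bc L V') τ (Q i.1) - act (inv_bc L V') τ (Q j.1) =
          ((f j.2).1 τ + (act (inv_bc L V') τ (Q i.1) - Q i.1) -
            ((f j.2).1 τ + (act (inv_bc L V') τ (Q j.1) - Q j.1))) + Q i.1 - Q j.1 := by abel
      rw [h4, h3]
      abel)
    have h5 : l • (Q i.1 - Q j.1 - S) = pm (algebraMap L (AlgebraicClosure L)) hL (X i.1 - X j.1) := by
      have a1 : l • Q i.1 = pm (algebraMap L (AlgebraicClosure L)) hL (X i.1) := hQX i.1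
      have a2 : l • Q j.1 = pm (algebraMap L (AlgebraicClosure L)) hL (X j.1) := hQX j.1
      rw [map_sub, ← a1, ← a2, nsmul_sub, nsmul_sub, hS, sub_zero]
    have h6 : X i.1 - X j.1 = l • Z := by
      apply pm_injective (algebraMap L (AlgebraicClosure L)) hL
      rw [← h5, map_nsmul, hZ]
    rw [QuotientAddGroup.eq]
    refine ⟨-Z, ?_⟩
    show l • (-Z) = -X i.1 + X j.1
    rw [smul_neg, ← h6]
    abel
  exact Prod.ext e3 e2

end H68IW
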