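import Pool.Agent.H68.IW.Df

/-!
ROW Aa (pure algebra, about 130 lines; uses only `nrm`, `nrm_apply`, `Ql`, `Tl`, `qA`, `tA` of Df).  PROOF.
`n := Fintype.card G`, `u : ℕ` with `u * n = 1 + v * l` (Nat.exists_mul_mod_eq_one_of_coprime, see `H78D.Xb_uv` in Pool/Agent/H78/TD/Xb.lean), so `u • n • a = a` if `l • a = 0`.
(1) `card_split`: the map `A → A₀ × (nrm ρ).ker`, `a ↦ (t a, a - u • r (t a))` is well defined: `nrm ρ (r (t a)) = nrm ρ (nrm ρ a) = n • nrm ρ a` (`∑ g, ρ g (∑ h, ρ h a) = ∑ g, ∑ h, ρ (g h) a = n • ∑ h, ρ h a`, Fintype.sum_equiv (Equiv.mulLeft g)), so `nrm ρ (a - u • r (t a)) = nrm ρ a - u • n • nrm ρ a = 0`.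
 Injective: `a = (a - u • r (t a)) + u • r (t a)`. Surjective: for `(a₀, b)`, `nrm ρ b = 0`: take `a := b + u • r a₀`: `t a = t b + u • n • a₀ = t b + a₀` and `t b`: `r (t b) = nrm ρ b = 0`, so `n • t b = t (r (t b)) = 0`, `t b = u • n • t b = 0`. And `a - u • r (t a) = b`. Nat.card_congr, Nat.card_prod.
(2) `split_q`: apply (1) to `Ql l A`, `Ql l A₀`, `qA l ρ` and the maps induced by `r` and `t` on the quotients (QuotientAddGroup.map; `r (l • a) = l • r a`): `l • m = 0` in `Ql l A`; the two identities on representatives (QuotientAddGroup.mk'_surjective); `map_sum`, `map_nsmul`.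
(3) `split_t`: apply (1) to `Tl l A`, `Tl l A₀`, `tA l ρ` and the restrictions of `r`, `t` (AddMonoidHom.codRestrict / addSubgroupMap / restrict); Subtype.ext.
(4) `card_pow`: a finite abelian group killed by the prime `l`: `AddCommGroup.zmodModule` (Module (ZMod l) A), `Module.card_eq_pow_finrank` (Nat.card form: `Module.natCard_eq_pow_finrank`) with `Nat.card (ZMod l) = l`.
-/

set_option autoImplicit false
open scoped Classical

namespace H68IW

private lemma Aa_uv {l n : ℕ} (hl : l.Prime) (hn : ¬ l ∣ n) : ∃ u v : ℕ, u * n = 1 + v * l := by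
  obtain ⟨u, -, hu⟩ := Nat.exists_mul_mod_eq_one_of_coprime
    (((Nat.Prime.coprime_iff_not_dvd hl).mpr hn).symm) hl.one_lt
  refine ⟨u, n * u / l, ?_⟩
  have h := Nat.div_add_mod (n * u) l
  rw [hu] at h
  rw [mul_comm u n, mul_comm (n * u / l) l]
  omega

theorem card_split {A A₀ G : Type} [AddCommGroup A] [AddCommGroup A₀] [Group G] [Fintype G]
    {l : ℕ} (hl : l.Prime) (hn : ¬ l ∣ Fintype.card G) (ρ : G →* AddMonoid.End A) (r : A₀ →+ A)
    (t : A →+ A₀) (hA : ∀ a : A, l • a = 0) (hA₀ : ∀ a : A₀, l • a = 0)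
    (htr : ∀ a, t (r a) = Fintype.card G • a) (hrt : ∀ a, r (t a) = ∑ g, ρ g a) :
    Nat.card A = Nat.card A₀ * Nat.card (nrm ρ).ker := by
  obtain ⟨u, v, huv⟩ := Aa_uv hl hn
  have hA1 : ∀ a : A, u • Fintype.card G • a = a := by
    intro a
    rw [smul_smul, huv, add_smul, one_smul, mul_smul, hA, smul_zero, add_zero]
  have hA2 : ∀ a : A₀, u • Fintype.card G • a = a := by
    intro a
    rw [smul_smul, huv, add_smul, one_smul, mul_smul, hA₀, smul_zero, add_zero]
  have hrt' : ∀ a, r (t a) = nrm ρ a := fun a => (hrt a).trans (nrm_apply ρ a).symm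
  have hnn : ∀ a, nrm ρ (nrm ρ a) = Fintype.card G • nrm ρ a := by
    intro a
    rw [← hrt' (nrm ρ a), ← hrt' a, htr, map_nsmul]
  have hker : ∀ a, a - u • r (t a) ∈ (nrm ρ).ker := by
    intro a
    rw [AddMonoidHom.mem_ker, map_sub, map_nsmul, hrt', hnn, hA1, sub_self]
  have e : A ≃ A₀ × (nrm ρ).ker :=
    { toFun := fun a => (t a, ⟨a - u • r (t a), hker a⟩)
      invFun := fun p => (p.2 : A) + u • r p.1
      left_inv := fun a => sub_add_cancel _ _
      right_inv := by
        rintro ⟨a₀, b, hb⟩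
        have h1 : t b = 0 := by
          rw [← hA2 (t b), ← htr, hrt', (AddMonoidHom.mem_ker).1 hb, map_zero, smul_zero]
        have h2 : t (b + u • r a₀) = a₀ := by
          rw [map_add, map_nsmul, htr, hA2, h1, zero_add]
        simp only [h2]
        refine Prod.ext rfl (Subtype.ext ?_)
        exact add_sub_cancel_right _ _ }
  rw [Nat.card_congr e, Nat.card_prod]

theorem split_q {A A₀ G : Type} [AddCommGroup A] [AddCommGroup A₀] [Group G] [Fintype G]
    {l : ℕ} (hl : l.Prime) (hn : ¬ l ∣ Fintype.card G) (ρ : G →* AddMonoid.End A) (r : A₀ →+ A)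
    (t : A →+ A₀) (htr : ∀ a, t (r a) = Fintype.card G • a) (hrt : ∀ a, r (t a) = ∑ g, ρ g a) :
    Nat.card (Ql l A) = Nat.card (Ql l A₀) * Nat.card (nrm (qA l ρ)).ker := by
  have hkill : ∀ (B : Type) [AddCommGroup B] (b : Ql l B), l • b = 0 := by
    intro B _ b
    obtain ⟨a, rfl⟩ := QuotientAddGroup.mk'_surjective _ b
    rw [← map_nsmul]
    exact (QuotientAddGroup.eq_zero_iff _).2 ⟨a, rfl⟩
  refine card_split hl hn (qA l ρ)
    (QuotientAddGroup.map _ _ r (by
      rintro _ ⟨a, rfl⟩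
      exact ⟨r a, (map_nsmul r l a).symm⟩))
    (QuotientAddGroup.map _ _ t (by
      rintro _ ⟨a, rfl⟩
      exact ⟨t a, (map_nsmul t l a).symm⟩)) (hkill A) (hkill A₀) ?_ ?_
  · intro x
    obtain ⟨a, rfl⟩ := QuotientAddGroup.mk'_surjective _ x
    change QuotientAddGroup.mk' _ (t (r a)) = _
    rw [htr, map_nsmul]
  · intro x
    obtain ⟨a, rfl⟩ := QuotientAddGroup.mk'_surjective _ x
    change QuotientAddGroup.mk' _ (r (t a)) = _
    rw [hrt, map_sum]
    rfl

theorem split_t {A A₀ G : Type} [AddCommGroup A] [AddCommGroup A₀] [Group G] [Fintype G]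
    {l : ℕ} (hl : l.Prime) (hn : ¬ l ∣ Fintype.card G) (ρ : G →* AddMonoid.End A) (r : A₀ →+ A)
    (t : A →+ A₀) (htr : ∀ a, t (r a) = Fintype.card G • a) (hrt : ∀ a, r (t a) = ∑ g, ρ g a) :
    Nat.card (Tl l A) = Nat.card (Tl l A₀) * Nat.card (nrm (tA l ρ)).ker := by
  have hkill : ∀ (B : Type) [AddCommGroup B] (b : Tl l B), l • b = 0 := by
    intro B _ b
    exact Subtype.ext b.2
  refine card_split hl hn (tA l ρ)
    ((r.comp (Tl l A₀).subtype).codRestrict (Tl l A) (fun a => by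
      have h : l • (a : A₀) = 0 := a.2
      change l • r (a : A₀) = 0
      rw [← map_nsmul, h, map_zero]))
    ((t.comp (Tl l A).subtype).codRestrict (Tl l A₀) (fun a => by
      have h : l • (a : A) = 0 := a.2
      change l • t (a : A) = 0
      rw [← map_nsmul, h, map_zero])) (hkill A) (hkill A₀) ?_ ?_
  · intro a
    apply Subtype.ext
    change t (r (a : A₀)) = Fintype.card G • (a : A₀)
    exact htr _
  · intro a
    apply Subtype.ext
    rw [AddSubgroup.val_finsetSum]
    change r (t (a : A)) = _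
    rw [hrt]
    rfl

theorem card_pow {A : Type} [AddCommGroup A] [Finite A] {l : ℕ} (hl : l.Prime)
    (hA : ∀ a : A, l • a = 0) : ∃ d : ℕ, Nat.card A = l ^ d := by
  have hf : Fact l.Prime := ⟨hl⟩
  let m : Module (ZMod l) A := AddCommGroup.zmodModule hA
  have hfin : Module.Finite (ZMod l) A := Module.Finite.of_finite
  refine ⟨Module.finrank (ZMod l) A, ?_⟩
  have h : Nat.card A = Nat.card (ZMod l) ^ Module.finrank (ZMod l) A :=
    @Module.natCard_eq_pow_finrank (ZMod l) A _ _ m hfin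
  rw [h, Nat.card_zmod]

end H68IW
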