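import Pool.Agent.H68.IW.Df

/-!
ROW Ab (pure algebra, about 120 lines; uses only `nrm`, `nrm_apply`, `Ql`, `Tl`, `qA`, `tA` of Df).  PROOF.
(1) `free_card`. `B := (nrm (ρ.comp ι)).ker`, finite. `G` is commutative (cyclic), so `ρ g` maps `B` to itself: `∑ h, ρ (ι h) (ρ g b) = ρ g (∑ h, ρ (ι h) b) = 0`. `G` acts on `X := {b : B // b ≠ 0}` (MulAction). Every stabiliser is trivial: let `S` be the stabiliser of `b ≠ 0`, `S ≠ ⊥`. Then `p ∣ Nat.card S` (its order divides `p ^ j` and is not one),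
 so `S` contains an element of order `p` (Cauchy: exists_prime_orderOf_dvd_card'), and in the cyclic group `G` of order `p ^ j` the subgroup of order `p` is unique: it is `ι.range` (which has order `p`, `ι` injective). [Uniqueness: `IsCyclic.card_pow_eq_one_le`: at most `p` elements satisfy `x ^ p = 1`; `ι.range` consists of `p` such elements, so it contains all of them; the
 element of order `p` of `S` is in `ι.range` and generates it.] So all `ι h` fix `b`: `0 = ∑ h, ρ (ι h) b = p • b`, and `l • b = 0`, `p`, `l` different primes: `b = 0`.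
 So all orbits have `p ^ j` elements and `p ^ j ∣ Nat.card X = Nat.card B - 1` (MulAction: `Nat.card X = ∑ over the orbits`, e.g. `MulAction.selfEquivSigmaOrbitsQuotientStabilizer` / `MulAction.card_eq_sum_card_group_div_card_stabilizer`; or `MulAction.IsPretransitive`-free: the equivalence `X ≃ (Quotient (orbitRel G X)) × G` for free actions).
(2) `free_q`, `free_t`: (1) for `qA l ρ`, `tA l ρ` (`l • _ = 0` there) and `(qA l ρ).comp ι = qA l (ρ.comp ι)` (ext on representatives, rfl).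
(3) `pin`: arithmetic. Let `d ≤ d'` (the other case is symmetric). `l ^ (d' - d) ≤ C` by h4 (cancel `l ^ d > 0`). `p ^ j` divides `l ^ d' - 1` and `l ^ d - 1`, so `l ^ d' - l ^ d = l ^ d * (l ^ (d' - d) - 1)`; `p ^ j` and `l ^ d` are coprime, so `p ^ j ∣ l ^ (d' - d) - 1 < C < p ^ j`: `l ^ (d' - d) = 1`, `d' = d`.
(4) `euler`: `Nat.ModEq.pow_totient`, `Nat.totient_prime_pow`: `φ (p ^ j) = p ^ (j - 1) * (p - 1)`, `l` coprime to `p ^ j`: `l ^ φ ≡ 1`, so `l ^ (c * φ) ≡ 1`.
-/

set_option autoImplicit false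
open scoped Classical

namespace H68IW

theorem Ab_uni {G H : Type} [Group G] [Finite G] [IsCyclic G] [Group H] [Fintype H] {p : ℕ}
    (hp : p.Prime) (hH : Fintype.card H = p) (ι : H →* G) {g : G}
    (hg : orderOf g = p) (h : H) : ι h ∈ Subgroup.zpowers g := by
  haveI := Fintype.ofFinite G
  have h1 : (Finset.univ.filter fun a : G => a ^ p = 1).card ≤ p :=
    IsCyclic.card_pow_eq_one_le hp.pos
  have h2 : (Finset.univ.filter fun a : G => a ∈ Subgroup.zpowers g).card = p := by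
    rw [← Fintype.card_subtype, ← Nat.card_eq_fintype_card]
    exact (Nat.card_zpowers g).trans hg
  have h3 : (Finset.univ.filter fun a : G => a ∈ Subgroup.zpowers g) ⊆
      (Finset.univ.filter fun a : G => a ^ p = 1) := by
    intro a ha
    rw [Finset.mem_filter] at ha ⊢
    refine ⟨Finset.mem_univ _, ?_⟩
    obtain ⟨k, rfl⟩ := Subgroup.mem_zpowers_iff.1 ha.2
    rw [← zpow_natCast, ← zpow_mul, mul_comm, zpow_mul, zpow_natCast, ← hg, pow_orderOf_eq_one,
      one_zpow]
  have h4 := Finset.eq_of_subset_of_card_le h3 (h1.trans h2.ge)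
  have h5 : ι h ∈ (Finset.univ.filter fun a : G => a ^ p = 1) := by
    rw [Finset.mem_filter]
    refine ⟨Finset.mem_univ _, ?_⟩
    rw [← map_pow, ← hH, pow_card_eq_one, map_one]
  rw [← h4, Finset.mem_filter] at h5
  exact h5.2

theorem Ab_fix {A G H : Type} [AddCommGroup A] [Group G] [Finite G] [IsCyclic G] [Group H]
    [Fintype H] {l p j : ℕ} (hl : l.Prime) (hp : p.Prime) (hlp : l ≠ p)
    (hG : Nat.card G = p ^ j) (hH : Fintype.card H = p) (ι : H →* G)
    (ρ : G →* AddMonoid.End A) {b : A} (hb : l • b = 0) (hs : ∑ h, ρ (ι h) b = 0) {g : G}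
    (hg : g ≠ 1) (hgb : ρ g b = b) : b = 0 := by
  obtain ⟨i, _, hi⟩ := (Nat.dvd_prime_pow hp).1 (hG ▸ orderOf_dvd_natCard g)
  have hi0 : i ≠ 0 := fun h => hg (orderOf_eq_one_iff.1 (by rw [hi, h, pow_zero]))
  have hd : p ∣ orderOf g := hi ▸ dvd_pow_self p hi0
  have ho : orderOf (g ^ (orderOf g / p)) = p := orderOf_pow_orderOf_div (orderOf_pos g).ne' hd
  let S : Subgroup G :=
    { carrier := {x | ρ x b = b}
      one_mem' := by
        change ρ 1 b = b
        rw [map_one]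
        rfl
      mul_mem' := by
        intro x y hx hy
        change ρ (x * y) b = b
        have hx' : ρ x b = b := hx
        have hy' : ρ y b = b := hy
        rw [map_mul]
        change ρ x (ρ y b) = b
        rw [hy', hx']
      inv_mem' := by
        intro x hx
        have hx' : ρ x b = b := hx
        change ρ x⁻¹ b = b
        have h1 : ρ x⁻¹ (ρ x b) = b := by
          change (ρ x⁻¹ * ρ x) b = b
          rw [← map_mul, inv_mul_cancel, map_one]
          rfl
        rw [hx'] at h1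
        exact h1 }
  have hS : Subgroup.zpowers (g ^ (orderOf g / p)) ≤ S := by
    rw [Subgroup.zpowers_le]
    exact S.pow_mem hgb _
  have h2 : ∀ h : H, ρ (ι h) b = b := fun h => hS (Ab_uni hp hH ι ho h)
  simp only [h2] at hs
  rw [Finset.sum_const, Finset.card_univ, hH] at hs
  have h3 : addOrderOf b ∣ l := addOrderOf_dvd_of_nsmul_eq_zero hb
  have h4 : addOrderOf b ∣ p := addOrderOf_dvd_of_nsmul_eq_zero hs
  have h5 : Nat.Coprime l p := (Nat.coprime_primes hl hp).2 hlp
  have h6 : addOrderOf b = 1 := Nat.eq_one_of_dvd_coprimes h5 h3 h4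
  exact AddMonoid.addOrderOf_eq_one_iff.1 h6

theorem Ab_card {B : Type} [AddCommGroup B] [Finite B] :
    Nat.card {b : B // b ≠ 0} = Nat.card B - 1 := by
  have h1 : Nat.card (Option {b : B // b ≠ 0}) = Nat.card B :=
    Nat.card_congr (Equiv.optionSubtypeNe (0 : B))
  rw [Finite.card_option] at h1
  omega

theorem Ab_comm {G : Type} [Group G] [IsCyclic G] (a b : G) : a * b = b * a := by
  obtain ⟨g, hg⟩ := IsCyclic.exists_generator (α := G)
  obtain ⟨i, rfl⟩ := Subgroup.mem_zpowers_iff.1 (hg a)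
  obtain ⟨k, rfl⟩ := Subgroup.mem_zpowers_iff.1 (hg b)
  exact (Commute.refl g).zpow_zpow i k

theorem free_card {A G H : Type} [AddCommGroup A] [Group G] [Finite G] [IsCyclic G] [Group H]
    [Fintype H] {l p j : ℕ} (hl : l.Prime) (hp : p.Prime) (hlp : l ≠ p)
    (hG : Nat.card G = p ^ j) (hH : Fintype.card H = p) (ι : H →* G)
    (hι : Function.Injective ι) (ρ : G →* AddMonoid.End A) (hA : ∀ a : A, l • a = 0)
    (hfin : Finite (nrm (ρ.comp ι)).ker) : p ^ j ∣ Nat.card (nrm (ρ.comp ι)).ker - 1 := by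
  have hmem : ∀ b : A, b ∈ (nrm (ρ.comp ι)).ker ↔ ∑ h, ρ (ι h) b = 0 := by
    intro b
    rw [AddMonoidHom.mem_ker, nrm_apply]
    rfl
  have hst : ∀ (g : G) (b : A), b ∈ (nrm (ρ.comp ι)).ker → ρ g b ∈ (nrm (ρ.comp ι)).ker := by
    intro g b hb
    rw [hmem] at hb ⊢
    have h1 : ∀ h, ρ (ι h) (ρ g b) = ρ g (ρ (ι h) b) := fun h => by
      change (ρ (ι h) * ρ g) b = (ρ g * ρ (ι h)) b
      rw [← map_mul, ← map_mul, Ab_comm]
    simp only [h1]
    rw [← map_sum, hb, map_zero]
  have hinv : ∀ (g : G) (b : A), ρ g⁻¹ (ρ g b) = b := by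
    intro g b
    change (ρ g⁻¹ * ρ g) b = b
    rw [← map_mul, inv_mul_cancel, map_one]
    rfl
  letI act : MulAction G {b : (nrm (ρ.comp ι)).ker // b ≠ 0} :=
    { smul := fun g x => ⟨⟨ρ g x.1.1, hst g _ x.1.2⟩, fun h => x.2 (by
        have h1 : ρ g x.1.1 = 0 := congrArg Subtype.val h
        have h2 := hinv g x.1.1
        rw [h1, map_zero] at h2
        exact Subtype.ext h2.symm)⟩
      one_smul := by
        intro x
        apply Subtype.ext
        apply Subtype.ext
        change ρ 1 x.1.1 = x.1.1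
        rw [map_one]
        rfl
      mul_smul := by
        intro g g' x
        apply Subtype.ext
        apply Subtype.ext
        change ρ (g * g') x.1.1 = ρ g (ρ g' x.1.1)
        rw [map_mul]
        rfl }
  have hfree : ∀ x : {b : (nrm (ρ.comp ι)).ker // b ≠ 0}, MulAction.stabilizer G x = ⊥ := by
    intro x
    rw [Subgroup.eq_bot_iff_forall]
    intro g hg
    by_contra hne
    have h1 : ρ g x.1.1 = x.1.1 :=
      congrArg (fun y : {b : (nrm (ρ.comp ι)).ker // b ≠ 0} => y.1.1) (MulAction.mem_stabilizer_iff.1 hg)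
    have h2 : x.1.1 = 0 := Ab_fix hl hp hlp hG hH ι ρ (hA _) ((hmem _).1 x.1.2) hne h1
    exact x.2 (Subtype.ext h2)
  have h3 := Nat.card_congr (MulAction.selfEquivOrbitsQuotientProd hfree)
  rw [Nat.card_prod, hG, Ab_card] at h3
  rw [h3]
  exact dvd_mul_left _ _

theorem free_q {A G H : Type} [AddCommGroup A] [Group G] [Finite G] [IsCyclic G] [Group H]
    [Fintype H] {l p j : ℕ} (hl : l.Prime) (hp : p.Prime) (hlp : l ≠ p)
    (hG : Nat.card G = p ^ j) (hH : Fintype.card H = p) (ι : H →* G)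
    (hι : Function.Injective ι) (ρ : G →* AddMonoid.End A) (ρ' : H →* AddMonoid.End A)
    (hρ : ∀ h a, ρ' h a = ρ (ι h) a) (hfin : Finite (nrm (qA l ρ')).ker) :
    p ^ j ∣ Nat.card (nrm (qA l ρ')).ker - 1 := by
  have h1 : ρ' = ρ.comp ι := MonoidHom.ext fun h => AddMonoidHom.ext fun a => hρ h a
  subst h1
  refine free_card hl hp hlp hG hH ι hι (qA l ρ) ?_ hfin
  intro a
  obtain ⟨a, rfl⟩ := QuotientAddGroup.mk'_surjective _ a
  rw [← map_nsmul, QuotientAddGroup.mk'_apply, QuotientAddGroup.eq_zero_iff]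
  exact ⟨a, rfl⟩

theorem free_t {A G H : Type} [AddCommGroup A] [Group G] [Finite G] [IsCyclic G] [Group H]
    [Fintype H] {l p j : ℕ} (hl : l.Prime) (hp : p.Prime) (hlp : l ≠ p)
    (hG : Nat.card G = p ^ j) (hH : Fintype.card H = p) (ι : H →* G)
    (hι : Function.Injective ι) (ρ : G →* AddMonoid.End A) (ρ' : H →* AddMonoid.End A)
    (hρ : ∀ h a, ρ' h a = ρ (ι h) a) (hfin : Finite (nrm (tA l ρ')).ker) :
    p ^ j ∣ Nat.card (nrm (tA l ρ')).ker - 1 := by
  have h1 : ρ' = ρ.comp ι := MonoidHom.ext fun h => AddMonoidHom.ext fun a => hρ h a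
  subst h1
  refine free_card hl hp hlp hG hH ι hι (tA l ρ) ?_ hfin
  intro a
  exact Subtype.ext a.2

theorem Ab_pin {l p j d d' C : ℕ} (hl : l.Prime) (hp : p.Prime) (hlp : l ≠ p) (hdd : d ≤ d')
    (h1 : p ^ j ∣ l ^ d - 1) (h2 : p ^ j ∣ l ^ d' - 1)
    (h4 : l ^ d' ≤ C * l ^ d) (hC : C < p ^ j) : d = d' := by
  obtain ⟨k, rfl⟩ := Nat.exists_eq_add_of_le hdd
  have hpos : ∀ i, 0 < l ^ i := fun i => pow_pos hl.pos i
  have h5 : l ^ k ≤ C := by
    rw [pow_add, mul_comm (l ^ d)] at h4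
    exact Nat.le_of_mul_le_mul_right h4 (hpos d)
  have h6 : p ^ j ∣ l ^ d * (l ^ k - 1) := by
    have e : l ^ d * (l ^ k - 1) = (l ^ (d + k) - 1) - (l ^ d - 1) := by
      rw [Nat.mul_sub, mul_one, ← pow_add]
      have := hpos d
      have := hpos (d + k)
      omega
    rw [e]
    exact Nat.dvd_sub h2 h1
  have h7 : Nat.Coprime (p ^ j) (l ^ d) :=
    Nat.Coprime.pow _ _ ((Nat.coprime_primes hp hl).2 (Ne.symm hlp))
  have h8 : p ^ j ∣ l ^ k - 1 := h7.dvd_of_dvd_mul_left h6
  have h9 : l ^ k - 1 = 0 := Nat.eq_zero_of_dvd_of_lt h8 (by omega)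
  have h10 : l ^ k = 1 := by
    have := hpos k
    omega
  have h11 : k = 0 := by
    by_contra hk
    have := Nat.one_lt_pow hk hl.one_lt
    omega
  omega

theorem pin {l p j d d' C : ℕ} (hl : l.Prime) (hp : p.Prime) (hlp : l ≠ p)
    (h1 : p ^ j ∣ l ^ d - 1) (h2 : p ^ j ∣ l ^ d' - 1) (h3 : l ^ d ≤ C * l ^ d')
    (h4 : l ^ d' ≤ C * l ^ d) (hC : C < p ^ j) : d = d' := by
  rcases le_total d d' with h | h
  · exact Ab_pin hl hp hlp h h1 h2 h4 hC
  · exact (Ab_pin hl hp hlp h h2 h1 h3 hC).symm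

theorem euler {l p j : ℕ} (hl : l.Prime) (hp : p.Prime) (hlp : l ≠ p) (hj : 1 ≤ j) (c : ℕ) :
    p ^ j ∣ l ^ (c * (p ^ j - p ^ (j - 1))) - 1 := by
  have h1 : Nat.Coprime l (p ^ j) := Nat.Coprime.pow_right _ ((Nat.coprime_primes hl hp).2 hlp)
  have h2 := Nat.ModEq.pow_totient h1
  have h3 : (p ^ j).totient = p ^ j - p ^ (j - 1) := by
    rw [Nat.totient_prime_pow hp (by omega), Nat.mul_sub, mul_one, ← pow_succ]
    congr 2
    omega
  rw [h3] at h2
  have h4 := h2.pow c
  rw [one_pow, ← pow_mul, mul_comm] at h4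
  exact (Nat.modEq_iff_dvd' (Nat.one_le_pow _ _ hl.pos)).1 h4.symm

end H68IW
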