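import Pool.Agent.H68.IW.Df

/-!
ROW Bc (about 180 lines; Galois theory; the field `B = L(ζ, T)`).  PROOF.
`W.IsElliptic`, `F / K` Galois. `σ T := gp hV σ T` for `σ : F ≃ₐ[K] F` (`H86G.gp_one`, `H86G.gp_mul` in Pool/Agent/H86/T4G/Gx.lean).
`H' : Subgroup (F ≃ₐ[K] F)` := the `σ` with `σ (algebraMap L F x) = algebraMap L F x` for all `x : L`, `σ z = z` and `gp hV σ T = T`.
 `H'` is normal: for `τ` any: `τ⁻¹ z = z ^ a` (a root of unity of order `l`: hz.eq_pow_of_pow_eq_one) and `gp hV τ⁻¹ T = c • T`, so `τ σ τ⁻¹` fixes `z` and `T`; it fixes `L` because `L / K` is normal (`τ⁻¹` maps the image of `L` to itself: AlgEquiv.restrictNormal_commutes).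
`B := IntermediateField.fixedField H'` (IntermediateField K F): `Normal K B` (IsGalois.of_fixedField_normal_subgroup or `IsGalois.normalAutEquivQuotient`-style instance: search `of_fixedField_normal_subgroup`), NumberField B, Algebra B F. The image of `L` is in `B` (IntermediateField.mem_fixedField_iff), this gives `L →+* B` (RingHom.codRestrict) and `Algebra L B` with the towers `K L B`, `L B F` (IsScalarTower.of_algebraMap_eq). `ζ := ⟨z, _⟩ : B`.
`WB := V'.map (algebraMap L B)`, `hVB := rfl`, `hBF`: map_map and the tower (hVF). `TB`: `T = some x y h` (T ≠ 0), `x`, `y` are fixed by `H'` (gp on `some` is `some (σ x) (σ y)`: pm_some, and injectivity of some), so they are in `B`, `TB := some ⟨x, _⟩ ⟨y, _⟩ _` (nonsingularity: Affine.map_nonsingular with the injective map `B → F`), `pm (algebraMap B F) hBF TB = T` (pm_some). A descent of a point is also in `Pool/Agent/H86/IW/Da.lean` (`Da_desc`).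
`H86G.DG l hVB TB ζ`: prime, odd given; gal: `IsGalois L B`: `B / K` is Galois, tower_top (IsGalois.tower_top_of_isGalois K L B); ell: WB elliptic from `W.Δ ≠ 0` (map_Δ); T0, Tl by injectivity of pm (pm_injective); prim: by injectivity (IsPrimitiveRoot.map_iff_of_injective / of_map_of_injective); stab: for `δ : B ≃ₐ[L] B` lift it to `σ : F ≃ₐ[K] F` (AlgEquiv.liftNormal, or surjectivity of restrictNormalHom, for `δ.restrictScalars K`; `F / K` normal), `σ (algebraMap B F b) = algebraMap B F (δ b)`; `gp hV σ T = c • T` gives `gp hVB δ TB = c • TB` (pm_injective, pm_pm, pm_congr); faith: if `δ ζ = ζ` and `gp hVB δ TB = TB` then `σ ∈ H'` (it fixes `L` as `δ` does), so `σ` fixes `B` and `δ = 1`.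
-/

set_option autoImplicit false
open scoped Classical

open WeierstrassCurve IsDedekindDomain NumberField Pool.Agent.H10 Pool.Agent.H11 H78D

namespace H68IW

theorem Bc_desc {K L : Type} [Field K] [Field L] [Algebra K L] [FiniteDimensional K L]
    [IsGalois K L]
    {V : WeierstrassCurve K} {V' : WeierstrassCurve L} (hV : V.map (algebraMap K L) = V')
    (P : V'.toAffine.Point) (hP : ∀ σ : L ≃ₐ[K] L, H86G.gp hV σ P = P) :
    ∃ P₀ : V.toAffine.Point, pm (algebraMap K L) hV P₀ = P := by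
  subst hV
  rcases P with _ | ⟨x, y, hxy⟩
  · exact ⟨0, map_zero _⟩
  · have h1 : ∀ σ : L ≃ₐ[K] L, σ x = x ∧ σ y = y := by
      intro σ
      have h2 := hP σ
      rw [H86G.gp, pm_some, Affine.Point.some.injEq] at h2
      exact h2
    obtain ⟨x₀, hx⟩ := (IsGalois.mem_range_algebraMap_iff_fixed x).2 (fun σ => (h1 σ).1)
    obtain ⟨y₀, hy⟩ := (IsGalois.mem_range_algebraMap_iff_fixed y).2 (fun σ => (h1 σ).2)
    subst hx hy
    refine ⟨.some x₀ y₀ ((Affine.map_nonsingular V (algebraMap K L).injective x₀ y₀).mp hxy), ?_⟩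
    rw [pm_some]

section grp

variable {K L F : Type} [Field K] [NumberField K] [Field L] [NumberField L] [Field F]
    [NumberField F] [Algebra K L] [Algebra K F] [Algebra L F] [IsScalarTower K L F]
    {V : WeierstrassCurve K} {W : WeierstrassCurve F}

/-- The automorphisms which fix `L`, `z` and `T`. -/
def Bc_H (L : Type) [Field L] [Algebra L F] (hV : V.map (algebraMap K F) = W)
    (T : W.toAffine.Point) (z : F) : Subgroup (F ≃ₐ[K] F) where
  carrier := {σ | (∀ x : L, σ (algebraMap L F x) = algebraMap L F x) ∧ σ z = z ∧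
    H86G.gp hV σ T = T}
  mul_mem' := by
    rintro σ τ ⟨h1, h2, h3⟩ ⟨h1', h2', h3'⟩
    refine ⟨fun x => ?_, ?_, ?_⟩
    · rw [AlgEquiv.mul_apply, h1', h1]
    · rw [AlgEquiv.mul_apply, h2', h2]
    · rw [H86G.gp_mul, h3', h3]
  one_mem' := ⟨fun _ => rfl, rfl, H86G.gp_one hV T⟩
  inv_mem' := by
    rintro σ ⟨h1, h2, h3⟩
    refine ⟨fun x => ?_, ?_, ?_⟩
    · apply σ.injective
      rw [h1, ← AlgEquiv.mul_apply, mul_inv_cancel]
      rfl
    · apply σ.injective
      rw [h2, ← AlgEquiv.mul_apply, mul_inv_cancel]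
      rfl
    · have h4 : H86G.gp hV σ⁻¹ (H86G.gp hV σ T) = T := by
        rw [← H86G.gp_mul, inv_mul_cancel, H86G.gp_one]
      rwa [h3] at h4

omit [NumberField L] [Algebra K L] [IsScalarTower K L F] in
theorem Bc_mem {hV : V.map (algebraMap K F) = W} {T : W.toAffine.Point} {z : F}
    {σ : F ≃ₐ[K] F} : σ ∈ Bc_H L hV T z ↔ (∀ x : L, σ (algebraMap L F x) = algebraMap L F x) ∧
      σ z = z ∧ H86G.gp hV σ T = T := Iff.rfl

omit [NumberField L] in
theorem Bc_normal [Normal K L] {hV : V.map (algebraMap K F) = W} {T : W.toAffine.Point} {z : F}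
    {l : ℕ} (hl : l.Prime) (hst : ∀ σ : F ≃ₐ[K] F, ∃ c : ℕ, H86G.gp hV σ T = c • T)
    (hz : IsPrimitiveRoot z l) : (Bc_H L hV T z).Normal := by
  refine ⟨fun n hn g => ?_⟩
  obtain ⟨h1, h2, h3⟩ := Bc_mem.1 hn
  have hg : ∀ y : F, g (g⁻¹ y) = y := by
    intro y
    rw [← AlgEquiv.mul_apply, mul_inv_cancel]
    rfl
  refine Bc_mem.2 ⟨fun x => ?_, ?_, ?_⟩
  · have e1 : g⁻¹ (algebraMap L F x) = algebraMap L F ((g⁻¹).restrictNormal L x) :=
      (AlgEquiv.restrictNormal_commutes g⁻¹ L x).symm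
    rw [AlgEquiv.mul_apply, AlgEquiv.mul_apply, e1, h1, ← e1, hg]
  · have : NeZero l := ⟨hl.ne_zero⟩
    have e1 : (g⁻¹ z) ^ l = 1 := by
      rw [← map_pow, hz.pow_eq_one, map_one]
    obtain ⟨w, _, hw⟩ := hz.eq_pow_of_pow_eq_one e1
    rw [AlgEquiv.mul_apply, AlgEquiv.mul_apply, ← hw, map_pow, h2, hw, hg]
  · obtain ⟨c, hc⟩ := hst g⁻¹
    rw [H86G.gp_mul, H86G.gp_mul, hc, map_nsmul, h3, ← hc, ← H86G.gp_mul, mul_inv_cancel,
      H86G.gp_one]

end grp

theorem Bc_core {K L F B : Type} [Field K] [NumberField K] [Field L] [NumberField L] [Field F]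
    [NumberField F] [Algebra K L] [Algebra K F] [Algebra L F] [IsScalarTower K L F] [IsGalois K F]
    [Field B] [NumberField B] [Algebra K B] [Algebra L B] [Algebra B F] [IsScalarTower K L B]
    [IsScalarTower K B F] [IsScalarTower L B F] [IsGalois K B]
    {V : WeierstrassCurve K} {V' : WeierstrassCurve L} {W : WeierstrassCurve F}
    (hV : V.map (algebraMap K F) = W) (hVF : V'.map (algebraMap L F) = W) {l : ℕ}
    (hl : l.Prime) (hl2 : l ≠ 2) (hE : W.Δ ≠ 0) {T : W.toAffine.Point} (hT0 : T ≠ 0)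
    (hTl : l • T = 0) (hst : ∀ σ : F ≃ₐ[K] F, ∃ c : ℕ, H86G.gp hV σ T = c • T) {z : F}
    (hz : IsPrimitiveRoot z l)
    (hmem : ∀ b : B, ∀ σ ∈ Bc_H L hV T z, σ (algebraMap B F b) = algebraMap B F b)
    (hzB : ∃ ζ : B, algebraMap B F ζ = z)
    (hfix : ∀ σ : F ≃ₐ[K] F, (∀ b : B, σ (algebraMap B F b) = algebraMap B F b) →
      σ ∈ Bc_H L hV T z) :
    ∃ (WB : WeierstrassCurve B)
      (hVB : V'.map (algebraMap L B) = WB) (hBF : WB.map (algebraMap B F) = W)
      (TB : WB.toAffine.Point) (ζ : B), H86G.DG l hVB TB ζ ∧ pm (algebraMap B F) hBF TB = T := by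
  have hfd : FiniteDimensional K F := Module.Finite.of_restrictScalars_finite ℚ K F
  have hBF : (V'.map (algebraMap L B)).map (algebraMap B F) = W := by
    rw [WeierstrassCurve.map_map, ← IsScalarTower.algebraMap_eq L B F]
    exact hVF
  have gEF : IsGalois B F := IsGalois.tower_top_of_isGalois K B F
  have fEF : FiniteDimensional B F := Module.Finite.of_restrictScalars_finite K B F
  obtain ⟨TB, hTB⟩ := Bc_desc hBF T (fun σ => by
    have h1 : (σ.restrictScalars K) ∈ Bc_H L hV T z := hfix _ (fun b => σ.commutes b)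
    exact (pm_congr _ _ (fun x => rfl) T).trans (Bc_mem.1 h1).2.2)
  have hinj : Function.Injective (algebraMap B F) := (algebraMap B F).injective
  obtain ⟨ζ, hζ⟩ := hzB
  have hcomm : ∀ (δ : B ≃ₐ[L] B), ∃ σ : F ≃ₐ[K] F,
      (∀ b : B, σ (algebraMap B F b) = algebraMap B F (δ b)) ∧
      pm (algebraMap B F) hBF (H86G.gp (rfl : V'.map (algebraMap L B) = V'.map (algebraMap L B)) δ TB) =
        H86G.gp hV σ T := by
    intro δ
    have h1 : ∀ b : B, ((δ.restrictScalars K).liftNormal F) (algebraMap B F b) =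
        algebraMap B F (δ b) := fun b => AlgEquiv.liftNormal_commutes (δ.restrictScalars K) F b
    refine ⟨(δ.restrictScalars K).liftNormal F, h1, ?_⟩
    have h2 := congrArg (H86G.gp hV ((δ.restrictScalars K).liftNormal F)) hTB
    rw [← h2]
    rw [H86G.gp, H86G.gp, pm_pm, pm_pm]
    exact pm_congr _ _ (fun x => (h1 x).symm) TB
  have hTB0 : TB ≠ 0 := by
    rintro rfl
    exact hT0 (hTB.symm.trans (map_zero _))
  refine ⟨V'.map (algebraMap L B), rfl, hBF, TB, ζ, ?_, hTB⟩
  exact
    { prime := hl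
      odd := hl2
      gal := IsGalois.tower_top_of_isGalois K L B
      ell := by
        refine ⟨isUnit_iff_ne_zero.2 fun h0 => hE ?_⟩
        rw [← hBF, WeierstrassCurve.map_Δ, h0, map_zero]
      T0 := hTB0
      Tl := by
        apply pm_injective (algebraMap B F) hBF
        rw [map_nsmul, hTB, hTl, map_zero]
      prim := IsPrimitiveRoot.of_map_of_injective (f := algebraMap B F) (by rw [hζ]; exact hz) hinj
      stab := by
        intro δ
        obtain ⟨σ, hσ, hσT⟩ := hcomm δ
        obtain ⟨c, hc⟩ := hst σ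
        refine ⟨c, ?_⟩
        apply pm_injective (algebraMap B F) hBF
        rw [hσT, map_nsmul, hTB, hc]
      faith := by
        intro δ h1 h2
        obtain ⟨σ, hσ, hσT⟩ := hcomm δ
        have h3 : σ ∈ Bc_H L hV T z := by
          refine Bc_mem.2 ⟨fun x => ?_, ?_, ?_⟩
          · have h4 := hσ (algebraMap L B x)
            rw [δ.commutes, ← IsScalarTower.algebraMap_apply L B F] at h4
            exact h4
          · have h4 := hσ ζ
            rw [h1, hζ] at h4
            exact h4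
          · rw [← hσT, h2, hTB]
        refine AlgEquiv.ext fun b => ?_
        apply hinj
        rw [← hσ b]
        exact hmem b σ h3 }

theorem exists_B {K L F : Type} [Field K] [NumberField K] [Field L] [NumberField L] [Field F]
    [NumberField F] [Algebra K L] [Algebra K F] [Algebra L F] [IsScalarTower K L F] [IsGalois K F]
    [Normal K L] {V : WeierstrassCurve K} {V' : WeierstrassCurve L} {W : WeierstrassCurve F}
    (hV : V.map (algebraMap K F) = W) (hVF : V'.map (algebraMap L F) = W) {l : ℕ}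
    (hl : l.Prime) (hl2 : l ≠ 2) (hE : W.Δ ≠ 0) {T : W.toAffine.Point} (hT0 : T ≠ 0)
    (hTl : l • T = 0) (hst : ∀ σ : F ≃ₐ[K] F, ∃ c : ℕ, H86G.gp hV σ T = c • T) {z : F}
    (hz : IsPrimitiveRoot z l) :
    ∃ (B : Type) (_ : Field B) (_ : NumberField B) (_ : Algebra K B) (_ : Algebra L B)
      (_ : Algebra B F) (_ : IsScalarTower K L B) (_ : IsScalarTower K B F)
      (_ : IsScalarTower L B F) (_ : Normal K B) (WB : WeierstrassCurve B)
      (hVB : V'.map (algebraMap L B) = WB) (hBF : WB.map (algebraMap B F) = W)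
      (TB : WB.toAffine.Point) (ζ : B), H86G.DG l hVB TB ζ ∧ pm (algebraMap B F) hBF TB = T := by
  have hfd : FiniteDimensional K F := Module.Finite.of_restrictScalars_finite ℚ K F
  have hnorm : (Bc_H L hV T z).Normal := Bc_normal hl hst hz
  obtain ⟨E, hE'⟩ : ∃ E : IntermediateField K F, E = IntermediateField.fixedField (Bc_H L hV T z) :=
    ⟨_, rfl⟩
  have hmem : ∀ x : F, x ∈ E ↔ ∀ σ ∈ Bc_H L hV T z, σ x = x := by
    intro x
    rw [hE']
    exact IntermediateField.mem_fixedField_iff _ x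
  have hfix : IntermediateField.fixingSubgroup E = Bc_H L hV T z := by
    rw [hE']
    exact IntermediateField.fixingSubgroup_fixedField _
  have hgal : IsGalois K E := by
    rw [hE']
    infer_instance
  have hL : ∀ x : L, algebraMap L F x ∈ E := fun x => (hmem _).2 fun σ hσ => (Bc_mem.1 hσ).1 x
  have hzE : z ∈ E := (hmem _).2 fun σ hσ => (Bc_mem.1 hσ).2.1
  obtain ⟨f, hf⟩ : ∃ f : L →+* E, ∀ x, ((f x : E) : F) = algebraMap L F x :=
    ⟨(algebraMap L F).codRestrict E.toSubring hL, fun x => rfl⟩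
  let _ : Algebra L E := f.toAlgebra
  have hfa : ∀ x : L, algebraMap L E x = f x := fun x => rfl
  have t1 : IsScalarTower K L E := by
    refine IsScalarTower.of_algebraMap_eq fun x => ?_
    apply Subtype.ext
    rw [hfa, hf]
    exact IsScalarTower.algebraMap_apply K L F x
  have t3 : IsScalarTower L E F := by
    refine IsScalarTower.of_algebraMap_eq fun x => ?_
    exact (hf x).symm
  refine ⟨E, inferInstance, inferInstance, inferInstance, inferInstance, inferInstance, t1,
    inferInstance, t3, inferInstance, ?_⟩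
  refine Bc_core (B := E) hV hVF hl hl2 hE hT0 hTl hst hz (fun b σ hσ => (hmem _).1 b.2 σ hσ)
    ⟨⟨z, hzE⟩, rfl⟩ (fun σ hσ => ?_)
  rw [← hfix, IntermediateField.mem_fixingSubgroup_iff]
  intro x hx
  exact hσ ⟨x, hx⟩

end H68IW
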