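import Pool.Agent.H68.SS.Df
import Pool.Agent.H86.T4G.Wd
import Pool.Agent.H86.T4G.Gx
import Pool.Agent.H11.ConjSha

/-!
# MP_78d38b: the exact Iwasawa formula for the `l`-Selmer groups (definitions, no row)
-/

set_option autoImplicit false
open scoped Classical

open WeierstrassCurve IsDedekindDomain NumberField Pool.Agent.H10 Pool.Agent.H11 H78D H68SS

namespace H68IW

section abs

/-- The norm of an action. -/
noncomputable def nrm {G A : Type*} [Group G] [Fintype G] [AddCommGroup A]
    (ρ : G →* AddMonoid.End A) : A →+ A :=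
  ∑ g : G, (ρ g : A →+ A)

theorem nrm_apply {G A : Type*} [Group G] [Fintype G] [AddCommGroup A]
    (ρ : G →* AddMonoid.End A) (a : A) : nrm ρ a = ∑ g : G, ρ g a := by
  unfold nrm
  exact AddMonoidHom.finsetSum_apply _ _ _

/-- `A / l` -/
abbrev Ql (l : ℕ) (A : Type*) [AddCommGroup A] : Type _ := A ⧸ (nsmulAddMonoidHom (α := A) l).range

/-- The elements of `A` killed by `l`. -/
abbrev Tl (l : ℕ) (A : Type*) [AddCommGroup A] : AddSubgroup A := (nsmulAddMonoidHom (α := A) l).ker

/-- The action on `A / l`. -/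
noncomputable def qA (l : ℕ) {G A : Type*} [Group G] [AddCommGroup A] (ρ : G →* AddMonoid.End A) :
    G →* AddMonoid.End (Ql l A) where
  toFun g := QuotientAddGroup.map _ _ (ρ g : A →+ A) (by
    rintro _ ⟨a, rfl⟩
    exact ⟨ρ g a, (map_nsmul (ρ g : A →+ A) l a).symm⟩)
  map_one' := by
    refine AddMonoidHom.ext fun x => ?_
    obtain ⟨a, rfl⟩ := QuotientAddGroup.mk'_surjective _ x
    change QuotientAddGroup.mk' _ (ρ 1 a) = QuotientAddGroup.mk' _ a
    rw [map_one]
    rfl
  map_mul' g h := by
    refine AddMonoidHom.ext fun x => ?_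
    obtain ⟨a, rfl⟩ := QuotientAddGroup.mk'_surjective _ x
    change QuotientAddGroup.mk' _ (ρ (g * h) a) = QuotientAddGroup.mk' _ (ρ g (ρ h a))
    rw [map_mul]
    rfl

/-- The action on the elements killed by `l`. -/
noncomputable def tA (l : ℕ) {G A : Type*} [Group G] [AddCommGroup A] (ρ : G →* AddMonoid.End A) :
    G →* AddMonoid.End (Tl l A) where
  toFun g := ((ρ g : A →+ A).comp (Tl l A).subtype).codRestrict (Tl l A) (fun a => by
    have h : l • (a : A) = 0 := a.2
    change l • (ρ g (a : A)) = 0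
    rw [← map_nsmul (ρ g : A →+ A) l (a : A), h]
    exact map_zero (ρ g : A →+ A))
  map_one' := by
    ext a
    change ρ 1 (a : A) = a
    rw [map_one]
    rfl
  map_mul' g h := by
    ext a
    change ρ (g * h) (a : A) = ρ g (ρ h (a : A))
    rw [map_mul]
    rfl

end abs

section pts

variable {K L : Type} [Field K] [NumberField K] [Field L] [NumberField L] [Algebra K L]
  {V : WeierstrassCurve K} {V' : WeierstrassCurve L}

/-- The action of the Galois group on the points. -/
noncomputable def pA (hV : V.map (algebraMap K L) = V') :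
    (L ≃ₐ[K] L) →* AddMonoid.End V'.toAffine.Point where
  toFun σ := H86G.gp hV σ
  map_one' := AddMonoidHom.ext fun P => H86G.gp_one hV P
  map_mul' σ τ := AddMonoidHom.ext fun P => H86G.gp_mul hV σ τ P

end pts

section sel

variable {K L : Type} [Field K] [NumberField K] [Field L] [NumberField L] [Algebra K L]
  {V : WeierstrassCurve K} {V' : WeierstrassCurve L}

/-- The order of the `l`-Selmer group. -/
noncomputable def sel (l : ℕ) (L : Type) [Field L] [NumberField L] (V : WeierstrassCurve L) : ℕ :=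
  Nat.card (Ql l V.toAffine.Point) * Nat.card (Tl l (Sha L V))

/-- The new part of `E(L) / l`. -/
noncomputable abbrev Mn (l : ℕ) (hV : V.map (algebraMap K L) = V') :
    AddSubgroup (Ql l V'.toAffine.Point) := (nrm (qA l (pA hV))).ker

/-- The new part of `Sha[l]`. -/
noncomputable abbrev Hn (l : ℕ) [Normal K L] (hV : V.map (algebraMap K L) = V') :
    AddSubgroup (Tl l (Sha L V')) := (nrm (tA l (actH hV))).ker

end sel

/-- A multiple of `T` of the form `t P - P` is zero, at the place `w`. -/
def LocOw (l : ℕ) {F : Type} [Field F] [NumberField F] (W : WeierstrassCurve F)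
    (T : W.toAffine.Point) (w : HeightOneSpectrum (𝓞 F)) : Prop :=
  ∀ (L : Type) [Field L] [Algebra F L]
    (A : ValuationSubring L) (t : L →ₐ[F] L), Iner w A t →
    ∀ (P : (W.baseChange L).toAffine.Point) (k : ℕ),
      k • pm (algebraMap F L) rfl T = mp W t P - P → l ∣ k

/-- `x` is an `l`-th power in `F` up to a factor close to one at the place `w`. -/
def Lz {F : Type} [Field F] [NumberField F] (w : HeightOneSpectrum (𝓞 F)) (l : ℕ) (x : F) : Prop :=
  ∃ z : F, z ≠ 0 ∧ w.valuation F (x / z ^ l - 1) ≤ WithZero.exp (-((l : ℤ) + 1))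

/-- `H78D.Dat` without condition above `l`, with a stable subgroup. -/
structure DatX (l : ℕ) (K Km L F : Type) [Field K] [NumberField K] [Field Km] [NumberField Km]
    [Field L] [NumberField L] [Field F] [NumberField F] [Algebra K F] [Algebra Km F] [Algebra L F]
    (W : WeierstrassCurve F) (T : W.toAffine.Point) (h : F ≃ₐ[Km] F) (J : F ≃ₐ[L] F) (D : ℤ) :
    Prop where
  prime : l.Prime
  three : 3 ≤ l
  tow : Tow l K Km L F h J
  ell : W.IsElliptic
  T0 : T ≠ 0
  Tl : l • T = 0
  Th : ∃ hh : W.map (h : F →+* F) = W, pm (h : F →+* F) hh T = T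
  TJ : ∃ hh : W.map (J : F →+* F) = W, pm (J : F →+* F) hh T = -T
  good : ∀ w : HeightOneSpectrum (𝓞 F), ((D : ℤ) : 𝓞 F) ∉ w.asIdeal →
    GoodVal (w.valuation F) W l
  noE : H68TL.NoNewE l Km F ∅ (J : F ≃+* F)
  noC : H68TL.NoUnr l Km F (J : F ≃+* F)
  fixP : H68TL.FixP D Km F

end H68IW
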