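import Pool.Agent.H68.IW.Df
import Pool.Agent.H78.TD.Ka

/-!
# MP_78d38b IW: bounds for the number of new classes, family form (definitions, no row)
-/

set_option autoImplicit false
open scoped Classical

open WeierstrassCurve IsDedekindDomain NumberField Pool.Agent.H10 Pool.Agent.H11 H78D

namespace H68IW

/-- Among more than `U` new classes over `L` two are equal; everything over the closure of `F`. -/
def FamF {K F : Type} [Field K] [NumberField K] [Field F] [NumberField F] [Algebra K F] (l : ℕ)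
    (L : Type) [Field L] [Algebra L F] {V : WeierstrassCurve K} {W : WeierstrassCurve F}
    (hV : V.map (algebraMap K F) = W) (hh : AlgebraicClosure F ≃ₐ[K] AlgebraicClosure F)
    (P U : ℕ) : Prop :=
  ∀ (ι : Type) [Fintype ι], U < Fintype.card ι →
    ∀ f : ι → (AlgebraicClosure F ≃ₐ[K] AlgebraicClosure F) →
      (W.baseChange (AlgebraicClosure F)).toAffine.Point, (∀ i, SC l L hV (f i)) →
    (∀ i, ∃ R, l • R = 0 ∧ New L hV hh P R (f i)) →
    ∃ i j, i ≠ j ∧ ∃ S, l • S = 0 ∧ ∀ s ∈ SA K L (AlgebraicClosure F),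
      f i s - f j s = act (inv_up hV) s S - S

/-- Among more than `U` new classes over `L` two are equal. -/
def FamL {K L : Type} [Field K] [NumberField K] [Field L] [NumberField L] [Algebra K L]
    [Normal K L] (l : ℕ) {V : WeierstrassCurve K} {V' : WeierstrassCurve L}
    (hV : V.map (algebraMap K L) = V') (g : AlgebraicClosure L ≃ₐ[K] AlgebraicClosure L)
    (P U : ℕ) : Prop :=
  ∀ (ι : Type) [Fintype ι], U < Fintype.card ι → ∀ f : ι → Coch L V',
    (∀ i, IsCocycle L V' (f i)) → (∀ i, IsLocTriv L V' (f i)) → (∀ i τ, l • f i τ = 0) →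
    (∀ i, ∃ R, l • R = 0 ∧ ∀ τ, ∑ j ∈ Finset.range P, conj (inv_up hV) (g ^ j) (f i) τ =
      act (inv_bc L V') τ R - R) →
    ∃ i j, i ≠ j ∧ ∃ S, l • S = 0 ∧ ∀ τ, f i τ - f j τ = act (inv_bc L V') τ S - S

end H68IW
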