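import Pool.Agent.H78.TD.Ga
import Pool.Agent.H78.TD.Wa

/-!
ROW Gn (pure group theory, about 150 lines; uses only the statements of TD/Ga: cjf_mul, cjf_cob, cocOn_one; TD/Df).  PROOF.
(1) `exists_pairZ`: the proof of `H78D.exists_pairC` (Pool/Agent/H78/TD/Wa.lean) with its internal `hb : ∀ j, b (j • T) = ζ ^ j` added to the conclusion (copy it).
(2) `norm_R`: for `l • x = 0`: `e (ρ (h ^ i) x) = e x` (induction, `hρ.mul`, `hρ.one`). `m : ℕ` with `m * P + 1 ≡ 0` modulo `l` (`l` does not divide `P`; Nat.exists_mul_mod_eq_one_of_coprime gives `u * P ≡ 1`, take `m = (l - 1) * u`). `S := m • R`. `e (R + ∑ i, ρ (h ^ i) S) = e R * ∏ i, e S = e R * (e R ^ m) ^ P = e R ^ (1 + m * P) = 1`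
 (Pr.add, Pr.pow; `e (m • R) = e R ^ m` by induction, `e 0 = 1`), and the element is killed by `l`, so it is a multiple of `T` (hker).
(3) `new_add`: `cjf` is additive in `f` and `cjf_cob`: `cjf ρ (h ^ i) (fun s => ρ s S - S) s = ρ s (ρ (h ^ i) S) - ρ (h ^ i) S`; Finset.sum_add_distrib, map_sum.
(4) `val_C`: for `s ∈ SL`, `e (cjf ρ (h ^ j) f s) = e (f ((h ^ j)⁻¹ * s * h ^ j))` (hinv iterated; the values of `f` on `SL` are killed by `l`). `(h⁻¹ * s * h) = s * u` with `u = s⁻¹ * h⁻¹ * s * h ∈ SF`, `f (s * u) = f s + ρ s (f u)`, `f u` is a multiple of `T` (h1, hker), so is `ρ s (f u)` (hst), so `e (f (h⁻¹ * s * h)) = e (f s)` for all `s ∈ SL` (Pr.add);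
 by induction on `j`: `e (f ((h ^ j)⁻¹ * s * h ^ j)) = e (f s)` (`(h ^ (j + 1))⁻¹ * s * h ^ (j + 1) = (h ^ j)⁻¹ * (h⁻¹ * s * h) * h ^ j`, `h⁻¹ * s * h ∈ SL`). So `e` of the sum is `e (f s) ^ P`. On the other side `ρ s R - R` is a multiple of `T` (hst, hR; `-(j • T) = ((l - 1) * j) • T`), so `e = 1`. `e (f s) ^ P = 1 = e (f s) ^ l`, coprime exponents: `e (f s) = 1`.
-/

set_option autoImplicit false
open scoped Classical

open H78D

namespace H68IW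

variable {G A : Type*} [Group G] [AddCommGroup A] {ρ : G → A →+ A}

private theorem Gn_pow_inv {Ω : Type*} [Field Ω] (hρ : Rho ρ) {l : ℕ} {e : A → Ω} {h : G}
    (hinv : ∀ x, l • x = 0 → e (ρ h x) = e x) (i : ℕ) :
    ∀ x, l • x = 0 → e (ρ (h ^ i) x) = e x := by
  induction i with
  | zero =>
    intro x _
    rw [pow_zero, hρ.one]
  | succ i ih =>
    intro x hx
    have h1 : l • ρ h x = 0 := by rw [← map_nsmul, hx, map_zero]
    rw [pow_succ, hρ.mul, ih _ h1, hinv x hx]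

private theorem Gn_e_zero {Ω : Type*} [Field Ω] {l : ℕ} (hl : l.Prime) {e : A → Ω}
    (he : Pr l {x | l • x = 0} e) : e 0 = 1 := by
  have h1 := he.add 0 he.zero 0 he.zero
  have h2 := he.pow 0 he.zero
  have h0 : e 0 ≠ 0 := by
    intro h
    rw [h, zero_pow hl.ne_zero] at h2
    exact zero_ne_one h2
  rw [add_zero] at h1
  exact (mul_eq_left₀ h0).1 h1.symm

private theorem Gn_e_nsmul {Ω : Type*} [Field Ω] {l : ℕ} (hl : l.Prime) {e : A → Ω}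
    (he : Pr l {x | l • x = 0} e) {x : A} (hx : l • x = 0) (m : ℕ) : e (m • x) = e x ^ m := by
  induction m with
  | zero => rw [zero_nsmul, pow_zero, Gn_e_zero hl he]
  | succ m ih =>
    have h1 : l • (m • x) = 0 := by rw [smul_comm, hx, smul_zero]
    rw [succ_nsmul, pow_succ, he.add _ h1 _ hx, ih]

private theorem Gn_sum {Ω : Type*} [Field Ω] {l : ℕ} (hl : l.Prime) {e : A → Ω}
    (he : Pr l {x | l • x = 0} e) {F : ℕ → A} {v : Ω} (n : ℕ)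
    (hF : ∀ i, l • F i = 0 ∧ e (F i) = v) :
    l • (∑ i ∈ Finset.range n, F i) = 0 ∧ e (∑ i ∈ Finset.range n, F i) = v ^ n := by
  induction n with
  | zero =>
    rw [Finset.sum_range_zero, smul_zero, pow_zero]
    exact ⟨rfl, Gn_e_zero hl he⟩
  | succ n ih =>
    obtain ⟨h1, h2⟩ := ih
    rw [Finset.sum_range_succ]
    refine ⟨by rw [smul_add, h1, (hF n).1, add_zero], ?_⟩
    rw [he.add _ h1 _ (hF n).1, h2, (hF n).2, pow_succ]

private theorem Gn_cop {Ω : Type*} [Field Ω] {l P : ℕ} (hl : l.Prime) (hP : ¬ l ∣ P) {v : Ω}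
    (h1 : v ^ P = 1) (h2 : v ^ l = 1) : v = 1 := by
  have h3 : orderOf v ∣ Nat.gcd P l := Nat.dvd_gcd (orderOf_dvd_of_pow_eq_one h1)
    (orderOf_dvd_of_pow_eq_one h2)
  have h4 : Nat.gcd P l = 1 := (hl.coprime_iff_not_dvd.2 hP).symm
  rw [h4, Nat.dvd_one] at h3
  exact orderOf_eq_one_iff.1 h3

theorem exists_pairZ {Ω : Type*} [Field Ω] (ρ : G → A →+ A) {l : ℕ}
    (hl : l.Prime) {T : A} (hT0 : T ≠ 0) (hT : l • T = 0) {ζ : Ω} (hζ : IsPrimitiveRoot ζ l) :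
    ∃ b : A → Ω, (∀ j : ℕ, b (j • T) = ζ ^ j) ∧ Pr l {x | ∃ j : ℕ, x = j • T} b ∧
      (∀ x, (∃ j : ℕ, x = j • T) → b x = 1 → x = 0) ∧
      (∀ σ, ρ σ T = T → Kp ρ {x | ∃ j : ℕ, x = j • T} b σ) ∧
      (∀ σ, ρ σ T = -T → ∀ x ∈ {x | ∃ j : ℕ, x = j • T},
        ρ σ x ∈ {x | ∃ j : ℕ, x = j • T} ∧ b (ρ σ x) = (b x)⁻¹) := by
  have : Fact l.Prime := ⟨hl⟩
  have hord : addOrderOf T = l := addOrderOf_eq_prime hT hT0
  obtain ⟨b, hb⟩ : ∃ b : A → Ω, ∀ j : ℕ, b (j • T) = ζ ^ j := by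
    refine ⟨fun x => if h : ∃ j : ℕ, x = j • T then ζ ^ (Classical.choose h) else 1, fun j => ?_⟩
    have h : ∃ j' : ℕ, j • T = j' • T := ⟨j, rfl⟩
    simp only [dif_pos h]
    have h1 := Classical.choose_spec h
    rw [nsmul_eq_nsmul_iff_modEq, hord] at h1
    exact pow_eq_pow_of_modEq h1.symm hζ.pow_eq_one
  have hl0 : ∀ j : ℕ, l • (j • T) = 0 := fun j => by rw [smul_comm, hT, smul_zero]
  have hzl : ζ ^ l = 1 := hζ.pow_eq_one
  refine ⟨b, hb, ⟨⟨0, by simp⟩, ?_, ?_, ?_, ?_⟩, ?_, ?_, ?_⟩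
  · rintro _ ⟨j, rfl⟩
    exact hl0 j
  · rintro _ ⟨j, rfl⟩ _ ⟨j', rfl⟩
    exact ⟨j + j', (add_nsmul T j j').symm⟩
  · rintro _ ⟨j, rfl⟩ _ ⟨j', rfl⟩
    rw [← add_nsmul, hb, hb, hb, pow_add]
  · rintro _ ⟨j, rfl⟩
    rw [hb, ← pow_mul, mul_comm, pow_mul, hzl, one_pow]
  · rintro _ ⟨j, rfl⟩ h1
    rw [hb] at h1
    obtain ⟨c, rfl⟩ := hζ.dvd_of_pow_eq_one j h1
    rw [mul_comm, mul_nsmul', hT, smul_zero]
  · rintro σ hσ _ ⟨j, rfl⟩
    have h1 : ρ σ (j • T) = j • T := by rw [map_nsmul, hσ]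
    rw [h1]
    exact ⟨⟨j, rfl⟩, rfl⟩
  · rintro σ hσ _ ⟨j, rfl⟩
    have h1 : ρ σ (j • T) = (j * (l - 1)) • T := by
      rw [map_nsmul, hσ, mul_nsmul']
      have h2 : (l - 1) • T + T = 0 := by
        rw [← succ_nsmul, Nat.sub_add_cancel hl.one_le, hT]
      rw [← eq_neg_of_add_eq_zero_left h2]
    rw [h1]
    refine ⟨⟨_, rfl⟩, ?_⟩
    rw [hb, hb]
    apply eq_inv_of_mul_eq_one_left
    rw [← pow_add]
    have h3 : j * (l - 1) + j = l * j := by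
      have h4 : l - 1 + 1 = l := Nat.sub_add_cancel hl.one_le
      calc j * (l - 1) + j = j * (l - 1 + 1) := by ring
        _ = l * j := by rw [h4, mul_comm]
    rw [h3, pow_mul, hzl, one_pow]

theorem norm_R {Ω : Type*} [Field Ω] (hρ : Rho ρ) {l P : ℕ} (hl : l.Prime) (hP : ¬ l ∣ P) {T : A}
    {e : A → Ω} (he : Pr l {x | l • x = 0} e)
    (hker : ∀ x, l • x = 0 → (e x = 1 ↔ ∃ j : ℕ, x = j • T)) {h : G}
    (hinv : ∀ x, l • x = 0 → e (ρ h x) = e x) {R : A} (hR : l • R = 0) :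
    ∃ S, l • S = 0 ∧ ∃ j : ℕ, R + ∑ i ∈ Finset.range P, ρ (h ^ i) S = j • T := by
  obtain ⟨m, hm⟩ : ∃ m : ℕ, l ∣ 1 + m * P := by
    have hc : Nat.Coprime P l := (hl.coprime_iff_not_dvd.2 hP).symm
    obtain ⟨u, -, hu⟩ := Nat.exists_mul_mod_eq_one_of_coprime hc hl.one_lt
    refine ⟨(l - 1) * u, ?_⟩
    have h1 := Nat.mod_add_div (P * u) l
    rw [hu] at h1
    have h2 : l - 1 + 1 = l := Nat.sub_add_cancel hl.one_le
    refine ⟨1 + (l - 1) * (P * u / l), ?_⟩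
    calc 1 + (l - 1) * u * P = 1 + (l - 1) * (P * u) := by ring
      _ = 1 + (l - 1) * (1 + l * (P * u / l)) := by rw [h1]
      _ = (l - 1 + 1) + l * ((l - 1) * (P * u / l)) := by ring
      _ = l * (1 + (l - 1) * (P * u / l)) := by rw [h2]; ring
  have hS : l • (m • R) = 0 := by rw [smul_comm, hR, smul_zero]
  refine ⟨m • R, hS, ?_⟩
  obtain ⟨h1, h2⟩ := Gn_sum hl he (F := fun i => ρ (h ^ i) (m • R)) (v := e R ^ m) P (fun i =>
    ⟨by rw [← map_nsmul, hS, map_zero], by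
      rw [Gn_pow_inv hρ hinv i _ hS, Gn_e_nsmul hl he hR]⟩)
  have h3 : l • (R + ∑ i ∈ Finset.range P, ρ (h ^ i) (m • R)) = 0 := by
    rw [smul_add, hR, h1, add_zero]
  refine (hker _ h3).1 ?_
  rw [he.add _ hR _ h1, h2, ← pow_mul, ← pow_succ']
  obtain ⟨c, hc⟩ := hm
  rw [show m * P + 1 = l * c from by rw [← hc, add_comm], pow_mul, he.pow R hR, one_pow]

theorem new_add (hρ : Rho ρ) (h : G) (P : ℕ) (f : G → A) (S : A) (s : G) :
    ∑ i ∈ Finset.range P, cjf ρ (h ^ i) (fun s => f s + (ρ s S - S)) s =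
      ∑ i ∈ Finset.range P, cjf ρ (h ^ i) f s +
        (ρ s (∑ i ∈ Finset.range P, ρ (h ^ i) S) - ∑ i ∈ Finset.range P, ρ (h ^ i) S) := by
  have h1 : ∀ i, cjf ρ (h ^ i) (fun s => f s + (ρ s S - S)) s =
      cjf ρ (h ^ i) f s + (ρ s (ρ (h ^ i) S) - ρ (h ^ i) S) := by
    intro i
    rw [← cjf_cob hρ (h ^ i) S s]
    exact map_add _ _ _
  rw [Finset.sum_congr rfl fun i _ => h1 i, Finset.sum_add_distrib, Finset.sum_sub_distrib,
    map_sum]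

theorem val_C {Ω : Type*} [Field Ω] (hρ : Rho ρ) {l P : ℕ} (hl : l.Prime) (hP : ¬ l ∣ P)
    {SL SF : Subgroup G} [SL.Normal] (hSF : SF ≤ SL) {T : A} (hTl : l • T = 0) {e : A → Ω}
    (he : Pr l {x | l • x = 0} e) (hker : ∀ x, l • x = 0 → (e x = 1 ↔ ∃ j : ℕ, x = j • T)) {h : G}
    (hinv : ∀ x, l • x = 0 → e (ρ h x) = e x) (hst : ∀ s ∈ SL, ∃ c : ℕ, ρ s T = c • T)
    (hcomm : ∀ s ∈ SL, s⁻¹ * h⁻¹ * s * h ∈ SF) {f : G → A} (hf : CocOn ρ SL f)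
    (htor : ∀ s ∈ SL, l • f s = 0) (h1 : ∀ s ∈ SF, e (f s) = 1) {R : A}
    (hR : ∃ j : ℕ, R = j • T)
    (hsum : ∀ s ∈ SL, ∑ j ∈ Finset.range P, cjf ρ (h ^ j) f s = ρ s R - R) :
    ∀ s ∈ SL, ∃ j : ℕ, f s = j • T := by
  have hm : ∀ j : ℕ, l • (j • T) = 0 := fun j => by rw [smul_comm, hTl, smul_zero]
  have he1 : ∀ j : ℕ, e (j • T) = 1 := fun j => (hker _ (hm j)).2 ⟨j, rfl⟩
  have hcj : ∀ s ∈ SL, h⁻¹ * s * h ∈ SL := fun x hx => by
    have := Subgroup.Normal.conj_mem (inferInstance : SL.Normal) x hx h⁻¹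
    rwa [inv_inv] at this
  have hcj1 : ∀ s ∈ SL, e (f (h⁻¹ * s * h)) = e (f s) := by
    intro s hs
    have hu := hcomm s hs
    have e1 : h⁻¹ * s * h = s * (s⁻¹ * h⁻¹ * s * h) := by group
    obtain ⟨j, hj⟩ := (hker _ (htor _ (hSF hu))).1 (h1 _ hu)
    obtain ⟨c, hc⟩ := hst s hs
    have h2 : ρ s (f (s⁻¹ * h⁻¹ * s * h)) = (j * c) • T := by
      rw [hj, map_nsmul, hc, mul_nsmul']
    rw [e1, hf s hs _ (hSF hu), h2, he.add _ (htor s hs) _ (hm _), he1, mul_one]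
  have hcj2 : ∀ j : ℕ, ∀ s ∈ SL, (h ^ j)⁻¹ * s * h ^ j ∈ SL ∧
      e (f ((h ^ j)⁻¹ * s * h ^ j)) = e (f s) := by
    intro j
    induction j with
    | zero =>
      intro s hs
      rw [pow_zero, inv_one, one_mul, mul_one]
      exact ⟨hs, rfl⟩
    | succ j ih =>
      intro s hs
      have e1 : (h ^ (j + 1))⁻¹ * s * h ^ (j + 1) = (h ^ j)⁻¹ * (h⁻¹ * s * h) * h ^ j := by
        rw [pow_succ']
        group
      rw [e1]
      obtain ⟨h2, h3⟩ := ih _ (hcj s hs)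
      exact ⟨h2, h3.trans (hcj1 s hs)⟩
  intro s hs
  refine (hker _ (htor s hs)).1 ?_
  have h2 : ∀ j : ℕ, l • cjf ρ (h ^ j) f s = 0 ∧ e (cjf ρ (h ^ j) f s) = e (f s) := by
    intro j
    obtain ⟨h3, h4⟩ := hcj2 j s hs
    refine ⟨?_, ?_⟩
    · unfold cjf
      rw [← map_nsmul, htor _ h3, map_zero]
    · unfold cjf
      rw [Gn_pow_inv hρ hinv j _ (htor _ h3), h4]
  obtain ⟨-, h4⟩ := Gn_sum hl he P h2
  obtain ⟨j, rfl⟩ := hR
  obtain ⟨c, hc⟩ := hst s hs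
  have h5 : ρ s (j • T) - j • T = (j * c + (l - 1) * j) • T := by
    have h6 : j • T + ((l - 1) * j) • T = 0 := by
      rw [← add_nsmul]
      have h7 : j + (l - 1) * j = j * l := by
        have h8 : 1 + (l - 1) = l := Nat.add_sub_of_le hl.one_le
        calc j + (l - 1) * j = j * (1 + (l - 1)) := by ring
          _ = j * l := by rw [h8]
      rw [h7, mul_nsmul', hTl, smul_zero]
    rw [map_nsmul, hc, add_nsmul, ← mul_nsmul', sub_eq_add_neg, neg_eq_of_add_eq_zero_right h6]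
  rw [hsum s hs, h5, he1] at h4
  exact Gn_cop hl hP h4.symm (he.pow _ (htor s hs))

end H68IW
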