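import Pool.Agent.H68.IW.Df
import Pool.Agent.H68.SS.Fin
import Pool.Agent.H86.T4G.Ed
import Pool.Agent.H73.IS.KVal

/-!
# MP_78d38b IW: the hypotheses on the curve (definitions, no row)
-/

set_option autoImplicit false
open scoped Classical

open WeierstrassCurve IsDedekindDomain NumberField Pool.Agent.H10 Pool.Agent.H11 H78D H68SS H5SW
  H68IM H68TM H68TL

namespace H68IW

/-- `L` is the compositum of `k` and a totally real subfield of the field of the `p ^ n`-th roots of
unity for some `n`. -/
def Lay (p : ℕ) (k L : Type) [Field k] [Field L] [Algebra k L] : Prop :=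
  ∃ (L' : Type) (_ : Field L') (_ : NumberField L') (h : L' →+* L), IsR p L' ∧
    IntermediateField.adjoin k (Set.range h) = ⊤

/-- At the place `w` the curve `W` is semistable; a point with first coordinate `x` does not reduce to
the origin (good reduction) or reduces to the node (multiplicative reduction). -/
def EtAt {N : Type} [Field N] [NumberField N] (W : WeierstrassCurve N) (x : N)
    (w : HeightOneSpectrum (𝓞 N)) : Prop :=
  ∃ C : VariableChange N, (GoodEq w (C • W) ∧ w.valuation N (newX C x) ≤ 1) ∨
    (NodeEq w (C • W) ∧ w.valuation N (newX C x) < 1)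

/-- The coefficients of the equation are integral at the place `v`. -/
def IntEq {k : Type} [Field k] [NumberField k] (v : HeightOneSpectrum (𝓞 k))
    (E : WeierstrassCurve k) : Prop :=
  v.valuation k E.a₁ ≤ 1 ∧ v.valuation k E.a₂ ≤ 1 ∧ v.valuation k E.a₃ ≤ 1 ∧
    v.valuation k E.a₄ ≤ 1 ∧ v.valuation k E.a₆ ≤ 1

/-- After a change of variables over the subfield of `N` generated over `k` by the `l`-th roots of
unity the equation of `E` is integral at the place `w` of `N`, and a point with first coordinate `x`
reduces to the origin. -/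
def MuAt (l : ℕ) {k N : Type} [Field k] [Field N] [NumberField N] [Algebra k N]
    (E : WeierstrassCurve k) (x : N) (w : HeightOneSpectrum (𝓞 N)) : Prop :=
  ∃ C : VariableChange (IntermediateField.adjoin k {z : N | z ^ l = 1}),
    IntEq w (C.map (algebraMap (IntermediateField.adjoin k {z : N | z ^ l = 1}) N) •
      E.map (algebraMap k N)) ∧
    1 < w.valuation N
      (newX (C.map (algebraMap (IntermediateField.adjoin k {z : N | z ^ l = 1}) N)) x)

/-- The curve `E` over `k` has a point `(x, y)` of order dividing `l` over the field `N` of the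
`f`-th roots of unity over `k`; the group generated by the point is stable under the Galois group of
`N / k`, and complex conjugation maps the point to its negative. Above the places in `S`, which are
above `l`, the condition `MuAt` holds: after a change of variables the point reduces to the origin;
above all other places above `l` the condition `EtAt` holds. -/
def IwPoint (l f : ℕ) {k : Type} [Field k] [NumberField k] (E : WeierstrassCurve k)
    (S : Finset (HeightOneSpectrum (𝓞 k))) : Prop :=
  (∀ v ∈ S, (l : 𝓞 k) ∈ v.asIdeal) ∧
  ∃ (N : Type) (_ : Field N) (_ : NumberField N) (_ : Algebra k N)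
    (_ : IsCyclotomicExtension {f} k N) (J : N ≃ₐ[k] N) (x y : N)
    (h : (E.map (algebraMap k N)).toAffine.Nonsingular x y),
    IsCC (J : N ≃+* N) ∧ l • Affine.Point.some x y h = 0 ∧
    H86G.gp (V := E) rfl J (Affine.Point.some x y h) = -Affine.Point.some x y h ∧
    (∀ g : N ≃ₐ[k] N, ∃ c : ℕ,
      H86G.gp (V := E) rfl g (Affine.Point.some x y h) = c • Affine.Point.some x y h) ∧
    ∀ 𝔫 : HeightOneSpectrum (𝓞 N), (l : 𝓞 N) ∈ 𝔫.asIdeal →
      (H73IS.below k 𝔫 ∈ S ∧ MuAt l E x 𝔫) ∨
      (H73IS.below k 𝔫 ∉ S ∧ EtAt (E.map (algebraMap k N)) x 𝔫)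

end H68IW
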