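import Pool.Agent.H78.TD.Kd
import Pool.Agent.H86.T4G.Gx

/-!
ROW Kb (Kummer theory over an intermediate field `B`; about 200 lines; uses only the STATEMENTS of TD/Ka, TD/Ga, TD/Gc).  PROOF.  `Ω` is the closure of `F`, `ρ = act (inv_up hV)`.
(1) `kumB`: as `H78D.kum` (Pool/Agent/H78/TD/Ka.lean) with `B` for `F`: `Pool.Agent.H11.kummer` with `k := B`, `kb := Ω` (the closure of `F` is an algebraic closure of `B`: instances of Pool/Agent/H10/Func5.lean `isAlg_closure`, `isAlgClosure_closure` with `K := B`, `L := F`), and `memB`: an element of `Ω` fixed by `SA K B Ω` is in `B` (InfiniteGalois.mem_bot_iff_fixed with `k := B`; an automorphism over `B` is `K`-linear: `σ.restrictScalars K`,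
 needs IsScalarTower K B Ω).
(2) `eigB`: let `δ : B ≃ₐ[L] B`, `gp hVB δ TB = c • TB`, `δ ζ = ζ ^ w`, `c * n ≡ w`. `δh ∈ SA K L Ω` extends `δ` (lift `δ` to `Ω` over `K`: AlgEquiv.liftNormal, as `exists_lift`). `ρ δh (tp W T) = c • tp W T` (pm_pm, pm_congr through `pm (algebraMap B F) hBF TB = T`). For `s ∈ SA K B Ω`: `s' := δh⁻¹ * s * δh ∈ SA K B Ω` (`B / L` is normal by DG.gal: `δh⁻¹` maps `B` to `B`).
 `cjf_inner` (S = SA K L Ω, t = δh): `ρ δh (f s') = f s + (ρ s (f δh) - f δh) = f s` (`f δh` is a multiple of `tp W T`, fixed by `s`). `f s' = a • tp`, so `f s = (c * a) • tp`. `s (δh r) = δh (s' r) = δh (b (f s') * r) = (algebraMap ζ) ^ (w * a) * δh r`, and `s (r ^ n) = (algebraMap ζ) ^ (c * a * n) * r ^ n`; `w * a ≡ c * a * n` modulo `l`.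
 So `s` fixes `δh r / r ^ n` (`r ≠ 0`), which is `algebraMap y` with `y : B` (memB), and `δ x = x ^ n * y ^ l` (injectivity of `B → Ω`).
(3) `normB`: `h` maps `B` to `B` (`B / K` normal: `hh (algebraMap B Ω z) = algebraMap B Ω (hh.restrictNormal B z)`), `(hh ^ j)⁻¹ * s * hh ^ j ∈ SA K B Ω` for `s ∈ SA K B Ω` (SA_normal for `B`). As in `H78D.norm_pow`: `s ((hh ^ j) r) = b (f ((hh ^ j)⁻¹ * s * hh ^ j)) * (hh ^ j) r` (`hh` fixes the `l`-th roots of unity). `prod_pair` (Gc.lean) with `S = SA K B Ω`, `R = j₀ • tp W T` (fixed by `s`, so the right side of the sum is zero)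
 gives `∏ j < P, b (f ((hh ^ j)⁻¹ * s * hh ^ j)) = 1`. So `r' := ∏ j < P, (hh ^ j) r` is fixed by `SA K B Ω`, `r' = algebraMap y`, and `r' ^ l = ∏ (hh ^ j) (algebraMap B Ω x)`, so the product of the `g ^ j x` is `y ^ l`, where `g := hh.restrictNormal B`.
-/

set_option autoImplicit false
open scoped Classical

open WeierstrassCurve IsDedekindDomain NumberField Pool.Agent.H10 Pool.Agent.H11 H78D

namespace H68IW

theorem Kb_mem {K B F : Type} [Field K] [NumberField K] [Field B] [NumberField B] [Field F]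
    [NumberField F] [Algebra K B] [Algebra K F] [Algebra B F] [IsScalarTower K B F]
    (x : AlgebraicClosure F) (hx : ∀ σ ∈ SA K B (AlgebraicClosure F), σ x = x) :
    ∃ y : B, algebraMap B (AlgebraicClosure F) y = x := by
  have hc : IsAlgClosure B (AlgebraicClosure F) := isAlgClosure_closure
  have hn : Normal B (AlgebraicClosure F) := IsAlgClosure.normal B (AlgebraicClosure F)
  have hs : Algebra.IsSeparable B (AlgebraicClosure F) := inferInstance
  have hg : IsGalois B (AlgebraicClosure F) := { }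
  have h1 := (InfiniteGalois.mem_bot_iff_fixed (k := B) x).mpr (fun σ =>
    hx (σ.restrictScalars K) (fun z => σ.commutes z))
  obtain ⟨c, hc⟩ := IntermediateField.mem_bot.mp h1
  exact ⟨c, hc⟩

theorem kumB {K B F : Type} [Field K] [NumberField K] [Field B] [NumberField B] [Field F]
    [NumberField F] [Algebra K B] [Algebra K F] [Algebra B F] [IsScalarTower K B F] {l : ℕ}
    (hl : l ≠ 0)
    (ψ : (AlgebraicClosure F ≃ₐ[K] AlgebraicClosure F) → AlgebraicClosure F)
    (h1 : ∀ σ ∈ SA K B (AlgebraicClosure F), ψ σ ^ l = 1)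
    (h2 : ∀ σ ∈ SA K B (AlgebraicClosure F), ∀ τ ∈ SA K B (AlgebraicClosure F),
      ψ (σ * τ) = ψ σ * ψ τ)
    (h3 : ∃ S : Finset (AlgebraicClosure F), ∀ σ ∈ SA K B (AlgebraicClosure F),
      (∀ x ∈ S, σ x = x) → ψ σ = 1)
    (hμ : ∀ z : AlgebraicClosure F, z ^ l = 1 → ∃ y : B, algebraMap B (AlgebraicClosure F) y = z) :
    ∃ (r : AlgebraicClosure F) (x : B), r ≠ 0 ∧ x ≠ 0 ∧ r ^ l = algebraMap B (AlgebraicClosure F) x ∧
      ∀ σ ∈ SA K B (AlgebraicClosure F), σ r = ψ σ * r := by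
  have hc : IsAlgClosure B (AlgebraicClosure F) := isAlgClosure_closure
  have hn : Normal B (AlgebraicClosure F) := IsAlgClosure.normal B (AlgebraicClosure F)
  have hs : Algebra.IsSeparable B (AlgebraicClosure F) := inferInstance
  have hg : IsGalois B (AlgebraicClosure F) := { }
  have hm : ∀ σ : AlgebraicClosure F ≃ₐ[B] AlgebraicClosure F,
      σ.restrictScalars K ∈ SA K B (AlgebraicClosure F) := fun σ z => σ.commutes z
  have hne : ∀ σ ∈ SA K B (AlgebraicClosure F), ψ σ ≠ 0 := by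
    intro σ hσ h0
    have h4 := h1 σ hσ
    rw [h0, zero_pow hl] at h4
    exact zero_ne_one h4
  let χ : (AlgebraicClosure F ≃ₐ[B] AlgebraicClosure F) → (AlgebraicClosure F)ˣ := fun σ =>
    Units.mk0 (ψ (σ.restrictScalars K)) (hne _ (hm σ))
  have hχ : ∀ σ, ((χ σ : (AlgebraicClosure F)ˣ) : AlgebraicClosure F) = ψ (σ.restrictScalars K) :=
    fun _ => rfl
  obtain ⟨S, hS⟩ := h3
  let M₀ : IntermediateField B (AlgebraicClosure F) :=
    IntermediateField.adjoin B (S : Set (AlgebraicClosure F))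
  have hfin : FiniteDimensional B M₀ :=
    IntermediateField.finiteDimensional_adjoin (fun x _ => Algebra.IsIntegral.isIntegral x)
  obtain ⟨r, hr0, hr⟩ := kummer χ (fun σ τ => by
      apply Units.ext
      rw [Units.val_mul, hχ, hχ, hχ, ← h2 _ (hm σ) _ (hm τ)]
      rfl)
    (fun σ τ => by
      rw [hχ]
      obtain ⟨y, hy⟩ := hμ _ (h1 _ (hm τ))
      rw [← hy, σ.commutes])
    M₀ (fun σ hσ => by
      apply Units.ext
      rw [hχ, Units.val_one]
      exact hS _ (hm σ) (fun x hx => hσ x (IntermediateField.subset_adjoin B _ hx)))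
  have hr' : ∀ σ ∈ SA K B (AlgebraicClosure F), σ r = ψ σ * r := by
    intro σ hσ
    exact hr (toL σ hσ)
  have hrl : ∀ σ ∈ SA K B (AlgebraicClosure F), σ (r ^ l) = r ^ l := by
    intro σ hσ
    rw [map_pow, hr' σ hσ, mul_pow, h1 σ hσ, one_mul]
  obtain ⟨d, hd⟩ := Kb_mem (K := K) (B := B) (r ^ l) hrl
  refine ⟨r, d, hr0, ?_, hd.symm, hr'⟩
  rintro rfl
  rw [map_zero] at hd
  exact pow_ne_zero l hr0 hd.symm

section

variable {K L B F : Type} [Field K] [NumberField K] [Field L] [NumberField L] [Field B]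
  [NumberField B] [Field F] [NumberField F] [Algebra K L] [Algebra K B] [Algebra K F] [Algebra L B]
  [Algebra L F] [Algebra B F] [IsScalarTower K L F] [IsScalarTower K L B] [IsScalarTower K B F]
  [IsScalarTower L B F] {V : WeierstrassCurve K} {V' : WeierstrassCurve L}
  {WB : WeierstrassCurve B} {W : WeierstrassCurve F}

theorem eigB [Normal K L] (hV : V.map (algebraMap K F) = W) (hVB : V'.map (algebraMap L B) = WB)
    (hBF : WB.map (algebraMap B F) = W) {l : ℕ} {TB : WB.toAffine.Point} {T : W.toAffine.Point}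
    {ζ : B} (H : H86G.DG l hVB TB ζ) (hT : pm (algebraMap B F) hBF TB = T)
    {b : (W.baseChange (AlgebraicClosure F)).toAffine.Point → AlgebraicClosure F}
    (hb : ∀ j : ℕ, b (j • tp W T) = algebraMap B (AlgebraicClosure F) ζ ^ j)
    {f : (AlgebraicClosure F ≃ₐ[K] AlgebraicClosure F) →
      (W.baseChange (AlgebraicClosure F)).toAffine.Point}
    (hf : CocOn (act (inv_up hV)) (SA K L (AlgebraicClosure F)) f)
    (hC : ∀ s ∈ SA K L (AlgebraicClosure F), ∃ j : ℕ, f s = j • tp W T)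
    (hfix : ∀ s ∈ SA K B (AlgebraicClosure F), act (inv_up hV) s (tp W T) = tp W T)
    {r : AlgebraicClosure F} {x : B} (hr : r ≠ 0)
    (hrx : r ^ l = algebraMap B (AlgebraicClosure F) x)
    (hψ : ∀ σ ∈ SA K B (AlgebraicClosure F), σ r = b (f σ) * r) : H86G.Eig l hVB TB ζ x := by
  intro δ c n w hc hw hcn
  have hρ : Rho (act (inv_up hV)) := rho_act (inv_up hV)
  obtain ⟨ρ, hρd⟩ : ∃ ρ, ρ = act (inv_up hV) := ⟨_, rfl⟩
  have hcl : IsAlgClosure L (AlgebraicClosure F) := isAlgClosure_closure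
  have hn : Normal L (AlgebraicClosure F) := IsAlgClosure.normal L (AlgebraicClosure F)
  obtain ⟨δ', hδ'⟩ : ∃ δ' : AlgebraicClosure F ≃ₐ[L] AlgebraicClosure F, ∀ z : B,
      δ' (algebraMap B (AlgebraicClosure F) z) = algebraMap B (AlgebraicClosure F) (δ z) :=
    ⟨AlgEquiv.liftNormal δ (AlgebraicClosure F), fun z => AlgEquiv.liftNormal_commutes δ _ z⟩
  obtain ⟨δh, hδhd⟩ : ∃ δh : AlgebraicClosure F ≃ₐ[K] AlgebraicClosure F,
      ∀ z, δh z = δ' z := ⟨δ'.restrictScalars K, fun z => rfl⟩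
  have hδh : ∀ z : B, δh (algebraMap B (AlgebraicClosure F) z) =
      algebraMap B (AlgebraicClosure F) (δ z) := fun z => by rw [hδhd, hδ']
  have hδL : δh ∈ SA K L (AlgebraicClosure F) := fun x => by
    rw [hδhd]
    exact δ'.commutes x
  have hBΩ : WB.map (algebraMap B (AlgebraicClosure F)) = W.baseChange (AlgebraicClosure F) :=
    map_up hBF
  have ht : tp W T = pm (algebraMap B (AlgebraicClosure F)) hBΩ TB := by
    rw [← hT]
    refine (pm_pm (algebraMap B F) hBF (algebraMap F (AlgebraicClosure F)) rfl TB).trans ?_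
    exact pm_congr _ _ (fun x => (IsScalarTower.algebraMap_apply B F (AlgebraicClosure F) x).symm) TB
  have hρT : act (inv_up hV) δh (tp W T) = c • tp W T := by
    have e1 : act (inv_up hV) δh (tp W T) =
        pm (algebraMap B (AlgebraicClosure F)) hBΩ (H86G.gp hVB δ TB) := by
      rw [ht]
      refine (pm_pm (algebraMap B (AlgebraicClosure F)) hBΩ
        (δh : AlgebraicClosure F →+* AlgebraicClosure F) (inv_up hV δh) TB).trans ?_
      refine Eq.trans ?_ (pm_pm (δ : B →+* B) _ (algebraMap B (AlgebraicClosure F)) hBΩ TB).symm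
      exact pm_congr _ _ (fun x => hδh x) TB
    rw [e1, hc, map_nsmul, ← ht]
  rw [← hρd] at hρT hρ hf hfix
  obtain ⟨t, htd⟩ : ∃ t, t = tp W T := ⟨_, rfl⟩
  rw [← htd] at hρT hb hC hfix
  have hSle : SA K B (AlgebraicClosure F) ≤ SA K L (AlgebraicClosure F) := SA_le
  obtain ⟨z, hz⟩ : ∃ z, z = algebraMap B (AlgebraicClosure F) ζ := ⟨_, rfl⟩
  rw [← hz] at hb
  have hzl : z ^ l = 1 := by rw [hz, ← map_pow, H.prim.pow_eq_one, map_one]
  obtain ⟨j₀, hj₀⟩ := hC δh hδL
  have hconj : ∀ s ∈ SA K B (AlgebraicClosure F), δh⁻¹ * s * δh ∈ SA K B (AlgebraicClosure F) := by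
    intro s hs y
    show δh⁻¹ (s (δh (algebraMap B (AlgebraicClosure F) y))) = _
    rw [hδh, hs (δ y), ← hδh]
    exact δh.symm_apply_apply _
  have hmul : ∀ s : AlgebraicClosure F ≃ₐ[K] AlgebraicClosure F,
      s (δh r) = δh ((δh⁻¹ * s * δh) r) := by
    intro s
    show s (δh r) = δh (δh.symm (s (δh r)))
    rw [δh.apply_symm_apply]
  have hq : ∀ s ∈ SA K B (AlgebraicClosure F), s (δh r / r ^ n) = δh r / r ^ n := by
    intro s hs
    have hs' := hconj s hs
    obtain ⟨a, ha⟩ := hC _ (hSle hs')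
    have h1 : ρ δh (f (δh⁻¹ * s * δh)) = f s + (ρ s (f δh) - f δh) :=
      cjf_inner hρ hf hδL (hSle hs)
    have h2 : ρ s (f δh) - f δh = 0 := by
      rw [hj₀, map_nsmul, hfix s hs, sub_self]
    rw [h2, add_zero, ha, map_nsmul, hρT, ← mul_smul] at h1
    have h3 : s (δh r) = z ^ (w * a) * δh r := by
      rw [hmul, hψ _ hs', ha, hb, map_mul, map_pow, hz, hδh, hw, map_pow, ← pow_mul]
    have h4 : s (r ^ n) = z ^ (a * c * n) * r ^ n := by
      rw [map_pow, hψ s hs, ← h1, hb, mul_pow, ← pow_mul]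
    have h5 : z ^ (w * a) = z ^ (a * c * n) := by
      have h6 : w * a ≡ a * c * n [MOD l] := by
        have h7 := (hcn.symm).mul_right a
        have h8 : c * n * a = a * c * n := by ring
        rwa [h8] at h7
      rw [pow_eq_pow_mod (w * a) hzl, pow_eq_pow_mod (a * c * n) hzl, h6]
    have hz0 : z ≠ 0 := by
      rintro h0
      rw [h0, zero_pow H.prime.ne_zero] at hzl
      exact zero_ne_one hzl
    rw [map_div₀, h3, h4, h5]
    exact mul_div_mul_left _ _ (pow_ne_zero _ hz0)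
  obtain ⟨y, hy⟩ := Kb_mem (K := K) (B := B) _ hq
  refine ⟨y, ?_⟩
  apply (algebraMap B (AlgebraicClosure F)).injective
  rw [← hδh, ← hrx, map_mul, map_pow, map_pow, map_pow, ← hrx, hy, div_pow, ← pow_mul, ← pow_mul,
    mul_comm l n, mul_div_cancel₀ _ (pow_ne_zero _ hr)]

theorem normB [Normal K B] (hV : V.map (algebraMap K F) = W) {l P : ℕ} (hl : l.Prime)
    {T : W.toAffine.Point}
    {b : (W.baseChange (AlgebraicClosure F)).toAffine.Point → AlgebraicClosure F}
    (hb : Pr l {x | ∃ j : ℕ, x = j • tp W T} b)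
    {hh : AlgebraicClosure F ≃ₐ[K] AlgebraicClosure F}
    (hfix : ∀ s ∈ SA K B (AlgebraicClosure F), act (inv_up hV) s (tp W T) = tp W T)
    (hhT : Kp (act (inv_up hV)) {x | ∃ j : ℕ, x = j • tp W T} b hh)
    (hhμ : ∀ z : AlgebraicClosure F, z ^ l = 1 → hh z = z)
    {f : (AlgebraicClosure F ≃ₐ[K] AlgebraicClosure F) →
      (W.baseChange (AlgebraicClosure F)).toAffine.Point}
    (hC : ∀ s ∈ SA K B (AlgebraicClosure F), ∃ j : ℕ, f s = j • tp W T)
    {R : (W.baseChange (AlgebraicClosure F)).toAffine.Point} (hR : ∃ j : ℕ, R = j • tp W T)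
    (hnew : ∀ s ∈ SA K B (AlgebraicClosure F),
      ∑ j ∈ Finset.range P, cjf (act (inv_up hV)) (hh ^ j) f s = act (inv_up hV) s R - R)
    {r : AlgebraicClosure F} {x : B} (hrx : r ^ l = algebraMap B (AlgebraicClosure F) x)
    (hψ : ∀ σ ∈ SA K B (AlgebraicClosure F), σ r = b (f σ) * r) :
    ∃ (g : B ≃ₐ[K] B) (y : B), (∀ z : B, hh (algebraMap B (AlgebraicClosure F) z) =
      algebraMap B (AlgebraicClosure F) (g z)) ∧ ∏ j ∈ Finset.range P, (g ^ j) x = y ^ l := by
  have hρ : Rho (act (inv_up hV)) := rho_act (inv_up hV)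
  have hnor : (SA K B (AlgebraicClosure F)).Normal := SA_normal
  obtain ⟨g, hg⟩ : ∃ g : B ≃ₐ[K] B, ∀ z : B, hh (algebraMap B (AlgebraicClosure F) z) =
      algebraMap B (AlgebraicClosure F) (g z) :=
    ⟨AlgEquiv.restrictNormal hh B, fun z => (AlgEquiv.restrictNormal_commutes hh B z).symm⟩
  have hinv : ∀ s ∈ SA K B (AlgebraicClosure F),
      Kp (act (inv_up hV)) {x | ∃ j : ℕ, x = j • tp W T} b s := by
    intro s hs x hx
    obtain ⟨j, rfl⟩ := hx
    have h1 : act (inv_up hV) s (j • tp W T) = j • tp W T := by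
      rw [map_nsmul, hfix s hs]
    rw [h1]
    exact ⟨⟨j, rfl⟩, rfl⟩
  have hprod : ∀ s ∈ SA K B (AlgebraicClosure F),
      ∏ j ∈ Finset.range P, b (f ((hh ^ j)⁻¹ * s * hh ^ j)) = 1 := fun s hs =>
    prod_pair hρ hl.ne_zero hb hC hinv hhT hR hs (hnew s hs)
  have hpow : ∀ (j : ℕ) (x : B), (hh ^ j) (algebraMap B (AlgebraicClosure F) x) =
      algebraMap B (AlgebraicClosure F) ((g ^ j) x) := by
    intro j
    induction j with
    | zero => intro x; rfl
    | succ j ih =>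
      intro x
      rw [pow_succ', pow_succ']
      show hh ((hh ^ j) (algebraMap B (AlgebraicClosure F) x)) =
        algebraMap B (AlgebraicClosure F) (g ((g ^ j) x))
      rw [ih, hg]
  have hfixj : ∀ (j : ℕ), ∀ σ ∈ SA K B (AlgebraicClosure F), (hh ^ j) (b (f σ)) = b (f σ) := by
    intro j σ hσ
    induction j with
    | zero => rfl
    | succ j ih =>
      rw [pow_succ']
      show hh ((hh ^ j) (b (f σ))) = b (f σ)
      rw [ih]
      exact hhμ _ (hb.pow _ (hC σ hσ))
  have hconj : ∀ (j : ℕ), ∀ s ∈ SA K B (AlgebraicClosure F),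
      (hh ^ j)⁻¹ * s * hh ^ j ∈ SA K B (AlgebraicClosure F) := by
    intro j s hs
    have h1 := hnor.conj_mem s hs ((hh ^ j)⁻¹)
    rwa [inv_inv] at h1
  have hs1 : ∀ (j : ℕ), ∀ s ∈ SA K B (AlgebraicClosure F),
      s ((hh ^ j) r) = b (f ((hh ^ j)⁻¹ * s * hh ^ j)) * (hh ^ j) r := by
    intro j s hs
    have h1 : s * hh ^ j = hh ^ j * ((hh ^ j)⁻¹ * s * hh ^ j) := by group
    have h2 : s ((hh ^ j) r) = (hh ^ j) (((hh ^ j)⁻¹ * s * hh ^ j) r) := by
      show (s * hh ^ j) r = (hh ^ j * ((hh ^ j)⁻¹ * s * hh ^ j)) r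
      rw [← h1]
    rw [h2, hψ _ (hconj j s hs), map_mul, hfixj j _ (hconj j s hs)]
  obtain ⟨y, hy⟩ := Kb_mem (K := K) (B := B) (∏ j ∈ Finset.range P, (hh ^ j) r) (by
    intro s hs
    rw [map_prod, Finset.prod_congr rfl fun j _ => hs1 j s hs, Finset.prod_mul_distrib, hprod s hs,
      one_mul])
  refine ⟨g, y, hg, ?_⟩
  apply (algebraMap B (AlgebraicClosure F)).injective
  rw [map_pow, hy, map_prod, ← Finset.prod_pow]
  refine Finset.prod_congr rfl fun j _ => ?_
  rw [← hpow, ← map_pow, hrx]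

end

end H68IW
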