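import Pool.Agent.H68.IW.Dg
import Pool.Agent.H78.TD.Ta

/-!
ROW Kc (about 120 lines; uses only the statements of TD/Ta, TD/Ga, TD/Ka).  PROOF.  `Ω` the closure of `F`, `ρ = act (inv_up hV)`, `rho_act`.
(1) `sc_sub`: coc: cocOn_sub. cont: the union of the two finite sets. tor: smul_sub. loc: the functions `τ ↦ f (τ.restrictScalars K)` are in the subgroup `ShaZ F W` (sc_coc, loc), so is the difference (sub_mem), take `.2` (as in the proof of `sc_conj` in Pool/Agent/H78/TD/Ta.lean).
(2) `sc_cob`: coc: `ρ (s * t) S - S = (ρ s S - S) + ρ s (ρ t S - S)`. cont: `S` is fixed by all `σ` which fix a finite set (the coordinates of `S`; for `S = some x y` take `{x, y}`; `act (inv_up hV) σ (some x y) = some (σ x) (σ y)` : pm_some); together with the set of `f`: then `f σ + (ρ σ S - S) = 0`. tor: `l • ρ s S = ρ s (l • S) = 0`.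
 loc: `τ ↦ ρ τ S - S` is a coboundary over `F` (isCobound_iff, `act (inv_up hV) (τ.restrictScalars K) = act (inv_bc F W) τ` is rfl, compare act_up_eq in Pool/Agent/H11/Conj.lean and `sc_coc`), so it is a locally trivial cocycle (ShaZ: a coboundary is locally trivial: search in Pool/Agent/H10, H11: `IsCobound.isLocTriv` or similar, used in the definition of Sha), then add_mem in ShaZ F W.
(3) `new_sub`: `cjf ρ g (fun s => f s - f' s) s = cjf ρ g f s - cjf ρ g f' s` (map_sub), Finset.sum_sub_distrib.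

-/

set_option autoImplicit false
open scoped Classical

open WeierstrassCurve IsDedekindDomain NumberField Pool.Agent.H10 Pool.Agent.H11 H78D

namespace H68IW

variable {K L F : Type} [Field K] [NumberField K] [Field L] [NumberField L] [Field F]
  [NumberField F] [Algebra K L] [Algebra K F] [Algebra L F] [IsScalarTower K L F] [Normal K L]
  [Normal K F] {V : WeierstrassCurve K} {W : WeierstrassCurve F}

theorem sc_sub {hV : V.map (algebraMap K F) = W} {l : ℕ}
    {f f' : (AlgebraicClosure F ≃ₐ[K] AlgebraicClosure F) →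
      (W.baseChange (AlgebraicClosure F)).toAffine.Point} (hf : SC l L hV f)
    (hf' : SC l L hV f') : SC l L hV (fun s => f s - f' s) := by
  refine ⟨cocOn_sub hf.coc hf'.coc, ?_, ?_, ?_⟩
  · obtain ⟨S, hS⟩ := hf.cont
    obtain ⟨S', hS'⟩ := hf'.cont
    refine ⟨S ∪ S', fun σ hσ hx => ?_⟩
    have h1 : f σ = 0 := hS σ hσ fun x hxS => hx x (Finset.mem_union_left _ hxS)
    have h2 : f' σ = 0 := hS' σ hσ fun x hxS => hx x (Finset.mem_union_right _ hxS)
    change f σ - f' σ = 0
    rw [h1, h2, sub_zero]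
  · intro σ hσ
    change l • (f σ - f' σ) = 0
    rw [nsmul_sub, hf.tor σ hσ, hf'.tor σ hσ, sub_zero]
  · have h1 : (fun τ : AlgebraicClosure F ≃ₐ[F] AlgebraicClosure F => f (τ.restrictScalars K)) ∈
        ShaZ F W := ⟨sc_coc hf, hf.loc⟩
    have h2 : (fun τ : AlgebraicClosure F ≃ₐ[F] AlgebraicClosure F => f' (τ.restrictScalars K)) ∈
        ShaZ F W := ⟨sc_coc hf', hf'.loc⟩
    have h3 := (ShaZ F W).sub_mem h1 h2
    exact h3.2

omit [Normal K L] [Normal K F] [NumberField L] [Algebra K L] [Algebra L F]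
  [IsScalarTower K L F] in
private theorem Kc_fix {hV : V.map (algebraMap K F) = W}
    (S : (W.baseChange (AlgebraicClosure F)).toAffine.Point) :
    ∃ T : Finset (AlgebraicClosure F), ∀ σ : AlgebraicClosure F ≃ₐ[K] AlgebraicClosure F,
      (∀ x ∈ T, σ x = x) → act (inv_up hV) σ S = S := by
  cases S with
  | zero =>
    refine ⟨∅, fun σ _ => ?_⟩
    exact map_zero (act (inv_up hV) σ)
  | some x y h =>
    refine ⟨{x, y}, fun σ hσ => ?_⟩
    have hx : σ x = x := hσ x (Finset.mem_insert_self _ _)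
    have hy : σ y = y := hσ y (Finset.mem_insert_of_mem (Finset.mem_singleton_self _))
    unfold Pool.Agent.H10.act
    rw [pm_some]
    simp only [Affine.Point.some.injEq]
    exact ⟨hx, hy⟩

theorem sc_cob {hV : V.map (algebraMap K F) = W} {l : ℕ}
    {f : (AlgebraicClosure F ≃ₐ[K] AlgebraicClosure F) →
      (W.baseChange (AlgebraicClosure F)).toAffine.Point} (hf : SC l L hV f)
    {S : (W.baseChange (AlgebraicClosure F)).toAffine.Point} (hS : l • S = 0) :
    SC l L hV (fun s => f s + (act (inv_up hV) s S - S)) := by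
  have hρ := rho_act (inv_up hV)
  refine ⟨?_, ?_, ?_, ?_⟩
  · intro s hs t ht
    change f (s * t) + (act (inv_up hV) (s * t) S - S) =
      f s + (act (inv_up hV) s S - S) + act (inv_up hV) s (f t + (act (inv_up hV) t S - S))
    rw [hf.coc s hs t ht, hρ.mul, map_add, map_sub]
    abel
  · obtain ⟨T, hT⟩ := hf.cont
    obtain ⟨T', hT'⟩ := Kc_fix (hV := hV) S
    refine ⟨T ∪ T', fun σ hσ hx => ?_⟩
    have h1 : f σ = 0 := hT σ hσ fun x hxS => hx x (Finset.mem_union_left _ hxS)
    have h2 : act (inv_up hV) σ S = S := hT' σ fun x hxS => hx x (Finset.mem_union_right _ hxS)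
    change f σ + (act (inv_up hV) σ S - S) = 0
    rw [h1, h2, sub_self, add_zero]
  · intro σ hσ
    change l • (f σ + (act (inv_up hV) σ S - S)) = 0
    rw [nsmul_add, nsmul_sub, ← map_nsmul, hf.tor σ hσ, hS, map_zero, sub_zero, add_zero]
  · have h1 : (fun τ : AlgebraicClosure F ≃ₐ[F] AlgebraicClosure F => f (τ.restrictScalars K)) ∈
        ShaZ F W := ⟨sc_coc hf, hf.loc⟩
    have h2 : (fun τ : AlgebraicClosure F ≃ₐ[F] AlgebraicClosure F =>
        act (inv_bc F W) τ S - S) ∈ ShaZ F W := by
      apply shaB_le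
      change IsCobound F W _
      rw [Pool.Agent.H10.isCobound_iff]
      exact ⟨S, fun σ => rfl⟩
    have h3 := (ShaZ F W).add_mem h1 h2
    exact h3.2

theorem new_sub {hV : V.map (algebraMap K F) = W}
    {hh : AlgebraicClosure F ≃ₐ[K] AlgebraicClosure F} {P : ℕ}
    {R R' : (W.baseChange (AlgebraicClosure F)).toAffine.Point}
    {f f' : (AlgebraicClosure F ≃ₐ[K] AlgebraicClosure F) →
      (W.baseChange (AlgebraicClosure F)).toAffine.Point} (hf : New L hV hh P R f)
    (hf' : New L hV hh P R' f') : New L hV hh P (R - R') (fun s => f s - f' s) := by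
  intro s hs
  have h1 : ∀ j, cjf (act (inv_up hV)) (hh ^ j) (fun s => f s - f' s) s =
      cjf (act (inv_up hV)) (hh ^ j) f s - cjf (act (inv_up hV)) (hh ^ j) f' s := by
    intro j
    unfold cjf
    rw [map_sub]
  rw [Finset.sum_congr rfl fun j _ => h1 j, Finset.sum_sub_distrib, hf s hs, hf' s hs, map_sub]
  abel

end H68IW
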