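import Pool.Agent.H68.IW.Df
import Pool.Agent.H73.IS.KVal

/-! ROW Kv (valuations). -/

set_option autoImplicit false
open scoped Classical

open WithZero WeierstrassCurve IsDedekindDomain NumberField Pool.Agent.H10 Pool.Agent.H11 H78D

namespace H68IW

theorem val_pow {k L : Type} [Field k] [NumberField k] [Field L] [NumberField L] [Algebra k L]
    (w : HeightOneSpectrum (𝓞 L)) : ∃ e : ℕ, e ≠ 0 ∧
    ∀ x : k, w.valuation L (algebraMap k L x) = (H73IS.below k w).valuation k x ^ e := by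
  have : w.asIdeal.LiesOver (H73IS.below k w).asIdeal := ⟨rfl⟩
  refine ⟨(H73IS.below k w).asIdeal.ramificationIdx' w.asIdeal, ?_,
    fun x => (HeightOneSpectrum.valuation_liesOver L (H73IS.below k w) w x).symm⟩
  exact Ideal.IsDedekindDomain.ramificationIdx'_ne_zero_of_liesOver w.asIdeal
    (H73IS.below k w).ne_bot

theorem exists_above {L F : Type} [Field L] [NumberField L] [Field F] [NumberField F]
    [Algebra L F] (w : HeightOneSpectrum (𝓞 L)) :
    ∃ w' : HeightOneSpectrum (𝓞 F), H73IS.below L w' = w := by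
  obtain ⟨Q, hQ, hQv⟩ := Ideal.exists_ideal_over_prime_of_isIntegral_of_isDomain (S := 𝓞 F)
    w.asIdeal (by
      rw [(RingHom.injective_iff_ker_eq_bot _).1
        (FaithfulSMul.algebraMap_injective (𝓞 L) (𝓞 F))]
      exact bot_le)
  refine ⟨⟨Q, hQ, ?_⟩, ?_⟩
  · rintro rfl
    apply w.ne_bot
    rw [← hQv]
    exact Ideal.comap_bot_of_injective _ (FaithfulSMul.algebraMap_injective (𝓞 L) (𝓞 F))
  · apply HeightOneSpectrum.ext
    exact hQv

theorem valB {K Km B F : Type} [Field K] [NumberField K] [Field Km] [NumberField Km] [Field B]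
    [NumberField B] [Field F] [NumberField F] [Algebra K B] [Algebra Km F] [Algebra B F] {D : ℤ}
    (hfix : H68TL.FixP D Km F) {h : F ≃ₐ[Km] F} {l P : ℕ} (hl : l.Prime) (hP : ¬ l ∣ P)
    {g : B ≃ₐ[K] B} (hg : ∀ z : B, h (algebraMap B F z) = algebraMap B F (g z)) {x y : B}
    (hx : x ≠ 0) (hxy : ∏ j ∈ Finset.range P, (g ^ j) x = y ^ l) (𝔓 : HeightOneSpectrum (𝓞 B))
    (hD : (D : 𝓞 B) ∈ 𝔓.asIdeal) : ∃ k : ℤ, 𝔓.valuation B x = exp (l * k) := by
  obtain ⟨w, hw⟩ := exists_above (F := F) 𝔓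
  obtain ⟨e, he, hval⟩ := val_pow (k := B) w
  rw [hw] at hval
  have hDw : (D : 𝓞 F) ∈ w.asIdeal := by
    rw [← hw] at hD
    have h1 := (H73IS.mem_below w (D : 𝓞 B)).1 hD
    rwa [map_intCast] at h1
  have h1 : ∀ z : B, 𝔓.valuation B (g z) = 𝔓.valuation B z := by
    intro z
    have h2 : 𝔓.valuation B (g z) ^ e = 𝔓.valuation B z ^ e := by
      rw [← hval, ← hval, ← hg, hfix w hDw h]
    exact (pow_left_inj₀ zero_le zero_le he).1 h2
  have h2 : ∀ (j : ℕ) (z : B), 𝔓.valuation B ((g ^ j) z) = 𝔓.valuation B z := by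
    intro j
    induction j with
    | zero =>
      intro z
      rw [pow_zero, AlgEquiv.one_apply]
    | succ j ih =>
      intro z
      rw [pow_succ, AlgEquiv.mul_apply, ih, h1]
  have h3 := congrArg (𝔓.valuation B) hxy
  rw [map_prod, Finset.prod_congr rfl (fun j _ => h2 j x), Finset.prod_const, Finset.card_range,
    map_pow] at h3
  have h4 := congrArg log h3
  rw [log_pow, log_pow, nsmul_eq_mul, nsmul_eq_mul] at h4
  have h5 : (l : ℤ) ∣ ((P : ℕ) : ℤ) * log (𝔓.valuation B x) := ⟨_, h4⟩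
  rcases (Nat.prime_iff_prime_int.1 hl).dvd_or_dvd h5 with h6 | h6
  · exact absurd (Int.natCast_dvd_natCast.1 h6) hP
  · obtain ⟨k, hk⟩ := h6
    refine ⟨k, ?_⟩
    rw [← hk, exp_log ((Valuation.ne_zero_iff _).2 hx)]

theorem unrk_mul {F : Type} [Field F] [NumberField F] {l : ℕ} {d d' z : F} (hz : z ≠ 0)
    (hd : d' = z ^ l * d) {w : HeightOneSpectrum (𝓞 F)} (h : UnrK l F d' w) : UnrK l F d w := by
  intro N _ _ _ _ r hr P hP hP0 hPw u hu hI
  have h1 : (algebraMap F N z * r) ^ l = algebraMap F N d' := by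
    rw [hd, map_mul, map_pow, mul_pow, hr]
  have h2 := h N (algebraMap F N z * r) h1 P hP hP0 hPw u hu hI
  rw [map_mul, hu z] at h2
  exact mul_left_cancel₀ ((map_ne_zero _).2 hz) h2

theorem below_trans {L B F : Type} [Field L] [NumberField L] [Field B] [NumberField B] [Field F]
    [NumberField F] [Algebra L B] [Algebra L F] [Algebra B F] [IsScalarTower L B F]
    (w : HeightOneSpectrum (𝓞 F)) : H73IS.below L (H73IS.below B w) = H73IS.below L w := by
  apply HeightOneSpectrum.ext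
  ext x
  rw [H73IS.mem_below, H73IS.mem_below, H73IS.mem_below]
  have h1 : algebraMap (𝓞 L) (𝓞 F) x = algebraMap (𝓞 B) (𝓞 F) (algebraMap (𝓞 L) (𝓞 B) x) :=
    RingOfIntegers.ext (IsScalarTower.algebraMap_apply L B F (x : L))
  rw [h1]

end H68IW
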