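import Pool.Agent.H68.IW.Kb
import Pool.Agent.H68.IW.Kv
import Pool.Agent.H68.IW.Kc
import Pool.Agent.H68.IW.XPt
import Pool.Agent.H68.IW.Gn

/-!
ROW Ke (assembly, about 130 lines; uses only the STATEMENTS of Kb, Kv, XPt, TD/Ga, TD/Gc, TD/Lg).  PROOF of `exists_kum`.  `Ω` the closure of `F`, `ρ = act (inv_up hV)`, `ζ' := algebraMap B Ω ζ`.
`kumB` (l ≠ 0, ψ σ := b (f σ)): h1: `hb.pow`; h2: `f (σ * τ) = f σ + ρ σ (f τ)` (hf.coc; `SA K B Ω ≤ SA K L Ω` is SA_le for L, B) and `f τ = j • tp`, fixed by `ρ σ` (hfix), so `hb.add`; h3: hf.cont and `b 0 = 1` (as in `H78D.kum_all`, Pool/Agent/H78/TD/Kd.lean); hμ: `z ^ l = 1` gives `z = ζ' ^ i` (IsPrimitiveRoot.eq_pow_of_pow_eq_one, HB.prim mapped by an injective map). This gives `r`, `x`.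
`eigB` gives Eig. `normB` with `hh`: `hhT`: `Kp` from `hb3 hh` and `ρ hh (tp W T) = tp W T` (pt_fixX H hV hh (lift_mem hlift)); `hhμ`: the `l`-th roots of unity come from `Km` (rootsX H), which `hh` fixes (lift_mem hlift). hnew: restrict to `SA K B Ω`. It gives `g`, `y`; `h (algebraMap B F z) = algebraMap B F (g z)` by injectivity of `F → Ω` (hlift, IsScalarTower.algebraMap_apply B F Ω). Then `valB` (H.fixP, H.tow.cop, x ≠ 0).
-/

set_option autoImplicit false
open scoped Classical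

open WeierstrassCurve IsDedekindDomain NumberField Pool.Agent.H10 Pool.Agent.H11 H78D

namespace H68IW

theorem exists_kum {K Km L B F : Type} [Field K] [NumberField K] [Field Km] [NumberField Km]
    [Field L] [NumberField L] [Field B] [NumberField B] [Field F] [NumberField F] [Algebra K L]
    [Algebra K F] [Algebra L F] [IsScalarTower K L F] [Algebra K Km] [Algebra Km F]
    [IsScalarTower K Km F] [Normal K L] [Normal K F] [IsGalois Km F] [Algebra K B] [Algebra L B]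
    [Algebra B F] [IsScalarTower K L B] [IsScalarTower K B F] [IsScalarTower L B F] [Normal K B]
    {V : WeierstrassCurve K} {V' : WeierstrassCurve L} {WB : WeierstrassCurve B}
    {W : WeierstrassCurve F} {l : ℕ} {T : W.toAffine.Point} {h : F ≃ₐ[Km] F} {J : F ≃ₐ[L] F}
    {D : ℤ} (H : DatX l K Km L F W T h J D) (hV : V.map (algebraMap K F) = W)
    (hVB : V'.map (algebraMap L B) = WB) (hBF : WB.map (algebraMap B F) = W)
    {TB : WB.toAffine.Point} {ζ : B} (HB : H86G.DG l hVB TB ζ)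
    (hT : pm (algebraMap B F) hBF TB = T)
    {b : (W.baseChange (AlgebraicClosure F)).toAffine.Point → AlgebraicClosure F}
    (hbj : ∀ j : ℕ, b (j • tp W T) = algebraMap B (AlgebraicClosure F) ζ ^ j)
    (hb : Pr l {x | ∃ j : ℕ, x = j • tp W T} b)
    (hb3 : ∀ σ, act (inv_up hV) σ (tp W T) = tp W T →
      Kp (act (inv_up hV)) {x | ∃ j : ℕ, x = j • tp W T} b σ)
    {hh : AlgebraicClosure F ≃ₐ[K] AlgebraicClosure F}
    (hlift : ∀ x : F, hh (algebraMap F (AlgebraicClosure F) x) =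
      algebraMap F (AlgebraicClosure F) (h x))
    (hfix : ∀ s ∈ SA K B (AlgebraicClosure F), act (inv_up hV) s (tp W T) = tp W T)
    {f : (AlgebraicClosure F ≃ₐ[K] AlgebraicClosure F) →
      (W.baseChange (AlgebraicClosure F)).toAffine.Point} (hf : SC l L hV f)
    (hC : ∀ s ∈ SA K L (AlgebraicClosure F), ∃ j : ℕ, f s = j • tp W T)
    {R : (W.baseChange (AlgebraicClosure F)).toAffine.Point} (hR : ∃ j : ℕ, R = j • tp W T)
    (hnew : New L hV hh (orderOf h) R f) :
    ∃ (r : AlgebraicClosure F) (x : B), r ≠ 0 ∧ x ≠ 0 ∧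
      r ^ l = algebraMap B (AlgebraicClosure F) x ∧
      (∀ σ ∈ SA K B (AlgebraicClosure F), σ r = b (f σ) * r) ∧ H86G.Eig l hVB TB ζ x ∧
      ∀ 𝔓 : HeightOneSpectrum (𝓞 B), (D : 𝓞 B) ∈ 𝔓.asIdeal →
        ∃ k : ℤ, 𝔓.valuation B x = WithZero.exp (l * k) := by
  have hl0 : l ≠ 0 := H.prime.ne_zero
  have hSle : SA K B (AlgebraicClosure F) ≤ SA K L (AlgebraicClosure F) := SA_le
  have hb0 : b 0 = 1 := Gc_zero hl0 hb
  have hval : ∀ s ∈ SA K B (AlgebraicClosure F), ∃ j : ℕ, f s = j • tp W T :=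
    fun s hs => hC s (hSle hs)
  obtain ⟨r, x, hr, hx, hrx, hψ⟩ := kumB (K := K) (B := B) (F := F) hl0 (fun σ => b (f σ))
    (fun σ hσ => hb.pow _ (hval σ hσ))
    (fun σ hσ τ hτ => by
      obtain ⟨j, hj⟩ := hval τ hτ
      have e : act (inv_up hV) σ (f τ) = f τ := by
        rw [hj, map_nsmul, hfix σ hσ]
      show b (f (σ * τ)) = b (f σ) * b (f τ)
      rw [hf.coc σ (hSle hσ) τ (hSle hτ), e, hb.add _ (hval σ hσ) _ (hval τ hτ)])
    (by
      obtain ⟨S, hS⟩ := hf.cont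
      exact ⟨S, fun σ hσ h => by
        show b (f σ) = 1
        rw [hS σ (hSle hσ) h, hb0]⟩)
    (fun z hz => by
      have hne : NeZero l := ⟨hl0⟩
      have h1 : IsPrimitiveRoot (algebraMap B (AlgebraicClosure F) ζ) l :=
        HB.prim.map_of_injective (algebraMap B (AlgebraicClosure F)).injective
      obtain ⟨i, _, hi⟩ := h1.eq_pow_of_pow_eq_one hz
      exact ⟨ζ ^ i, by rw [map_pow, hi]⟩)
  have hEig := eigB hV hVB hBF HB hT hbj hf.coc hC hfix hr hrx hψ
  have hhKm : hh ∈ SA K Km (AlgebraicClosure F) := lift_mem hlift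
  have hhT : Kp (act (inv_up hV)) {x | ∃ j : ℕ, x = j • tp W T} b hh :=
    hb3 hh (pt_fixX H hV hh hhKm)
  have hhμ : ∀ z : AlgebraicClosure F, z ^ l = 1 → hh z = z := by
    intro z hz
    obtain ⟨y, hy⟩ := rootsX H z hz
    rw [← hy]
    exact hhKm y
  obtain ⟨g, y, hg, hxy⟩ := normB (P := orderOf h) hV H.prime hb hfix hhT hhμ hval hR
    (fun s hs => hnew s (hSle hs)) hrx hψ
  refine ⟨r, x, hr, hx, hrx, hψ, hEig, fun 𝔓 hD => ?_⟩
  refine valB (K := K) H.fixP (h := h) H.prime H.tow.cop (g := g) ?_ hx hxy 𝔓 hD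
  intro z
  apply (algebraMap F (AlgebraicClosure F)).injective
  rw [← hlift, ← IsScalarTower.algebraMap_apply B F (AlgebraicClosure F),
    ← IsScalarTower.algebraMap_apply B F (AlgebraicClosure F), hg]

end H68IW
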