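import Pool.Agent.H68.IW.Df
import Pool.Agent.H68.SS.Un
import Pool.Agent.H68.SS.Lx

/-!
MP_78d38b IW: the conditions above `l` at one place (modification of helper20, SS/Un, and helper83, SS/Lx; no row).
-/

set_option autoImplicit false
open scoped Classical

open WeierstrassCurve IsDedekindDomain NumberField Pool.Agent.H10 Pool.Agent.H11 H78D H68SS

namespace H68IW

theorem unr_of_locOw {F : Type} [Field F] [NumberField F] (W : WeierstrassCurve F)
    [W.IsElliptic] {l : ℕ} (hl : l.Prime) (hroot : ∃ z : F, IsPrimitiveRoot z l)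
    {T : W.toAffine.Point} (hT : l • T = 0) (w : HeightOneSpectrum (𝓞 F)) (hE : LocOw l W T w)
    (hw : (l : 𝓞 F) ∈ w.asIdeal) {f : Gam F → Pts W}
    (hf : ∀ σ, ∃ k : ℕ, f σ = k • pm (algebraMap F (AlgebraicClosure F)) rfl T)
    (hloc : IsLocTriv F W f) {r : AlgebraicClosure F} {d : F} (hd : d ≠ 0)
    (hrd : r ^ l = algebraMap F (AlgebraicClosure F) d) (hfix : ∀ σ : Gam F, f σ = 0 → σ r = r) :
    UnrK l F d w := by
  have hint : IsIntegral F r := Algebra.IsIntegral.isIntegral r
  have hfin : FiniteDimensional F (IntermediateField.adjoin F {r}) :=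
    IntermediateField.adjoin.finiteDimensional hint
  let ι : AlgebraicClosure F →ₐ[F] AlgebraicClosure (w.adicCompletion F) := IsAlgClosed.lift
  let TM : (W.baseChange (IntermediateField.adjoin F {r})).toAffine.Point :=
    pm (algebraMap F (IntermediateField.adjoin F {r})) rfl T
  let TT : (W.baseChange (AlgebraicClosure F)).toAffine.Point :=
    pm (algebraMap F (AlgebraicClosure F)) rfl T
  have hTM : (WeierstrassCurve.Affine.Point.map (IntermediateField.adjoin F {r}).val :
      (W.baseChange (IntermediateField.adjoin F {r})).toAffine.Point →+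
        (W.baseChange (AlgebraicClosure F)).toAffine.Point) TM = TT :=
    mp_pm W (IntermediateField.adjoin F {r}).val T
  have hlTT : l • TT = 0 := by
    show l • pm (algebraMap F (AlgebraicClosure F)) rfl T = 0
    rw [← map_nsmul, hT, map_zero]
  have hf' : ∀ σ, ∃ k : ℕ, f σ = k • TT := hf
  have hinj := WeierstrassCurve.Affine.Point.map_injective (W' := W)
    (f := (IntermediateField.adjoin F {r}).val)
  obtain ⟨V, hV, hV2⟩ := loc_raw_w W w ι (IntermediateField.adjoin F {r}) f (fun σ ↦ f σ = 0)
    (fun σ ↦ by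
      obtain ⟨k, hk⟩ := hf' σ
      exact ⟨k • TM, by rw [map_nsmul, hTM, hk]⟩) (hloc.1 w ι) (by
      intro L _ _ A t hI j σ S P hS hP
      obtain ⟨k, hk⟩ := hf' σ
      have hSk : S = k • TM := by
        apply hinj
        rw [map_nsmul, hTM, ← hk]
        exact hS
      have h1 : k • (pm (algebraMap F L) rfl T : (W.baseChange L).toAffine.Point) =
          mp W t P - P := by
        rw [← hP]
        exact (mp_nsmul_pm W j k hSk (mp_pm W j T)).symm
      obtain ⟨c, rfl⟩ := hE L A t hI P k h1
      show f σ = 0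
      rw [hk, mul_nsmul, hlTT, nsmul_zero])
  refine unr_of_place hl hroot hd w (M := IntermediateField.adjoin F {r})
    (r := ⟨r, IntermediateField.mem_adjoin_simple_self F r⟩) (Subtype.ext hrd) V hV
    fun α hα => hV2 α hα fun σ hσ => ?_
  have h1 : IntermediateField.adjoin F {r} ≤ IntermediateField.fixedField (Subgroup.zpowers σ) := by
    rw [IntermediateField.adjoin_simple_le_iff]
    rw [IntermediateField.mem_fixedField_iff]
    intro τ hτ
    obtain ⟨n, rfl⟩ := Subgroup.mem_zpowers_iff.1 hτ
    have h2 : σ ∈ MulAction.stabilizer (Gam F) r := hfix σ hσ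
    exact Subgroup.zpow_mem _ h2 n
  have h3 := h1 α.2
  rw [IntermediateField.mem_fixedField_iff] at h3
  exact h3 σ (Subgroup.mem_zpowers σ)

theorem locOw_of_good {F : Type} [Field F] [NumberField F] {l : ℕ} (hl : l.Prime)
    {W : WeierstrassCurve F} {w : HeightOneSpectrum (𝓞 F)} (hg : GoodEq w W) {x₀ y₀ : F}
    {h₀ : W.toAffine.Nonsingular x₀ y₀} (hT : l • (Affine.Point.some x₀ y₀ h₀) = 0)
    (hx : w.valuation F x₀ ≤ 1) : LocOw l W (Affine.Point.some x₀ y₀ h₀) w := by
  intro L _ _ A t hI P k hk
  by_contra hlk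
  obtain ⟨m, -, hm⟩ := Nat.exists_mul_mod_eq_one_of_coprime (((Nat.Prime.coprime_iff_not_dvd hl).2 hlk).symm) hl.one_lt
  obtain ⟨TL, hTL⟩ : ∃ TL : (W.baseChange L).toAffine.Point,
      TL = pm (algebraMap F L) rfl (Affine.Point.some x₀ y₀ h₀) := ⟨_, rfl⟩
  have hlT : l • TL = 0 := by
    rw [hTL]
    exact (map_nsmul (pm (algebraMap F L) rfl) l _).symm.trans ((congrArg _ hT).trans (map_zero _))
  have hk' : k • TL = mp W t P - P := by
    rw [hTL]
    exact hk
  have h1 : m • (k • TL) = TL := by
    rw [← mul_smul, mul_comm m k, ← Nat.div_add_mod (k * m) l, hm, add_smul, one_smul, mul_comm l, mul_smul,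
      hlT, smul_zero, zero_add]
  rw [hk', smul_sub, ← map_nsmul] at h1
  have h2 : TL = Affine.Point.some (algebraMap F L x₀) (algebraMap F L y₀)
      ((Affine.map_nonsingular W (algebraMap F L).injective x₀ y₀).mpr h₀) := by
    rw [hTL]
    rfl
  rw [h2] at h1
  have hg' : GoodEq w ((1 : VariableChange F) • W) := by
    rw [one_smul]
    exact hg
  have h3 := Lx_good hI W 1 hg' (m • P) _ h1.symm
  have e : newX ((1 : VariableChange F).map (algebraMap F L)) (algebraMap F L x₀) =
      algebraMap F L x₀ := by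
    simp [newX, VariableChange.map, VariableChange.one_def]
  rw [e] at h3
  exact absurd (Lx_le hI hx) (not_le.2 h3)

end H68IW
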