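import Pool.Agent.H78.TD.Kd
import Pool.Agent.H78.TD.Ja
import Pool.Agent.H68.IW.XPt
import Pool.Agent.H68.IW.Gn
import Pool.Agent.H68.IW.Lw
import Pool.Agent.H78.TD.Gb
import Pool.Agent.H78.TD.Wa
import Pool.Agent.H78.TD.Ue
import Pool.Agent.H78.TD.Uf
import Pool.Agent.H78.TD.Uh

/-!
MP_78d38b IW: step 2 with a weaker condition above `l` (modification of helper78, TD/S2; no row).
-/


set_option autoImplicit false
open scoped Classical

open WeierstrassCurve IsDedekindDomain NumberField Pool.Agent.H10 Pool.Agent.H11 H78D H68SS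

namespace H68IW

theorem step2X {K Km L F : Type} [Field K] [NumberField K] [Field Km] [NumberField Km] [Field L]
    [NumberField L] [Field F] [NumberField F] [Algebra K L] [Algebra K F] [Algebra L F]
    [IsScalarTower K L F] [Algebra K Km] [Algebra Km F] [IsScalarTower K Km F] [Normal K L]
    [Normal K F] [IsGalois Km F] {V : WeierstrassCurve K} {W : WeierstrassCurve F} {l : ℕ}
    {T : W.toAffine.Point} {h : F ≃ₐ[Km] F} {J : F ≃ₐ[L] F} {D : ℤ}
    (H : DatX l K Km L F W T h J D) (hV : V.map (algebraMap K F) = W)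
    {e : (W.baseChange (AlgebraicClosure F)).toAffine.Point → AlgebraicClosure F}
    (he : Pr l {x | l • x = 0} e)
    (hker : ∀ x, l • x = 0 → (e x = 1 ↔ ∃ j : ℕ, x = j • tp W T))
    {Jh : AlgebraicClosure F ≃ₐ[K] AlgebraicClosure F} (hJh : Jh ∈ SA K L (AlgebraicClosure F))
    (hJ : ∀ x : F, Jh (algebraMap F (AlgebraicClosure F) x) =
      algebraMap F (AlgebraicClosure F) (J x))
    (hJJ : Jh * Jh ∈ SA K F (AlgebraicClosure F))
    (heJ : ∀ x, l • x = 0 → e (act (inv_up hV) Jh x) = e x)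
    {hh : AlgebraicClosure F ≃ₐ[K] AlgebraicClosure F}
    (hlift : ∀ x : F, hh (algebraMap F (AlgebraicClosure F) x) =
      algebraMap F (AlgebraicClosure F) (h x))
    {R : (W.baseChange (AlgebraicClosure F)).toAffine.Point} (hR : ∃ j : ℕ, R = j • tp W T)
    {f : (AlgebraicClosure F ≃ₐ[K] AlgebraicClosure F) →
      (W.baseChange (AlgebraicClosure F)).toAffine.Point} (hf : SC l L hV f)
    (hnew : New L hV hh (orderOf h) R f)
    (h1 : ∀ s ∈ SA K F (AlgebraicClosure F), e (f s) = 1)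
    {b : (W.baseChange (AlgebraicClosure F)).toAffine.Point → AlgebraicClosure F}
    (hb : Pr l {x | ∃ j : ℕ, x = j • tp W T} b)
    (hb1 : ∀ x, (∃ j : ℕ, x = j • tp W T) → b x = 1 → x = 0)
    (hb3 : ∀ σ, act (inv_up hV) σ (tp W T) = tp W T →
      Kp (act (inv_up hV)) {x | ∃ j : ℕ, x = j • tp W T} b σ)
    (hb4 : ∀ σ, act (inv_up hV) σ (tp W T) = -tp W T → ∀ x ∈ {x | ∃ j : ℕ, x = j • tp W T},
      act (inv_up hV) σ x ∈ {x | ∃ j : ℕ, x = j • tp W T} ∧ b (act (inv_up hV) σ x) = (b x)⁻¹)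
    (hS : ∀ w : HeightOneSpectrum (𝓞 F), (l : 𝓞 F) ∈ w.asIdeal → LocOw l W T w ∨
      ∀ (r : AlgebraicClosure F) (d : F), r ≠ 0 → d ≠ 0 →
        r ^ l = algebraMap F (AlgebraicClosure F) d →
        (∀ σ ∈ SA K F (AlgebraicClosure F), σ r = b (f σ) * r) → UnrK l F d w) :
    ∀ s ∈ SA K F (AlgebraicClosure F), f s = 0 := by
  have hl := H.prime
  have hell := H.ell
  have hFL : SA K F (AlgebraicClosure F) ≤ SA K L (AlgebraicClosure F) := SA_le
  have hFKm : SA K F (AlgebraicClosure F) ≤ SA K Km (AlgebraicClosure F) := SA_le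
  -- the values of `f` are multiples of `T`
  have hC : ∀ s ∈ SA K F (AlgebraicClosure F), f s ∈ {x | ∃ j : ℕ, x = j • tp W T} :=
    fun s hs => (hker (f s) (hf.tor s (hFL hs))).1 (h1 s hs)
  have hJC : f Jh ∈ {x | ∃ j : ℕ, x = j • tp W T} := by
    have t1 : l • f Jh = 0 := hf.tor Jh hJh
    have t2 : l • act (inv_up hV) Jh (f Jh) = 0 := by
      rw [← map_nsmul, t1, map_zero]
    have e1 := h1 _ hJJ
    rw [hf.coc Jh hJh Jh hJh, he.add _ t1 _ t2, heJ _ t1] at e1
    have e2 : e (f Jh) ^ l = 1 := he.pow _ t1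
    have e3 : e (f Jh) = 1 := by
      obtain ⟨m, hm⟩ : Odd l := by
        rcases hl.eq_two_or_odd' with h2 | h2
        · have := H.three
          omega
        · exact h2
      rw [hm, pow_succ, pow_mul, sq, e1, one_pow, one_mul] at e2
      exact e2
    exact (hker _ t1).1 e3
  -- the pairing on the multiples of `T`
  obtain ⟨ζ0, hζ0⟩ := H.tow.root
  have hζ : IsPrimitiveRoot (algebraMap Km (AlgebraicClosure F) ζ0) l :=
    hζ0.map_of_injective (algebraMap Km (AlgebraicClosure F)).injective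
  have hζF : IsPrimitiveRoot (algebraMap Km F ζ0) l :=
    hζ0.map_of_injective (algebraMap Km F).injective
  have hfixT := pt_fixX H hV
  have hinv : ∀ s ∈ SA K F (AlgebraicClosure F),
      Kp (act (inv_up hV)) {x | ∃ j : ℕ, x = j • tp W T} b s :=
    fun s hs => hb3 s (hfixT s (hFKm hs))
  have hhb : Kp (act (inv_up hV)) {x | ∃ j : ℕ, x = j • tp W T} b hh :=
    hb3 hh (hfixT hh (lift_mem hlift))
  obtain ⟨r, d, hr, hd, hrd, hψ, hN, hv⟩ := kum_all hV hl H.tow.gen H.tow.cop hlift (rootsX H) hb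
    hinv hhb hf hC hR hnew H.good H.fixP
  obtain ⟨c, hc⟩ := kumJ_minus hV hl hb hf.coc hC hinv hJh hJ hJC
    (fun x hx => roots_JX H hJ (b x) (hb.pow x hx)) (hb4 Jh (pt_negX H hV hJ)) hr hrd hψ
  have hb0 : b 0 = 1 := by
    have a1 := hb.add 0 hb.zero 0 hb.zero
    rw [add_zero] at a1
    have a2 : b 0 ≠ 0 := by
      intro h0
      have a3 := hb.pow 0 hb.zero
      rw [h0, zero_pow hl.ne_zero] at a3
      exact zero_ne_one a3
    exact (mul_left_cancel₀ a2 (by rw [mul_one]; exact a1)).symm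
  have hres : ∀ σ : Gam F, σ.restrictScalars K ∈ SA K F (AlgebraicClosure F) :=
    fun σ x => σ.commutes x
  have hunr : ∀ w : HeightOneSpectrum (𝓞 F), UnrK l F d w := by
    intro w
    by_cases hw : (l : 𝓞 F) ∈ w.asIdeal
    · rcases hS w hw with hloc | hloc
      swap
      · exact hloc r d hr hd hrd hψ
      refine unr_of_locOw W hl ⟨_, hζF⟩ H.Tl w hloc hw
        (f := fun τ : Gam F => f (τ.restrictScalars K)) (fun σ => hC _ (hres σ)) hf.loc hd hrd ?_
      intro σ hσ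
      have a1 := hψ _ (hres σ)
      rw [show f (σ.restrictScalars K) = 0 from hσ, hb0, one_mul] at a1
      exact a1
    · exact unr_of_dvd hl hd w hw (hv w)
  obtain ⟨y, hy⟩ := pow_of_noUnr hl H.noC ⟨ζ0, hζ0⟩ (fun z hz => H.tow.Jz z hz) hd hN ⟨c, hc⟩ hunr
  -- `r` is in `F`
  have hy0 : algebraMap F (AlgebraicClosure F) y ≠ 0 := by
    intro h0
    rw [map_eq_zero] at h0
    rw [h0, zero_pow hl.ne_zero] at hy
    exact hd hy
  obtain ⟨z, hz⟩ := rootsX H (r / algebraMap F (AlgebraicClosure F) y) (by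
    rw [div_pow, hrd, hy, map_pow, div_self (pow_ne_zero l hy0)])
  have hrz : r = algebraMap Km (AlgebraicClosure F) z * algebraMap F (AlgebraicClosure F) y := by
    rw [hz, div_mul_cancel₀ _ hy0]
  intro s hs
  have a1 := hψ s hs
  have a2 : s r = r := by
    rw [hrz, map_mul, hs y, hFKm hs z]
  rw [a2] at a1
  have a3 : b (f s) = 1 := by
    have a4 : b (f s) * r = 1 * r := by rw [one_mul, ← a1]
    exact mul_right_cancel₀ hr a4
  exact hb1 _ (hC s hs) a3

theorem step3X {K Km L F : Type} [Field K] [NumberField K] [Field Km] [NumberField Km] [Field L]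
    [NumberField L] [Field F] [NumberField F] [Algebra K L] [Algebra K F] [Algebra L F]
    [IsScalarTower K L F] [Algebra K Km] [Algebra Km F] [IsScalarTower K Km F] [Normal K L]
    [Normal K F] [IsGalois Km F] {V : WeierstrassCurve K} {W : WeierstrassCurve F} {l : ℕ}
    {T : W.toAffine.Point} {h : F ≃ₐ[Km] F} {J : F ≃ₐ[L] F} {D : ℤ}
    (H : DatX l K Km L F W T h J D) (hV : V.map (algebraMap K F) = W)
    {e : (W.baseChange (AlgebraicClosure F)).toAffine.Point → AlgebraicClosure F}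
    (he : Pr l {x | l • x = 0} e)
    (hker : ∀ x, l • x = 0 → (e x = 1 ↔ ∃ j : ℕ, x = j • tp W T))
    (hKp : ∀ σ ∈ SA K Km (AlgebraicClosure F), Kp (act (inv_up hV)) {x | l • x = 0} e σ)
    {Jh : AlgebraicClosure F ≃ₐ[K] AlgebraicClosure F} (hJh : Jh ∈ SA K L (AlgebraicClosure F))
    (hJ : ∀ x : F, Jh (algebraMap F (AlgebraicClosure F) x) =
      algebraMap F (AlgebraicClosure F) (J x))
    (hJJ : Jh * Jh ∈ SA K F (AlgebraicClosure F))
    (heJ : ∀ x, l • x = 0 → e (act (inv_up hV) Jh x) = e x)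
    {hh : AlgebraicClosure F ≃ₐ[K] AlgebraicClosure F}
    (hlift : ∀ x : F, hh (algebraMap F (AlgebraicClosure F) x) =
      algebraMap F (AlgebraicClosure F) (h x))
    (hhP : hh ^ orderOf h ∈ SA K F (AlgebraicClosure F))
    {R : (W.baseChange (AlgebraicClosure F)).toAffine.Point} (hR : ∃ j : ℕ, R = j • tp W T)
    {f : (AlgebraicClosure F ≃ₐ[K] AlgebraicClosure F) →
      (W.baseChange (AlgebraicClosure F)).toAffine.Point} (hf : SC l L hV f)
    (hnew : New L hV hh (orderOf h) R f)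
    (h1 : ∀ s ∈ SA K F (AlgebraicClosure F), e (f s) = 1)
    {b : (W.baseChange (AlgebraicClosure F)).toAffine.Point → AlgebraicClosure F}
    (hb : Pr l {x | ∃ j : ℕ, x = j • tp W T} b)
    (hb1 : ∀ x, (∃ j : ℕ, x = j • tp W T) → b x = 1 → x = 0)
    (hb3 : ∀ σ, act (inv_up hV) σ (tp W T) = tp W T →
      Kp (act (inv_up hV)) {x | ∃ j : ℕ, x = j • tp W T} b σ)
    (hb4 : ∀ σ, act (inv_up hV) σ (tp W T) = -tp W T → ∀ x ∈ {x | ∃ j : ℕ, x = j • tp W T},
      act (inv_up hV) σ x ∈ {x | ∃ j : ℕ, x = j • tp W T} ∧ b (act (inv_up hV) σ x) = (b x)⁻¹)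
    (hS : ∀ w : HeightOneSpectrum (𝓞 F), (l : 𝓞 F) ∈ w.asIdeal → LocOw l W T w ∨
      ∀ (r : AlgebraicClosure F) (d : F), r ≠ 0 → d ≠ 0 →
        r ^ l = algebraMap F (AlgebraicClosure F) d →
        (∀ σ ∈ SA K F (AlgebraicClosure F), σ r = b (f σ) * r) → UnrK l F d w) :
    ∃ S, l • S = 0 ∧ ∀ s ∈ SA K L (AlgebraicClosure F), f s = act (inv_up hV) s S - S := by
  have hρ : Rho (act (inv_up hV)) := rho_act _
  obtain ⟨hT0, hTl⟩ := pt_neX H
  have hleL : SA K F (AlgebraicClosure F) ≤ SA K L (AlgebraicClosure F) := SA_le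
  have h0 := step2X H hV he hker hJh hJ hJJ heJ hlift hR hf hnew h1 hb hb1 hb3 hb4 hS
  have : (SA K L (AlgebraicClosure F)).Normal := SA_normal
  have : (SA K F (AlgebraicClosure F)).Normal := SA_normal
  have hB := triv_of_fix hρ H.prime hT0 hTl he hker H.tow.cop hhP
    (pt_fixX H hV hh (lift_mem hlift)) (fun x hx => (hKp hh (lift_mem hlift) x hx).2)
  have hRl : l • R = 0 := by
    obtain ⟨j, rfl⟩ := hR
    rw [smul_comm, hTl]
    exact nsmul_zero j
  exact vanish hρ H.prime hleL H.tow.cop hf.coc hf.tor h0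
    (fun s hs => comm_mem H.tow.comm hlift hs) hB hRl hnew

end H68IW
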