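import Pool.Agent.H68.IW.Dg
import Pool.Agent.H68.IW.Ke
import Pool.Agent.H68.IW.Kc
import Pool.Agent.H68.IW.Kv
import Pool.Agent.H68.IW.XS1
import Pool.Agent.H68.IW.XS2
import Pool.Agent.H68.IW.Gn
import Pool.Agent.H86.IW.Rc
import Pool.Agent.H78.TD.S1

/-!
MP_78d38b IW: at most `∏ l N(w)` new classes (assembly, helper68).
-/

set_option autoImplicit false
open scoped Classical

open WeierstrassCurve IsDedekindDomain NumberField Pool.Agent.H10 Pool.Agent.H11 H78D

namespace H68IW

theorem core_le {K Km L B F : Type} [Field K] [NumberField K] [Field Km] [NumberField Km]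
    [Field L] [NumberField L] [Field B] [NumberField B] [Field F] [NumberField F] [Algebra K L]
    [Algebra K F] [Algebra L F] [IsScalarTower K L F] [Algebra K Km] [Algebra Km F]
    [IsScalarTower K Km F] [Normal K L] [Normal K F] [IsGalois Km F] [Algebra K B] [Algebra L B]
    [Algebra B F] [IsScalarTower K L B] [IsScalarTower K B F] [IsScalarTower L B F] [Normal K B]
    {V : WeierstrassCurve K} {V' : WeierstrassCurve L} {WB : WeierstrassCurve B}
    {W : WeierstrassCurve F} {l : ℕ} {T : W.toAffine.Point} {h : F ≃ₐ[Km] F} {J : F ≃ₐ[L] F}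
    {D : ℤ} (H : DatX l K Km L F W T h J D) (hV : V.map (algebraMap K F) = W)
    (hVB : V'.map (algebraMap L B) = WB) (hBF : WB.map (algebraMap B F) = W)
    {TB : WB.toAffine.Point} {ζ : B} (HB : H86G.DG l hVB TB ζ)
    (hT : pm (algebraMap B F) hBF TB = T) (Sx : Finset (HeightOneSpectrum (𝓞 L)))
    (hSx : ∀ w ∈ Sx, (l : 𝓞 L) ∈ w.asIdeal ∧ (l : 𝓞 L) ∉ w.asIdeal ^ 2)
    (hloc : ∀ w : HeightOneSpectrum (𝓞 F), (l : 𝓞 F) ∈ w.asIdeal →
      H73IS.below L w ∈ Sx ∨ LocOw l W T w)
    {hh : AlgebraicClosure F ≃ₐ[K] AlgebraicClosure F}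
    (hlift : ∀ x : F, hh (algebraMap F (AlgebraicClosure F) x) =
      algebraMap F (AlgebraicClosure F) (h x)) :
    FamF l L hV hh (orderOf h) (∏ w ∈ Sx, l * Ideal.absNorm w.asIdeal) := by
  have hρ : Rho (act (inv_up hV)) := rho_act _
  haveI := H.ell
  have hl := H.prime
  obtain ⟨Jh, hJh, hJ, hJJ⟩ := exists_JhX H
  obtain ⟨hT0, hTl⟩ := pt_neX H
  have hμ : ∀ σ ∈ SA K Km (AlgebraicClosure F), ∀ z : AlgebraicClosure F, z ^ l = 1 → σ z = z := by
    intro σ hσ z hz
    obtain ⟨y, rfl⟩ := rootsX H z hz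
    exact hσ y
  obtain ⟨e, he, hker, hKp, heJ⟩ := exists_weil (Km := Km) hV H.prime H.three hT0 hTl
    (pt_negX H hV hJ) (roots_JX H hJ) hμ (pt_fixX H hV)
  have hleK : SA K F (AlgebraicClosure F) ≤ SA K Km (AlgebraicClosure F) := SA_le
  have hleL : SA K F (AlgebraicClosure F) ≤ SA K L (AlgebraicClosure F) := SA_le
  have hleB : SA K F (AlgebraicClosure F) ≤ SA K B (AlgebraicClosure F) := SA_le
  haveI hNL : (SA K L (AlgebraicClosure F)).Normal := SA_normal
  haveI hNF : (SA K F (AlgebraicClosure F)).Normal := SA_normal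
  have hhpow : ∀ (j : ℕ) (x : F), (hh ^ j) (algebraMap F (AlgebraicClosure F) x) =
      algebraMap F (AlgebraicClosure F) ((h ^ j) x) := by
    intro j
    induction j with
    | zero => intro x; rfl
    | succ j ih =>
      intro x
      rw [pow_succ', pow_succ']
      show hh ((hh ^ j) (algebraMap F (AlgebraicClosure F) x)) =
        algebraMap F (AlgebraicClosure F) (h ((h ^ j) x))
      rw [ih, hlift]
  have hhP : hh ^ orderOf h ∈ SA K F (AlgebraicClosure F) := by
    intro x
    rw [hhpow, pow_orderOf_eq_one]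
    rfl
  have hinv : ∀ x, l • x = 0 → e (act (inv_up hV) hh x) = e x :=
    fun x hx => (hKp hh (lift_mem hlift) x hx).2
  -- the Galois group of `L` maps `T` to multiples of `T`
  have hTB : tp W T = pm (algebraMap B (AlgebraicClosure F)) (by
      rw [IsScalarTower.algebraMap_eq B F (AlgebraicClosure F), ← WeierstrassCurve.map_map, hBF]
      rfl) TB := by
    show pm (algebraMap F (AlgebraicClosure F)) rfl T = _
    rw [← hT, pm_pm]
    exact pm_congr _ _ (fun x => (IsScalarTower.algebraMap_apply B F (AlgebraicClosure F) x).symm) TB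
  have hfix : ∀ s ∈ SA K B (AlgebraicClosure F), act (inv_up hV) s (tp W T) = tp W T := by
    intro s hs
    rw [hTB]
    show pm (s : AlgebraicClosure F →+* AlgebraicClosure F) _ (pm (algebraMap B _) _ TB) = _
    rw [pm_pm]
    exact pm_congr _ _ (fun x => hs x) TB
  have hstL : ∀ s ∈ SA K L (AlgebraicClosure F), ∃ c : ℕ,
      act (inv_up hV) s (tp W T) = c • tp W T := by
    intro s hs
    have hr : ∀ x : B, algebraMap B (AlgebraicClosure F) (s.restrictNormal B x) =
        s (algebraMap B (AlgebraicClosure F) x) := fun x => AlgEquiv.restrictNormal_commutes s B x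
    have hc : ∀ y : L, s.restrictNormal B (algebraMap L B y) = algebraMap L B y := by
      intro y
      apply (algebraMap B (AlgebraicClosure F)).injective
      rw [hr, ← IsScalarTower.algebraMap_apply L B (AlgebraicClosure F) y]
      exact hs y
    obtain ⟨c, hc'⟩ := HB.stab { s.restrictNormal B with commutes' := hc }
    refine ⟨c, ?_⟩
    rw [hTB, ← map_nsmul, ← hc']
    show pm (s : AlgebraicClosure F →+* AlgebraicClosure F) _ (pm (algebraMap B _) _ TB) =
      pm (algebraMap B _) _ (pm _ _ TB)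
    rw [pm_pm, pm_pm]
    exact pm_congr _ _ (fun x => (hr x).symm) TB
  -- the pairing on the multiples of `T`
  have hζ : IsPrimitiveRoot (algebraMap B (AlgebraicClosure F) ζ) l :=
    HB.prim.map_of_injective (algebraMap B (AlgebraicClosure F)).injective
  obtain ⟨b, hbj, hb, hb1, hb3, hb4⟩ := exists_pairZ (act (inv_up hV)) hl hT0 hTl hζ
  have hb0 : b 0 = 1 := by
    have a1 := hbj 0
    rw [zero_smul, pow_zero] at a1
    exact a1
  intro ι _ hι f hSC hnew
  choose R hRl hN using hnew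
  -- the normalised classes
  have hS : ∀ i, ∃ S, l • S = 0 ∧ ∃ j : ℕ,
      R i + ∑ n ∈ Finset.range (orderOf h), act (inv_up hV) (hh ^ n) S = j • tp W T :=
    fun i => norm_R hρ hl H.tow.cop he hker hinv (hRl i)
  choose S hSl hSR using hS
  obtain ⟨f', hf'⟩ : ∃ f' : ι → (AlgebraicClosure F ≃ₐ[K] AlgebraicClosure F) →
      (W.baseChange (AlgebraicClosure F)).toAffine.Point,
      ∀ i s, f' i s = f i s + (act (inv_up hV) s (S i) - S i) := ⟨_, fun i s => rfl⟩
  have hSC' : ∀ i, SC l L hV (f' i) := by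
    intro i
    have h1 : f' i = fun s => f i s + (act (inv_up hV) s (S i) - S i) := funext (hf' i)
    rw [h1]
    exact sc_cob (hSC i) (hSl i)
  obtain ⟨R', hR'⟩ : ∃ R' : ι → (W.baseChange (AlgebraicClosure F)).toAffine.Point,
      ∀ i, R' i = R i + ∑ n ∈ Finset.range (orderOf h), act (inv_up hV) (hh ^ n) (S i) :=
    ⟨_, fun i => rfl⟩
  have hR'T : ∀ i, ∃ j : ℕ, R' i = j • tp W T := by
    intro i
    rw [hR' i]
    exact hSR i
  have hN' : ∀ i, New L hV hh (orderOf h) (R' i) (f' i) := by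
    intro i s hs
    have h1 : f' i = fun s => f i s + (act (inv_up hV) s (S i) - S i) := funext (hf' i)
    rw [h1, new_add hρ, hN i s hs, hR' i, map_add]
    abel
  have hR'l : ∀ i, l • R' i = 0 := by
    intro i
    obtain ⟨j, hj⟩ := hR'T i
    rw [hj, smul_comm, hTl]
    exact nsmul_zero j
  have h1 : ∀ i, ∀ s ∈ SA K F (AlgebraicClosure F), e (f' i s) = 1 :=
    fun i => step1X H hV he hKp hJh hJ heJ hlift (hR'l i) (hSC' i) (hN' i)
  have hC : ∀ i, ∀ s ∈ SA K L (AlgebraicClosure F), ∃ j : ℕ, f' i s = j • tp W T :=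
    fun i => val_C hρ hl H.tow.cop hleL hTl he hker hinv hstL
      (fun s hs => comm_mem H.tow.comm hlift hs) (hSC' i).coc (hSC' i).tor (h1 i) (hR'T i)
      (fun s hs => hN' i s hs)
  have hk : ∀ i, ∃ (r : AlgebraicClosure F) (x : B), r ≠ 0 ∧ x ≠ 0 ∧
      r ^ l = algebraMap B (AlgebraicClosure F) x ∧
      (∀ σ ∈ SA K B (AlgebraicClosure F), σ r = b (f' i σ) * r) ∧ H86G.Eig l hVB TB ζ x ∧
      ∀ 𝔓 : HeightOneSpectrum (𝓞 B), (D : 𝓞 B) ∈ 𝔓.asIdeal →
        ∃ k : ℤ, 𝔓.valuation B x = WithZero.exp (l * k) :=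
    fun i => exists_kum H hV hVB hBF HB hT hbj hb hb3 hlift hfix (hSC' i) (hC i) (hR'T i) (hN' i)
  choose r x hr0 hx0 hrx hψ hEig hval using hk
  -- places above `l` are above `D`
  have hlD : ∀ w : HeightOneSpectrum (𝓞 F), (l : 𝓞 F) ∈ w.asIdeal → (D : 𝓞 F) ∈ w.asIdeal := by
    intro w hw
    by_contra hD
    have h2 := (H.good w hD).2.2.2.2.2.2
    have h3 : w.valuation F (l : F) < 1 := by
      have e1 : (l : F) = algebraMap (𝓞 F) F (l : 𝓞 F) := (map_natCast (algebraMap (𝓞 F) F) l).symm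
      rw [e1, HeightOneSpectrum.valuation_lt_one_iff_mem]
      exact hw
    rw [h2] at h3
    exact lt_irrefl _ h3
  obtain ⟨i, j, hij, hunr⟩ := H86I.card_unr (F := F) (I := ι) HB Sx hSx hι x hEig (by
    intro i 𝔓 h𝔓
    refine hval i 𝔓 ?_
    obtain ⟨w, hw⟩ := exists_above (F := F) 𝔓
    have h2 : (l : 𝓞 F) ∈ w.asIdeal := by
      have h3 := (hSx _ h𝔓).1
      rw [← hw, H73IS.mem_below, H73IS.mem_below, map_natCast, map_natCast] at h3
      exact h3
    have h4 := hlD w h2
    rw [← hw, H73IS.mem_below, map_intCast]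
    exact h4)
  refine ⟨i, j, hij, ?_⟩
  have hRR : ∃ n : ℕ, R' i - R' j = n • tp W T := by
    obtain ⟨n, hn⟩ := hR'T i
    obtain ⟨m, hm⟩ := hR'T j
    refine ⟨n + (l - 1) * m, ?_⟩
    have h2 : ((l - 1) * m) • tp W T + m • tp W T = 0 := by
      rw [← add_smul]
      have h3 : (l - 1) * m + m = m * l := by
        have h4 : l - 1 + 1 = l := Nat.sub_add_cancel hl.one_le
        calc (l - 1) * m + m = (l - 1 + 1) * m := by ring
          _ = m * l := by rw [h4, mul_comm]
      rw [h3, mul_smul, hTl]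
      exact nsmul_zero m
    rw [hn, hm, add_smul, eq_neg_of_add_eq_zero_left h2]
    exact sub_eq_add_neg _ _
  have hCF : ∀ i, ∀ s ∈ SA K F (AlgebraicClosure F), f' i s ∈ {x | ∃ j : ℕ, x = j • tp W T} :=
    fun i s hs => hC i s (hleL hs)
  have hSCd := sc_sub (hSC' i) (hSC' j)
  have hNd := new_sub (hN' i) (hN' j)
  have hsubT : ∀ s ∈ SA K F (AlgebraicClosure F), ∀ y, (∃ n : ℕ, y = n • tp W T) →
      (∃ n : ℕ, -y = n • tp W T) := by
    rintro s hs _ ⟨n, rfl⟩
    refine ⟨(l - 1) * n, ?_⟩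
    have h2 : ((l - 1) * n) • tp W T + n • tp W T = 0 := by
      rw [← add_smul]
      have h3 : (l - 1) * n + n = n * l := by
        have h4 : l - 1 + 1 = l := Nat.sub_add_cancel hl.one_le
        calc (l - 1) * n + n = (l - 1 + 1) * n := by ring
          _ = n * l := by rw [h4, mul_comm]
      rw [h3, mul_smul, hTl]
      exact nsmul_zero n
    exact (eq_neg_of_add_eq_zero_left h2).symm
  have hd1 : ∀ s ∈ SA K F (AlgebraicClosure F), e (f' i s - f' j s) = 1 := by
    intro s hs
    refine (hker _ (hSCd.tor s (hleL hs))).2 ?_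
    obtain ⟨n, hn⟩ := hC i s (hleL hs)
    obtain ⟨m, hm⟩ := hsubT s hs _ (hC j s (hleL hs))
    exact ⟨n + m, by rw [add_smul, ← hn, ← hm, sub_eq_add_neg]⟩
  have hres := step3X H hV he hker hKp hJh hJ hJJ heJ hlift hhP hRR hSCd hNd hd1 hb hb1 hb3 hb4 (by
    intro w hw
    rcases hloc w hw with hw' | hw'
    swap
    · exact Or.inl hw'
    right
    intro r' d hr' hd hrd hψ'
    have hU := hunr w hw'
    -- the quotient of the generators
    have hbr : ∀ σ ∈ SA K F (AlgebraicClosure F), b (f' i σ) = b (f' i σ - f' j σ) * b (f' j σ) := by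
      intro σ hσ
      have m1 : f' i σ - f' j σ ∈ {x | ∃ j : ℕ, x = j • tp W T} := by
        obtain ⟨n, hn⟩ := hC i σ (hleL hσ)
        obtain ⟨m, hm⟩ := hsubT σ hσ _ (hC j σ (hleL hσ))
        exact ⟨n + m, by rw [add_smul, ← hn, ← hm, sub_eq_add_neg]⟩
      rw [← hb.add _ m1 _ (hCF j σ hσ), sub_add_cancel]
    have hne : r' * r j ≠ 0 := mul_ne_zero hr' (hr0 j)
    obtain ⟨z, hz⟩ := mem_F (K := K) (F := F) (r i / (r' * r j)) (by
      intro σ hσ
      rw [map_div₀, map_mul, hψ i σ (hleB hσ), hψ j σ (hleB hσ), hψ' σ hσ, hbr σ hσ]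
      have hb2 : b (f' i σ - f' j σ) ≠ 0 := by
        intro h0
        have h3 := hb.pow (f' i σ - f' j σ) (by
          obtain ⟨n, hn⟩ := hC i σ (hleL hσ)
          obtain ⟨m, hm⟩ := hsubT σ hσ _ (hC j σ (hleL hσ))
          exact ⟨n + m, by rw [add_smul, ← hn, ← hm, sub_eq_add_neg]⟩)
        rw [h0, zero_pow hl.ne_zero] at h3
        exact zero_ne_one h3
      have hb5 : b (f' j σ) ≠ 0 := by
        intro h0
        have h3 := hb.pow (f' j σ) (hCF j σ hσ)
        rw [h0, zero_pow hl.ne_zero] at h3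
        exact zero_ne_one h3
      have h6 := hr0 j
      field_simp)
    have hz0 : z ≠ 0 := by
      rintro rfl
      rw [map_zero] at hz
      exact (div_ne_zero (hr0 i) hne) hz.symm
    refine unrk_mul hz0 ?_ hU
    apply (algebraMap F (AlgebraicClosure F)).injective
    rw [← IsScalarTower.algebraMap_apply B F (AlgebraicClosure F), map_mul, map_pow, hz, ← hrd,
      map_div₀, ← hrx i, ← hrx j, ← mul_pow, ← div_pow]
    congr 1
    have h6 := hr0 j
    field_simp)
  obtain ⟨S0, hS0, hS1⟩ := hres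
  refine ⟨S0 - S i + S j, ?_, ?_⟩
  · rw [smul_add, smul_sub, hS0, hSl, hSl, sub_zero, add_zero]
  · intro s hs
    have h2 := hS1 s hs
    have h3 : f' i s - f' j s = act (inv_up hV) s S0 - S0 := h2
    rw [hf', hf'] at h3
    rw [map_add, map_sub]
    have h4 : f i s - f j s = (f i s + (act (inv_up hV) s (S i) - S i) -
        (f j s + (act (inv_up hV) s (S j) - S j))) - (act (inv_up hV) s (S i) - S i) +
          (act (inv_up hV) s (S j) - S j) := by abel
    rw [h4, h3]
    abel

end H68IW
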