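import Pool.Agent.H68.IW.In
import Pool.Agent.H68.IW.Lw
import Pool.Agent.H68.SS.Up3

/-!
MP_78d38b IW: the local condition at one place, semistable version (modification of SS/Lx, SS/Up3; no row).
-/

set_option autoImplicit false
open scoped Classical

open WeierstrassCurve IsDedekindDomain NumberField Pool.Agent.H10 Pool.Agent.H11 H78D H68SS

namespace H68IW

theorem locOw_of_et {F : Type} [Field F] [NumberField F] {l : ℕ} (hl : l.Prime) (hl2 : l ≠ 2)
    {W : WeierstrassCurve F} (hE : W.Δ ≠ 0) {x₀ y₀ : F} {h₀ : W.toAffine.Nonsingular x₀ y₀}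
    (hT : l • Affine.Point.some x₀ y₀ h₀ = 0) {w : HeightOneSpectrum (𝓞 F)}
    (hw : (l : 𝓞 F) ∈ w.asIdeal) (H : EtAt W x₀ w) :
    LocOw l W (Affine.Point.some x₀ y₀ h₀) w := by
  intro L _ _ A t hI P k hk
  obtain ⟨C, hC⟩ := H
  by_contra hlk
  obtain ⟨m, -, hm⟩ := Nat.exists_mul_mod_eq_one_of_coprime (((Nat.Prime.coprime_iff_not_dvd hl).2 hlk).symm) hl.one_lt
  obtain ⟨TL, hTL⟩ : ∃ TL : (W.baseChange L).toAffine.Point,
      TL = pm (algebraMap F L) rfl (Affine.Point.some x₀ y₀ h₀) := ⟨_, rfl⟩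
  have hlT : l • TL = 0 := by
    rw [hTL]
    exact (map_nsmul (pm (algebraMap F L) rfl) l _).symm.trans ((congrArg _ hT).trans (map_zero _))
  have hk' : k • TL = mp W t P - P := by
    rw [hTL]
    exact hk
  have h1 : m • (k • TL) = TL := by
    rw [← mul_smul, mul_comm m k, ← Nat.div_add_mod (k * m) l, hm, add_smul, one_smul, mul_comm l, mul_smul,
      hlT, smul_zero, zero_add]
  rw [hk', smul_sub, ← map_nsmul] at h1
  have h2 : TL = Affine.Point.some (algebraMap F L x₀) (algebraMap F L y₀)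
      ((Affine.map_nonsingular W (algebraMap F L).injective x₀ y₀).mpr h₀) := by
    rw [hTL]
    rfl
  rw [h2] at h1
  have e : newX (C.map (algebraMap F L)) (algebraMap F L x₀) = algebraMap F L (newX C x₀) :=
    (newX_map (algebraMap F L) C x₀).symm
  rcases hC with ⟨hg, hx⟩ | ⟨hg, hx⟩
  · have h3 := Lx_good hI W C hg (m • P) _ h1.symm
    rw [e] at h3
    exact absurd (Lx_le hI hx) (not_le.2 h3)
  · have h3 := Lx_node hI W C hg hE (Lx_two hl hl2 w hw) (m • P) _ h1.symm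
    rw [e] at h3
    exact absurd (Lx_lt hI hx) (not_lt.2 h3)

theorem etAt_up {N F : Type} [Field N] [NumberField N] [Field F] [NumberField F] (ν : N →+* F)
    {v : HeightOneSpectrum (𝓞 N)} {w : HeightOneSpectrum (𝓞 F)}
    (h1 : ∀ x : N, v.valuation N x ≤ 1 → w.valuation F (ν x) ≤ 1)
    (h2 : ∀ x : N, v.valuation N x = 1 → w.valuation F (ν x) = 1)
    (h3 : ∀ x : N, v.valuation N x < 1 → w.valuation F (ν x) < 1) {W : WeierstrassCurve N} {x : N}
    (H : EtAt W x v) : EtAt (W.map ν) (ν x) w := by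
  obtain ⟨C, ⟨hg, hx⟩ | ⟨hn, hx⟩⟩ := H
  · refine ⟨C.map ν, Or.inl ⟨Up3_good ν h1 h2 W C hg, ?_⟩⟩
    rw [← newX_map]
    exact h1 _ hx
  · refine ⟨C.map ν, Or.inr ⟨Up3_node ν h2 h3 W C hn, ?_⟩⟩
    rw [← newX_map]
    exact h3 _ hx

end H68IW
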