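import Pool.Agent.H68.IW.Df
import Pool.Agent.H68.TM.Lyr
import Pool.Agent.H73.IS.KVal

/-!
ROW St (about 90 lines).  PROOF.
(1) `stab_up`: `N / ℚ` is Galois, so normal: for `σ : F ≃ₐ[K] F` there is `g : N ≃+* N` with `σ (ν x) = ν (g x)`: with `Algebra N F := ν.toAlgebra` (letI; `IsScalarTower ℚ N F` holds automatically or by `IsScalarTower.of_algebraMap_eq`), `g := (σ.restrictScalars ℚ).restrictNormal N` (AlgEquiv.restrictNormal_commutes); or use `Pool/Agent/H68` lemma `fix_im` / `H68TM` files if there is one. `g` fixes `k`: `ν (g (algebraMap k N x)) = σ (ν (algebraMap k N x)) = σ (algebraMap K F (f' x)) = ..` by hk, `ν` injective. So `g` is an element `g' : N ≃ₐ[k] N` and `H86G.gp rfl g' T₀ = c • T₀`.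
 `gp hV σ (pm ν hW T₀) = pm ν hW (gp rfl g' T₀)`: both sides are `pm` of the same ring homomorphism `σ ∘ ν = ν ∘ g'` (pm_pm twice, pm_congr), `= pm ν hW (c • T₀) = c • pm ν hW T₀` (map_nsmul). Model: `Lyr.hT`, `Lyr.JT` in Pool/Agent/H68/TM/Lyr.lean.
-/

set_option autoImplicit false
open scoped Classical

open WeierstrassCurve IsDedekindDomain NumberField Pool.Agent.H10 Pool.Agent.H11 H78D

namespace H68IW

theorem stab_up {k N K F : Type} [Field k] [NumberField k] [Field N] [NumberField N] [Field K]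
    [NumberField K] [Field F] [NumberField F] [Algebra k N] [IsGalois ℚ N] [Algebra K F]
    (f : k →+* K) (ν : N →+* F) (hk : ∀ x : k, ν (algebraMap k N x) = algebraMap K F (f x))
    {E : WeierstrassCurve k} {l : ℕ} {T₀ : (E.map (algebraMap k N)).toAffine.Point}
    (hst : ∀ g : N ≃ₐ[k] N, ∃ c : ℕ, H86G.gp (V := E) rfl g T₀ = c • T₀)
    {W : WeierstrassCurve F} (hW : (E.map (algebraMap k N)).map ν = W)
    (hV : (E.map f).map (algebraMap K F) = W) (σ : F ≃ₐ[K] F) :
    ∃ c : ℕ, H86G.gp hV σ (pm ν hW T₀) = c • pm ν hW T₀ := by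
  letI : Algebra N F := ν.toAlgebra
  haveI : IsScalarTower ℚ N F := IsScalarTower.of_algebraMap_eq' (Subsingleton.elim _ _)
  let g : N ≃ₐ[ℚ] N := (σ.restrictScalars ℚ).restrictNormal N
  have hg : ∀ x : N, ν (g x) = σ (ν x) := fun x =>
    AlgEquiv.restrictNormal_commutes (σ.restrictScalars ℚ) N x
  have hc : ∀ x : k, g (algebraMap k N x) = algebraMap k N x := fun x => by
    apply ν.injective
    rw [hg, hk, σ.commutes]
  let g' : N ≃ₐ[k] N := AlgEquiv.ofRingEquiv (f := (g : N ≃+* N)) hc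
  obtain ⟨c, hc'⟩ := hst g'
  refine ⟨c, ?_⟩
  have h1 := pm_pm ν hW (σ : F →+* F) (H86G.map_gal hV σ) T₀
  have h2 := pm_pm (g' : N →+* N) (H86G.map_gal (V := E) rfl g') ν hW T₀
  have h3 : pm ν hW (H86G.gp (V := E) rfl g' T₀) = c • pm ν hW T₀ := by
    rw [hc', map_nsmul]
  refine Eq.trans ?_ h3
  refine h1.trans (Eq.trans ?_ h2.symm)
  exact pm_congr _ _ (fun x => (hg x).symm) T₀

end H68IW
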