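import Pool.Agent.H68.IW.Dg
import Pool.Agent.H78.TD.Tb

/-!
ROW T1 (about 170 lines; transport to the closure of `L`; MODEL: the proof of `H78D.ctl_of_core` in Pool/Agent/H78/TD/Tb.lean, copy its pieces).  PROOF.
`j := jj L F`, `jK := j.restrictScalars K`. For a cochain `f : Coch L V'` put `f' := trans j (map_jj hVF) f` and `f0 σ := if hσ : σ ∈ SA K L Ω then f' (toL σ hσ) else 0`; `SC l L hV f0` is proved in `ctl_of_core` (hSC). Here there are many `f i`, define `f0 i` for each `i` by the same formula; it is best to first prove a lemma `exists_f0` for one `f`: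
 for `f` a cocycle, locally trivial, `l • f τ = 0`: `∃ f0, SC l L hV f0 ∧ ∀ (s) (hs : s ∈ SA K L Ω) (τ), (∀ z, s z = j (τ (j.symm z))) → f0 s = pm j (map_jj hVF) (f τ)` (hFτ in `ctl_of_core`).
`hg`: `g z = j.symm (hh (j z))`, so `(g ^ i) z = j.symm ((hh ^ i) (j z))` (induction), `hh ^ i = j (g ^ i) j⁻¹`. For `s ∈ SA K L Ω`, `τ := (j.trans (toL s hs)).trans j.symm`: `cjf ρ (hh ^ i) f0 s = pm j (conj (inv_up hVL) (g ^ i) f τ)` (h5 in `ctl_of_core` with `g' = hh ^ i`).
`New L hV hh P (pm j R) f0` from the hypothesis for `f`: map_sum, map_sub and h6 (`pm j (act τ R) = act s (pm j R)`). `l • pm j R = pm j (l • R) = 0`.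
Apply `H` to the `f0 i`: `i ≠ j'`, `S` with `l • S = 0`. Take `pm j.symm S` as in `ctl_of_core` (map_jj_symm hVF): for `τ` put `s := j τ j⁻¹ ∈ SA K L Ω`; pm_injective; `pm j (f i τ - f j' τ) = f0 i s - f0 j' s = act s S - S`.
-/

set_option autoImplicit false
open scoped Classical

open WeierstrassCurve IsDedekindDomain NumberField Pool.Agent.H10 Pool.Agent.H11 H78D

namespace H68IW

section T1

variable {K L F : Type} [Field K] [NumberField K] [Field L] [NumberField L] [Field F]
    [NumberField F] [Algebra K L] [Algebra K F] [Algebra L F] [IsScalarTower K L F] [Normal K L]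
    {V : WeierstrassCurve K} {V' : WeierstrassCurve L} {W : WeierstrassCurve F} {l : ℕ}

omit [Normal K L] in
theorem T1_f0 (hVF : V'.map (algebraMap L F) = W) (hV : V.map (algebraMap K F) = W)
    {f : Coch L V'} (hf : IsCocycle L V' f) (hl : IsLocTriv L V' f) (hk : ∀ τ, l • f τ = 0) :
    ∃ f0 : (AlgebraicClosure F ≃ₐ[K] AlgebraicClosure F) →
      (W.baseChange (AlgebraicClosure F)).toAffine.Point, SC l L hV f0 ∧
      ∀ (s : AlgebraicClosure F ≃ₐ[K] AlgebraicClosure F), s ∈ SA K L (AlgebraicClosure F) →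
        ∀ τ : AlgebraicClosure L ≃ₐ[L] AlgebraicClosure L,
        (∀ z, s z = jj L F (τ ((jj L F).symm z))) →
        f0 s = pm (jj L F : AlgebraicClosure L →+* AlgebraicClosure F) (map_jj hVF) (f τ) := by
  let j := jj L F
  obtain ⟨f', hf'⟩ : ∃ f', f' = Pool.Agent.H10.trans j (map_jj hVF) f := ⟨_, rfl⟩
  have hfc : IsCoc (inv_up hVF) f' := by
    rw [hf']
    exact isCoc_trans (jj L F) (map_jj hVF) (h' := inv_up hVF)
      ((Pool.Agent.H10.isCocycle_iff f).1 hf)
  have hf3 : ∀ τ, l • f' τ = 0 := by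
    intro τ
    rw [hf']
    unfold Pool.Agent.H10.trans
    rw [← map_nsmul, hk, map_zero]
  obtain ⟨f0, hf0⟩ : ∃ f0 : (AlgebraicClosure F ≃ₐ[K] AlgebraicClosure F) →
      (W.baseChange (AlgebraicClosure F)).toAffine.Point, f0 = fun σ =>
        if hσ : σ ∈ SA K L (AlgebraicClosure F) then f' (toL σ hσ) else 0 := ⟨_, rfl⟩
  have hmem : ∀ (σ : AlgebraicClosure F ≃ₐ[K] AlgebraicClosure F)
      (hσ : σ ∈ SA K L (AlgebraicClosure F)), f0 σ = f' (toL σ hσ) := by
    intro σ hσ
    rw [hf0]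
    exact dif_pos hσ
  have hact : ∀ (σ : AlgebraicClosure F ≃ₐ[K] AlgebraicClosure F)
      (hσ : σ ∈ SA K L (AlgebraicClosure F))
      (P : (W.baseChange (AlgebraicClosure F)).toAffine.Point),
      Pool.Agent.H10.act (inv_up hVF) (toL σ hσ) P = Pool.Agent.H10.act (inv_up hV) σ P := by
    intro σ hσ P
    unfold Pool.Agent.H10.act
    exact pm_congr _ _ (fun _ => rfl) P
  refine ⟨f0, ?_, ?_⟩
  · constructor
    · intro s hs t ht
      rw [hmem _ ((SA K L (AlgebraicClosure F)).mul_mem hs ht), hmem s hs, hmem t ht, ← hact s hs,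
        ← hfc.2]
      rfl
    · obtain ⟨A, hA⟩ := (lc_iff f').1 hfc.1 1
      refine ⟨A, fun σ hσ hx => ?_⟩
      rw [hmem σ hσ, hA (toL σ hσ) (fun x hxA => hx x hxA), hfc.one]
    · intro σ hσ
      rw [hmem σ hσ, hf3]
    · have e : (fun τ : AlgebraicClosure F ≃ₐ[F] AlgebraicClosure F =>
          f0 (τ.restrictScalars K)) = resF hVF f := by
        funext τ
        have h1 : τ.restrictScalars K ∈ SA K L (AlgebraicClosure F) := by
          intro x
          change τ (algebraMap L (AlgebraicClosure F) x) = _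
          rw [IsScalarTower.algebraMap_apply L F (AlgebraicClosure F), τ.commutes]
        rw [hmem _ h1, hf']
        rfl
      rw [e]
      exact isLocTriv_res hVF hf hl
  · intro s hs τ hsz
    have e1 : (j.trans (toL s hs)).trans j.symm = τ := by
      refine AlgEquiv.ext fun y => ?_
      change j.symm (s (j y)) = τ y
      rw [hsz, j.symm_apply_apply, j.symm_apply_apply]
    rw [hmem s hs, hf']
    unfold Pool.Agent.H10.trans
    rw [e1]

theorem T1_pow {g : AlgebraicClosure L ≃ₐ[K] AlgebraicClosure L}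
    {hh : AlgebraicClosure F ≃ₐ[K] AlgebraicClosure F}
    (hg : ∀ z, g z = (jj L F).symm (hh (jj L F z))) (i : ℕ) :
    ∀ z, (hh ^ i) z = jj L F ((g ^ i) ((jj L F).symm z)) := by
  induction i with
  | zero =>
    intro z
    rw [pow_zero, pow_zero]
    exact ((jj L F).apply_symm_apply z).symm
  | succ i ih =>
    intro z
    have h1 : hh z = jj L F (g ((jj L F).symm z)) := by
      rw [hg, (jj L F).apply_symm_apply, (jj L F).apply_symm_apply]
    rw [pow_succ, pow_succ]
    change (hh ^ i) (hh z) = jj L F ((g ^ i) (g ((jj L F).symm z)))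
    rw [ih, h1, (jj L F).symm_apply_apply]

theorem T1_conj (hVL : V.map (algebraMap K L) = V') (hVF : V'.map (algebraMap L F) = W)
    (hV : V.map (algebraMap K F) = W) {f : Coch L V'}
    {f0 : (AlgebraicClosure F ≃ₐ[K] AlgebraicClosure F) →
      (W.baseChange (AlgebraicClosure F)).toAffine.Point}
    (h0 : ∀ (s : AlgebraicClosure F ≃ₐ[K] AlgebraicClosure F), s ∈ SA K L (AlgebraicClosure F) →
        ∀ τ : AlgebraicClosure L ≃ₐ[L] AlgebraicClosure L,
        (∀ z, s z = jj L F (τ ((jj L F).symm z))) →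
        f0 s = pm (jj L F : AlgebraicClosure L →+* AlgebraicClosure F) (map_jj hVF) (f τ))
    {g : AlgebraicClosure L ≃ₐ[K] AlgebraicClosure L}
    {g' : AlgebraicClosure F ≃ₐ[K] AlgebraicClosure F}
    (hg' : ∀ z, g' z = jj L F (g ((jj L F).symm z)))
    {s : AlgebraicClosure F ≃ₐ[K] AlgebraicClosure F} (hs : s ∈ SA K L (AlgebraicClosure F))
    {τ : AlgebraicClosure L ≃ₐ[L] AlgebraicClosure L}
    (hsz : ∀ z, s z = jj L F (τ ((jj L F).symm z))) :
    cjf (act (inv_up hV)) g' f0 s =
      pm (jj L F : AlgebraicClosure L →+* AlgebraicClosure F) (map_jj hVF)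
        (conj (inv_up hVL) g f τ) := by
  let j := jj L F
  have hc : g'⁻¹ * s * g' ∈ SA K L (AlgebraicClosure F) := by
    have h1 := (SA_normal (K := K) (L := L) (Ω := AlgebraicClosure F)).conj_mem s hs g'⁻¹
    rw [inv_inv] at h1
    exact h1
  have hcz : ∀ z, (g'⁻¹ * s * g') z = j (cj g τ (j.symm z)) := by
    intro z
    change g'⁻¹ (s (g' z)) = _
    apply g'.injective
    have h2 : g' (g'⁻¹ (s (g' z))) = s (g' z) := g'.apply_symm_apply _
    rw [h2, hg' (j (cj g τ (j.symm z))), j.symm_apply_apply, apply_cj, hg', hsz,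
      j.symm_apply_apply]
  have hFc' := h0 _ hc (cj g τ) hcz
  unfold cjf conj
  rw [hFc']
  unfold Pool.Agent.H10.act
  rw [pm_pm, pm_pm]
  apply pm_congr
  intro x
  change g' (j x) = j (g x)
  rw [hg', j.symm_apply_apply]

end T1

theorem famL_of_famF {K L F : Type} [Field K] [NumberField K] [Field L] [NumberField L] [Field F]
    [NumberField F] [Algebra K L] [Algebra K F] [Algebra L F] [IsScalarTower K L F] [Normal K L]
    {V : WeierstrassCurve K} {V' : WeierstrassCurve L} {W : WeierstrassCurve F} {l : ℕ}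
    (hVL : V.map (algebraMap K L) = V') (hVF : V'.map (algebraMap L F) = W)
    (hV : V.map (algebraMap K F) = W) {hh : AlgebraicClosure F ≃ₐ[K] AlgebraicClosure F}
    {P U : ℕ} (H : FamF l L hV hh P U) {g : AlgebraicClosure L ≃ₐ[K] AlgebraicClosure L}
    (hg : ∀ z, g z = (jj L F).symm (hh (jj L F z))) : FamL l hVL g P U := by
  intro ι _ hU f hf1 hf2 hf3 hf4
  let j := jj L F
  have hex : ∀ i, ∃ f0 : (AlgebraicClosure F ≃ₐ[K] AlgebraicClosure F) →
      (W.baseChange (AlgebraicClosure F)).toAffine.Point, SC l L hV f0 ∧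
      ∀ (s : AlgebraicClosure F ≃ₐ[K] AlgebraicClosure F), s ∈ SA K L (AlgebraicClosure F) →
        ∀ τ : AlgebraicClosure L ≃ₐ[L] AlgebraicClosure L,
        (∀ z, s z = jj L F (τ ((jj L F).symm z))) →
        f0 s = pm (jj L F : AlgebraicClosure L →+* AlgebraicClosure F) (map_jj hVF) (f i τ) :=
    fun i => T1_f0 hVF hV (hf1 i) (hf2 i) (hf3 i)
  choose f0 hSC h0 using hex
  have h6 : ∀ (s : AlgebraicClosure F ≃ₐ[K] AlgebraicClosure F)
      (τ : AlgebraicClosure L ≃ₐ[L] AlgebraicClosure L) (hsz : ∀ z, s z = j (τ (j.symm z)))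
      (R : (V'.baseChange (AlgebraicClosure L)).toAffine.Point),
      pm (j : AlgebraicClosure L →+* AlgebraicClosure F) (map_jj hVF)
        (Pool.Agent.H10.act (inv_bc L V') τ R) =
        Pool.Agent.H10.act (inv_up hV) s
          (pm (j : AlgebraicClosure L →+* AlgebraicClosure F) (map_jj hVF) R) := by
    intro s τ hsz R
    unfold Pool.Agent.H10.act
    rw [pm_pm, pm_pm]
    apply pm_congr
    intro x
    change j (τ x) = s (j x)
    rw [hsz, j.symm_apply_apply]
  have hN : ∀ i, ∃ R, l • R = 0 ∧ New L hV hh P R (f0 i) := by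
    intro i
    obtain ⟨R, hR, hRs⟩ := hf4 i
    refine ⟨pm (j : AlgebraicClosure L →+* AlgebraicClosure F) (map_jj hVF) R, ?_, ?_⟩
    · rw [← map_nsmul, hR, map_zero]
    · intro s hs
      obtain ⟨τ, hτ⟩ : ∃ τ : AlgebraicClosure L ≃ₐ[L] AlgebraicClosure L,
          τ = (j.trans (toL s hs)).trans j.symm := ⟨_, rfl⟩
      have hsz : ∀ z, s z = j (τ (j.symm z)) := by
        intro z
        rw [hτ]
        change s z = j (j.symm (s (j (j.symm z))))
        rw [j.apply_symm_apply, j.apply_symm_apply]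
      have h1 : ∀ k ∈ Finset.range P, cjf (act (inv_up hV)) (hh ^ k) (f0 i) s =
          pm (jj L F : AlgebraicClosure L →+* AlgebraicClosure F) (map_jj hVF)
            (conj (inv_up hVL) (g ^ k) (f i) τ) := fun k _ =>
        T1_conj hVL hVF hV (h0 i) (T1_pow hg k) hs hsz
      rw [Finset.sum_congr rfl h1, ← map_sum, hRs τ, map_sub]
      rw [h6 s τ hsz R]
  obtain ⟨i, i', hne, S, hS, HS⟩ := H ι hU f0 hSC hN
  refine ⟨i, i', hne, pm (j.symm : AlgebraicClosure F →+* AlgebraicClosure L)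
    (map_jj_symm hVF) S, ?_, fun τ => ?_⟩
  · rw [← map_nsmul, hS, map_zero]
  · let jK := j.restrictScalars K
    let s : AlgebraicClosure F ≃ₐ[K] AlgebraicClosure F :=
      (jK.symm.trans (τ.restrictScalars K)).trans jK
    have hsz : ∀ z, s z = j (τ (j.symm z)) := fun z => rfl
    have hs : s ∈ SA K L (AlgebraicClosure F) := by
      intro x
      rw [hsz, j.symm.commutes, τ.commutes, j.commutes]
    have hTT : pm (j : AlgebraicClosure L →+* AlgebraicClosure F) (map_jj hVF)
        (pm (j.symm : AlgebraicClosure F →+* AlgebraicClosure L) (map_jj_symm hVF) S) = S := by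
      rw [pm_pm]
      exact pm_eq_self _ (fun x => j.apply_symm_apply x) S
    apply pm_injective (j : AlgebraicClosure L →+* AlgebraicClosure F) (map_jj hVF)
    rw [map_sub, map_sub, h6 s τ hsz, hTT, ← HS s hs, h0 i s hs τ hsz, h0 i' s hs τ hsz]

end H68IW
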