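import Pool.Agent.H68.IW.In
import Pool.Agent.H68.IW.Lo
import Pool.Agent.H68.IW.St
import Pool.Agent.H68.IW.Bc
import Pool.Agent.H68.IW.Kf
import Pool.Agent.H68.IW.T1
import Pool.Agent.H68.IW.A3

/-!
MP_78d38b IW: the bound for the new classes in the layers (assembly, helper68).
-/

set_option autoImplicit false
set_option linter.style.haveILetI false
open scoped Classical

open WeierstrassCurve IsDedekindDomain NumberField Pool.Agent.H10 Pool.Agent.H11 H78D H68SS H5SW
  H68TM H86G H68IM H68TL H68QS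

namespace H68IW

/-- The bound over one pair of layers. -/
theorem new_lyr {l : ℕ} (hl : l.Prime) (hl2 : l ≠ 2) {k N : Type} [Field k] [NumberField k]
    [Field N] [NumberField N] [Algebra k N] [IsGalois ℚ N] {JN : N ≃+* N}
    {E : WeierstrassCurve k} (hE : E.Δ ≠ 0) {x y : N}
    {hxy : (E.map (algebraMap k N)).toAffine.Nonsingular x y}
    (hTl : l • Affine.Point.some x y hxy = 0)
    (hh : (E.map (algebraMap k N)).map (JN : N →+* N) = E.map (algebraMap k N))
    (hJT : pm (JN : N →+* N) hh (Affine.Point.some x y hxy) = -Affine.Point.some x y hxy)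
    (hst : ∀ g : N ≃ₐ[k] N, ∃ c : ℕ,
      gp (V := E) rfl g (Affine.Point.some x y hxy) = c • Affine.Point.some x y hxy)
    {S : Finset (HeightOneSpectrum (𝓞 k))} (hSl : ∀ v ∈ S, (l : 𝓞 k) ∈ v.asIdeal)
    (hloc : ∀ 𝔫 : HeightOneSpectrum (𝓞 N), (l : 𝓞 N) ∈ 𝔫.asIdeal → H73IS.below k 𝔫 ∈ S ∨
      EtAt (E.map (algebraMap k N)) x 𝔫) {D : ℤ}
    (hDg : ∀ (F : Type) [Field F] [NumberField F] (φ : k →+* F) (w : HeightOneSpectrum (𝓞 F)),
      (D : 𝓞 F) ∉ w.asIdeal → GoodVal (w.valuation F) (E.map φ) l)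
    {K Km L F : Type} [Field K] [NumberField K] [Field Km] [NumberField Km] [Field L]
    [NumberField L] [Field F] [NumberField F] [Algebra k K] [Algebra k L] [Algebra K L]
    [IsScalarTower k K L] [Normal K L] [Algebra K Km] [Algebra Km F] [Algebra K F]
    [IsScalarTower K Km F] [Algebra L F] [IsScalarTower K L F] {f : k →+* K}
    (hf : ∀ x, f x = algebraMap k K x) {ν : N →+* F} {h : F ≃ₐ[Km] F} {J : F ≃ₐ[L] F}
    (X : Lyr l D f ν JN h J) (hL : UnrL l L)
    (hV : (E.map (algebraMap k K)).map (algebraMap K L) = E.map (algebraMap k L))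
    (SL : Finset (HeightOneSpectrum (𝓞 L))) (hSL : ∀ w, w ∈ SL ↔ H73IS.below k w ∈ S) :
    Nat.card (Mn l hV) * Nat.card (Hn l hV) ≤ ∏ w ∈ SL, l * Ideal.absNorm w.asIdeal := by
  have hl3 : 3 ≤ l := by
    have h2 := hl.two_le
    omega
  haveI := X.gal
  haveI : IsGalois Km F := IsGalois.tower_top_of_isGalois K Km F
  obtain ⟨W, hW⟩ : ∃ W, (E.map (algebraMap k N)).map ν = W := ⟨_, rfl⟩
  have hVF : (E.map (algebraMap k L)).map (algebraMap L F) = W := by
    rw [← hW, X.mapν E, ← hV, WeierstrassCurve.baseChange]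
    congr 2
    congr 1
    exact RingHom.ext fun x => (hf x).symm
  have hVK : (E.map (algebraMap k K)).map (algebraMap K F) = W := by
    rw [← hVF, ← hV, WeierstrassCurve.map_map, WeierstrassCurve.map_map, WeierstrassCurve.map_map,
      IsScalarTower.algebraMap_eq K L F]
  have hVf : (E.map f).map (algebraMap K F) = W := by
    rw [← hVK]
    congr 2
    exact RingHom.ext hf
  obtain ⟨T0, hT0⟩ : ∃ T0 : (E.map (algebraMap k N)).toAffine.Point,
      T0 = Affine.Point.some x y hxy := ⟨_, rfl⟩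
  have hT00 : T0 ≠ 0 := by
    rw [hT0]
    exact Affine.Point.some_ne_zero hxy
  rw [← hT0] at hTl hJT
  simp only [← hT0] at hst
  have hT1 : pm ν hW T0 ≠ 0 := by
    intro h0
    apply hT00
    apply pm_injective ν hW
    rw [h0, map_zero]
  have hT2 : l • pm ν hW T0 = 0 := by rw [← map_nsmul, hTl, map_zero]
  have H : DatX l K Km L F W (pm ν hW T0) h J D :=
    { prime := hl
      three := hl3
      tow := X.tow
      ell := X.ell hE hW
      T0 := hT1
      Tl := hT2
      Th := ⟨X.maph hW, X.hT hW T0⟩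
      TJ := ⟨X.mapJ hW, by rw [X.JT hW T0 hh, hJT, map_neg]⟩
      good := X.good hW hDg
      noE := X.noE
      noC := X.noC
      fixP := X.fixP }
  have hkF : ∀ x : k, ν (algebraMap k N x) = algebraMap K F (f x) := by
    intro x
    rw [X.nu, ← IsScalarTower.algebraMap_apply K L F]
  have hstF : ∀ σ : F ≃ₐ[K] F, ∃ c : ℕ, gp hVK σ (pm ν hW T0) = c • pm ν hW T0 := by
    intro σ
    obtain ⟨c, hc⟩ := stab_up f ν hkF (l := l) hst hW hVf σ
    exact ⟨c, hc⟩
  obtain ⟨z0, hz0⟩ := X.tow.root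
  have hz : IsPrimitiveRoot (algebraMap Km F z0) l :=
    hz0.map_of_injective (algebraMap Km F).injective
  obtain ⟨B, _, _, _, _, _, _, _, _, _, WB, hVB, hBF, TB, ζ, HB, hTB⟩ := exists_B hVK hVF hl hl2
    (X.ell hE hW).isUnit.ne_zero hT1 hT2 hstF hz
  obtain ⟨hh', hlift⟩ := exists_lift (K := K) (F := F) (h.restrictScalars K)
  have hlift' : ∀ x : F, hh' (algebraMap F (AlgebraicClosure F) x) =
      algebraMap F (AlgebraicClosure F) (h x) := hlift
  have hlocF : ∀ w : HeightOneSpectrum (𝓞 F), (l : 𝓞 F) ∈ w.asIdeal →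
      H73IS.below L w ∈ SL ∨ LocOw l W (pm ν hW T0) w := by
    intro w hw
    obtain ⟨v, hv, hvw, h1, h2, h3⟩ := Up3_val ν w
    have hlv : (l : 𝓞 N) ∈ v.asIdeal := by
      have := (hv (l : ℤ)).2 (by simpa using hw)
      simpa using this
    rcases hloc v hlv with h4 | h4
    · left
      rw [hSL]
      have e1 : H73IS.below k (H73IS.below L w) = H73IS.below k v := by
        apply HeightOneSpectrum.ext
        ext a
        rw [H73IS.mem_below, H73IS.mem_below, H73IS.mem_below, ← hvw]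
        have e2 : algebraMap (𝓞 L) (𝓞 F) (algebraMap (𝓞 k) (𝓞 L) a) =
            RingOfIntegers.mapRingHom ν (algebraMap (𝓞 k) (𝓞 N) a) := by
          apply RingOfIntegers.ext
          change algebraMap L F (algebraMap k L (a : k)) = ν (algebraMap k N (a : k))
          rw [X.nu, hf, ← IsScalarTower.algebraMap_apply k K L]
        rw [e2]
      rw [e1]
      exact h4
    · right
      subst hW
      subst hT0
      exact locOw_of_et hl hl2 (X.ell hE rfl).isUnit.ne_zero hT2 hw (etAt_up ν h1 h2 h3 h4)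
  have hF := core_le H hVK hVB hBF HB hTB SL (fun w hw => by
      have h1 : (l : 𝓞 L) ∈ w.asIdeal := by
        have h2 := hSl _ ((hSL w).1 hw)
        rw [H73IS.mem_below, map_natCast] at h2
        exact h2
      exact ⟨h1, hL w h1⟩) hlocF hlift'
  let jK := (jj L F).restrictScalars K
  obtain ⟨g, hg⟩ : ∃ g : AlgebraicClosure L ≃ₐ[K] AlgebraicClosure L,
      ∀ z, g z = (jj L F).symm (hh' (jj L F z)) := ⟨(jK.trans hh').trans jK.symm, fun z => rfl⟩
  have hFL := famL_of_famF hV hVF hVK hF hg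
  -- the generator of the Galois group of `L / K`
  obtain ⟨γ, hγ'⟩ : ∃ γ : L ≃ₐ[K] L, γ = (h.restrictScalars K).restrictNormal L := ⟨_, rfl⟩
  have hγF : ∀ x : L, algebraMap L F (γ x) = h (algebraMap L F x) := by
    intro x
    rw [hγ']
    exact AlgEquiv.restrictNormal_commutes (h.restrictScalars K) L x
  have hγpow : ∀ (j : ℕ) (x : L), algebraMap L F ((γ ^ j) x) = (h ^ j) (algebraMap L F x) := by
    intro j
    induction j with
    | zero => intro x; rfl
    | succ j ih =>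
      intro x
      rw [pow_succ', pow_succ']
      change algebraMap L F (γ ((γ ^ j) x)) = h ((h ^ j) (algebraMap L F x))
      rw [hγF, ih]
  have hγ : ∀ x : L, g (algebraMap L (AlgebraicClosure L) x) =
      algebraMap L (AlgebraicClosure L) (γ x) := by
    intro x
    rw [hg, (jj L F).commutes, IsScalarTower.algebraMap_apply L F (AlgebraicClosure F), hlift',
      ← hγF, ← IsScalarTower.algebraMap_apply L F (AlgebraicClosure F), AlgEquiv.commutes]
  have hgen : ∀ y : L ≃ₐ[K] L, ∃ j : ℕ, y = γ ^ j := by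
    intro y
    obtain ⟨j, hj⟩ := X.tow.cov (y.liftNormal F)
    refine ⟨j, AlgEquiv.ext fun x => (algebraMap L F).injective ?_⟩
    rw [hγpow, ← hj, AlgEquiv.liftNormal_commutes]
  have hγP : γ ^ orderOf h = 1 := by
    refine AlgEquiv.ext fun x => (algebraMap L F).injective ?_
    rw [hγpow, pow_orderOf_eq_one]
    rfl
  have hEL : (E.map (algebraMap k L)).Δ ≠ 0 := by
    rw [WeierstrassCurve.map_Δ]
    exact fun h => hE ((map_eq_zero _).1 h)
  exact new_le hEL hl X.tow.cop hγ hgen hγP hFL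

theorem new_bound {l p f : ℕ} [Fact l.Prime] [Fact p.Prime] (hl2 : l ≠ 2) (hp2 : p ≠ 2)
    (hlp : l ≠ p) (hf : f ≠ 0) {k : Type} [Field k] [NumberField k] (hk : LType l k)
    (hkl : UnrL l k) {E : WeierstrassCurve k} (hE : E.Δ ≠ 0)
    {S : Finset (HeightOneSpectrum (𝓞 k))} (H : IwPoint l f E S) :
    ∃ N : ℕ, ∀ (K L : Type) [Field K] [NumberField K] [Field L] [NumberField L]
      [Algebra k K] [Algebra k L] [Algebra K L] [IsScalarTower k K L] [Normal K L],
      Lay p k L → (∃ j : ℕ, Module.finrank K L = p ^ j) → p ^ N ∣ Module.finrank ℚ K →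
      ∀ (hV : (E.map (algebraMap k K)).map (algebraMap K L) = E.map (algebraMap k L))
        (SL : Finset (HeightOneSpectrum (𝓞 L))), (∀ w, w ∈ SL ↔ H73IS.below k w ∈ S) →
        Nat.card (Mn l hV) * Nat.card (Hn l hV) ≤ ∏ w ∈ SL, l * Ideal.absNorm w.asIdeal := by
  have hl : l.Prime := Fact.out
  obtain ⟨hS, N1, _, _, _, _, J1, x1, y1, hxy1, hJ1, hTl, hJT, hst, hloc⟩ := H
  obtain ⟨M, N, _, _, ν, J, hlM, hM, hNG, hLT, hJ⟩ := exists_comp (m := l) hk hl.ne_zero hf N1
  haveI := hNG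
  letI : Algebra k N := (ν.comp (algebraMap k N1)).toAlgebra
  have hν : (E.map (algebraMap k N1)).map ν = E.map (algebraMap k N) := by
    rw [WeierstrassCurve.map_map]
    rfl
  have hJν : ∀ x, J (ν x) = ν (J1 x) := by
    intro x
    obtain ⟨φ⟩ := cc_emb N
    apply φ.injective
    rw [hJ]
    exact (hJ1 (φ.comp ν) x).symm
  have hJW : (E.map (algebraMap k N)).map (J : N →+* N) = E.map (algebraMap k N) := by
    rw [WeierstrassCurve.map_map]
    congr 1
    refine RingHom.ext fun x => ?_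
    change J (ν (algebraMap k N1 x)) = ν (algebraMap k N1 x)
    rw [hJν, J1.commutes]
  obtain ⟨T1, hT1⟩ : ∃ T1, T1 = Affine.Point.some x1 y1 hxy1 := ⟨_, rfl⟩
  rw [← hT1] at hTl hJT
  simp only [← hT1] at hst
  obtain ⟨hxy, hxye⟩ : ∃ hxy, pm ν hν T1 = Affine.Point.some (ν x1) (ν y1) hxy := by
    rw [hT1]
    exact ⟨_, pm_some _ _ _⟩
  have hN1 : Normal k N1 := by
    have : NeZero f := ⟨hf⟩
    exact (IsCyclotomicExtension.isGalois {f} k N1).to_normal
  obtain ⟨D, hD, hDg⟩ := exists_D hE hl.ne_zero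
  obtain ⟨N0, hN0⟩ := exists_layer (p := p) hl2 hp2 hlp hlM hM hk.1 hLT hJ hD
  refine ⟨N0 + padicValNat p (Module.finrank ℚ k), ?_⟩
  intro K L _ _ _ _ _ _ _ _ _ ⟨L', _, _, h, hR, hgen⟩ ⟨j, hj⟩ hK hV SL hSL
  obtain ⟨K', _, _, _, ⟨C, hC⟩, hd, hN'⟩ := decompose_l (K := K) h hR hgen
  obtain ⟨Km, F, _, _, _, _, _, _, _, _, _, _, μ, hm, Jm, X⟩ := hN0 K' L' K L C hR
    ⟨j, by rw [hd, hj]⟩ (hN' N0 hK)
  refine new_lyr (N := N) (x := ν x1) (y := ν y1) (hxy := hxy) hl hl2 hE ?_ hJW ?_ ?_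
    hS ?_ hDg (f := C.f) hC X
    (unrl_gen hl hlp.symm hkl h hR hgen) hV SL hSL
  · rw [← hxye, ← map_nsmul, hTl, map_zero]
  · rw [← hxye, pm_pm ν hν (J : N →+* N) hJW, ← map_neg, ← hJT]
    change _ = pm ν hν (pm (J1 : N1 →+* N1) _ T1)
    rw [pm_pm]
    exact pm_congr _ _ (fun x => hJν x) T1
  · intro g
    rw [← hxye]
    letI : Algebra N1 N := ν.toAlgebra
    haveI : IsScalarTower k N1 N := IsScalarTower.of_algebraMap_eq (fun x => rfl)
    obtain ⟨c, hc⟩ := hst (g.restrictNormal N1)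
    refine ⟨c, ?_⟩
    rw [← map_nsmul, ← hc]
    change pm (g : N →+* N) _ (pm ν hν T1) =
      pm ν hν (pm ((g.restrictNormal N1 : N1 ≃ₐ[k] N1) : N1 →+* N1) _ T1)
    rw [pm_pm, pm_pm]
    exact pm_congr _ _ (fun x => (g.restrictNormal_commutes N1 x).symm) T1
  · intro 𝔫 h𝔫
    obtain ⟨v, hv, hvw, h1, h2, h3⟩ := Up3_val ν 𝔫
    have hlv : (l : 𝓞 N1) ∈ v.asIdeal := by
      have := (hv (l : ℤ)).2 (by simpa using h𝔫)
      simpa using this
    have e1 : H73IS.below k 𝔫 = H73IS.below k v := by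
      apply HeightOneSpectrum.ext
      ext a
      rw [H73IS.mem_below, H73IS.mem_below, ← hvw]
      have e2 : algebraMap (𝓞 k) (𝓞 N) a =
          RingOfIntegers.mapRingHom ν (algebraMap (𝓞 k) (𝓞 N1) a) := by
        apply RingOfIntegers.ext
        rfl
      rw [e2]
    rcases hloc v hlv with ⟨h4, -⟩ | ⟨-, h4⟩
    · left
      rw [e1]
      exact h4
    · right
      have h5 := etAt_up ν h1 h2 h3 h4
      rw [hν] at h5
      exact h5

end H68IW
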