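import Pool.Agent.H68.IW.Nc

/-!
# MP_78d38b IW: the bound for the new classes: `H68IW.new_bound` is proved in Nc
-/
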